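import Pool.Agent.H31.TL.Defs

/-!
# TL Abel: partial summation

`S(n) = n mn(n)`: `∑_(n ≤ N) f(n) / n = mn(N) + ∑_(n < N) mn(n) / (n + 1)`, so the difference with
`∑_(n ≤ N) mn(n) / n` is `mn(N) / N - mn(N) + ∑_(n < N) mn(n) (1 / n - 1 / (n + 1))`, of norm at most 3.
-/

set_option autoImplicit false

namespace Pool.Agent.H31.TL

open Finset

theorem mn_norm_le (f : ℕ → ℂ) (hf : ∀ n, ‖f n‖ ≤ 1) (N : ℕ) : ‖mn f N‖ ≤ 1 := by
  unfold mn
  rcases Nat.eq_zero_or_pos N with rfl | hN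
  · simp
  · have hN' : (0 : ℝ) < N := by exact_mod_cast hN
    rw [norm_div, Complex.norm_natCast, div_le_one hN']
    refine (norm_sum_le _ _).trans ?_
    refine (Finset.sum_le_sum fun n _ => hf n).trans ?_
    simp

/-- recursion of the mean -/
private theorem mn_succ (f : ℕ → ℂ) (N : ℕ) :
    ((N : ℂ) + 1) * mn f (N + 1) = N * mn f N + f (N + 1) := by
  have h1 : ((N : ℂ) + 1) ≠ 0 := by exact_mod_cast Nat.succ_ne_zero N
  unfold mn
  rw [Finset.sum_Icc_succ_top (by omega)]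
  push_cast
  rw [mul_div_cancel₀ _ h1]
  rcases Nat.eq_zero_or_pos N with rfl | hN
  · simp
  · have h2 : (N : ℂ) ≠ 0 := by exact_mod_cast hN.ne'
    rw [mul_div_cancel₀ _ h2]

private theorem abel_aux (f : ℕ → ℂ) (hf : ∀ n, ‖f n‖ ≤ 1) (N : ℕ) :
    ‖∑ n ∈ Icc 1 (N + 1), f n / n - ∑ n ∈ Icc 1 (N + 1), mn f n / n -
      mn f (N + 1) * (1 - 1 / ((N : ℂ) + 1))‖ ≤ 1 - 1 / ((N : ℝ) + 1) := by
  induction N with
  | zero => simp [mn]
  | succ N ih =>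
    have h1 : ((N : ℂ) + 1) ≠ 0 := by exact_mod_cast Nat.succ_ne_zero N
    have h2 : ((N : ℂ) + 1 + 1) ≠ 0 := by exact_mod_cast Nat.succ_ne_zero (N + 1)
    have h3 := mn_succ f (N + 1)
    have h0 : (0 : ℝ) < (N : ℝ) + 1 := by positivity
    have h0' : (0 : ℝ) < (N : ℝ) + 1 + 1 := by positivity
    have key : ∑ n ∈ Icc 1 (N + 1 + 1), f n / n - ∑ n ∈ Icc 1 (N + 1 + 1), mn f n / n -
        mn f (N + 1 + 1) * (1 - 1 / (((N + 1 : ℕ) : ℂ) + 1)) =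
        (∑ n ∈ Icc 1 (N + 1), f n / n - ∑ n ∈ Icc 1 (N + 1), mn f n / n -
          mn f (N + 1) * (1 - 1 / ((N : ℂ) + 1))) -
          mn f (N + 1) * (((1 / ((N : ℝ) + 1) - 1 / ((N : ℝ) + 1 + 1) : ℝ)) : ℂ) := by
      rw [Finset.sum_Icc_succ_top (by omega : 1 ≤ N + 1 + 1),
        Finset.sum_Icc_succ_top (by omega : 1 ≤ N + 1 + 1)]
      push_cast at h3 ⊢
      have h4 : f (N + 1 + 1) = ((N : ℂ) + 1 + 1) * mn f (N + 1 + 1) -
          ((N : ℂ) + 1) * mn f (N + 1) := by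
        rw [h3]; ring
      rw [h4]
      field_simp
      ring
    rw [key]
    have h5 : (0 : ℝ) ≤ 1 / ((N : ℝ) + 1) - 1 / ((N : ℝ) + 1 + 1) := by
      rw [sub_nonneg]
      exact one_div_le_one_div_of_le h0 (by linarith)
    have h6 : ‖mn f (N + 1) * (((1 / ((N : ℝ) + 1) - 1 / ((N : ℝ) + 1 + 1) : ℝ)) : ℂ)‖ ≤
        1 / ((N : ℝ) + 1) - 1 / ((N : ℝ) + 1 + 1) := by
      rw [norm_mul, Complex.norm_real, Real.norm_of_nonneg h5]
      exact mul_le_of_le_one_left h5 (mn_norm_le f hf _)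
    refine (norm_sub_le _ _).trans ((add_le_add ih h6).trans (le_of_eq ?_))
    push_cast
    ring

theorem abel_bound (f : ℕ → ℂ) (hf : ∀ n, ‖f n‖ ≤ 1) (N : ℕ) :
    ‖∑ n ∈ Icc 1 N, f n / n - ∑ n ∈ Icc 1 N, mn f n / n‖ ≤ 3 := by
  rcases Nat.eq_zero_or_pos N with rfl | hN
  · simp
  · obtain ⟨N, rfl⟩ := Nat.exists_eq_succ_of_ne_zero hN.ne'
    rw [Nat.succ_eq_add_one]
    have h0 : (0 : ℝ) < (N : ℝ) + 1 := by positivity
    have h1 := abel_aux f hf N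
    have h5 : (0 : ℝ) ≤ 1 - 1 / ((N : ℝ) + 1) := by
      rw [sub_nonneg, div_le_one h0]
      have : (0 : ℝ) ≤ N := Nat.cast_nonneg N
      linarith
    have h2 : ‖mn f (N + 1) * (1 - 1 / ((N : ℂ) + 1))‖ ≤ 1 - 1 / ((N : ℝ) + 1) := by
      have e : (1 - 1 / ((N : ℂ) + 1)) = ((1 - 1 / ((N : ℝ) + 1) : ℝ) : ℂ) := by
        push_cast; ring
      rw [e, norm_mul, Complex.norm_real, Real.norm_of_nonneg h5]
      exact mul_le_of_le_one_left h5 (mn_norm_le f hf _)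
    have h3 : (0 : ℝ) < 1 / ((N : ℝ) + 1) := by positivity
    have h4 := norm_le_norm_sub_add (∑ n ∈ Icc 1 (N + 1), f n / n -
      ∑ n ∈ Icc 1 (N + 1), mn f n / n) (mn f (N + 1) * (1 - 1 / ((N : ℂ) + 1)))
    linarith

end Pool.Agent.H31.TL
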