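import Pool.Agent.H31.TL.Defs
import Pool.Agent.H31.DD.Bad
import Pool.Agent.H31.DD.Wt
import Pool.Agent.H31.DD.Tail

/-!
# TL Apx: the integers against the truncated sums

Let `g(k) = w(k) / k = ∑_(p^a ∥ k) 1 / p^a` (`wf_cast`), so `w(w(n)) = n g(n) g(w(n))` and, for the primes
`p ∣ n w(n)`: `g(n) + g(w(n)) ≤ T(n) := ∑_(p ∣ n w(n)) 1 / p`,
`|g(k) - Xn z A k| ≤ ∑_(p ∣ k, p > z) 1 / p + (z + 1) / 2^A` (`k = n`, `w(n)`).
For good `n` (`DD.bad_le`: all but `5 δ N`) `DD.wt_le` and `DD.ws_tail` give: the sum over the good `n ≤ N` of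
`rcp z (log N) (n w(n))` is at most `(2 / log N) 4 N (1 + log N) / z ≤ 16 N / z`; `DD.tail_far` bounds the primes
`> log N`. `z = 1`: `T(n) ≤ K + 1` outside `16 N / K + 5 δ N` numbers: this gives `tight` (`g(n) g(w(n)) ≤ T²`).
For `apx`: outside `16 N / K + 16 N / (z κ) + 5 δ N` numbers
`|g(n) g(w(n)) - X Y| ≤ (K + 2) · 2 (κ + ε' + (z + 1) / 2^A) ≤ ε`, with `A ≥ z` large.
-/

set_option autoImplicit false

namespace Pool.Agent.H31.TL

open Finset
open Pool.Agent.H97.WIter (wf)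

/-- the sum of `1 / p` over the primes `p > z` dividing `k` -/
private noncomputable def tl (z k : ℕ) : ℝ := ∑ p ∈ k.primeFactors.filter (fun p => z < p), (1 : ℝ) / p

private theorem tl_nonneg (z k : ℕ) : 0 ≤ tl z k := sum_nonneg fun _ _ => by positivity

private theorem wf_real (k : ℕ) : (wf k : ℝ) = k * ∑ p ∈ k.primeFactors, 1 / (p : ℝ) ^ (k.factorization p) := by
  have h := Pool.Agent.H97.WIter.wf_cast k
  have h2 : ((wf k : ℚ) : ℝ) = ((k * Pool.Agent.H97.WIter.gf k : ℚ) : ℝ) := by rw [h]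
  rw [Rat.cast_natCast] at h2
  rw [h2]
  unfold Pool.Agent.H97.WIter.gf
  push_cast
  rfl

private theorem term_le {k p : ℕ} (hp : p ∈ k.primeFactors) : 1 / (p : ℝ) ^ (k.factorization p) ≤ 1 / p := by
  have hpp := Nat.prime_of_mem_primeFactors hp
  have hp1 : (1 : ℝ) ≤ p := by exact_mod_cast hpp.one_lt.le
  have hv : k.factorization p ≠ 0 := by
    rw [← Nat.support_factorization, Finsupp.mem_support_iff] at hp
    exact hp
  refine one_div_le_one_div_of_le (by linarith) ?_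
  exact le_self_pow₀ hp1 hv

private theorem g_le {k : ℕ} (hk : 1 ≤ k) : (wf k : ℝ) / k ≤ tl 1 k := by
  have hk0 : (0 : ℝ) < k := by exact_mod_cast hk
  rw [div_le_iff₀ hk0, wf_real, mul_comm]
  refine mul_le_mul_of_nonneg_right ?_ hk0.le
  unfold tl
  have h1 : k.primeFactors.filter (fun p => 1 < p) = k.primeFactors := by
    refine filter_true_of_mem fun p hp => (Nat.prime_of_mem_primeFactors hp).one_lt
  rw [h1]
  exact sum_le_sum fun p hp => term_le hp

private theorem Xn_nonneg (z A k : ℕ) : 0 ≤ Xn z A k := by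
  unfold Xn
  refine sum_nonneg fun p _ => ?_
  unfold el
  split_ifs
  · exact le_rfl
  · positivity

private theorem Xn_le (k z A : ℕ) : Xn z A k ≤ tl 1 k := by
  unfold Xn tl
  have h1 : k.primeFactors.filter (fun p => 1 < p) = k.primeFactors := by
    refine filter_true_of_mem fun p hp => (Nat.prime_of_mem_primeFactors hp).one_lt
  rw [h1]
  have h2 : ∑ p ∈ DD.Pz z, el p (min (k.factorization p) A) ≤
      ∑ p ∈ (DD.Pz z).filter (fun p => p ∈ k.primeFactors), (1 : ℝ) / p := by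
    rw [sum_filter]
    refine sum_le_sum fun p hp => ?_
    have hpp := (DD.mem_Pz.1 hp).2
    have hp1 : (1 : ℝ) ≤ p := by exact_mod_cast hpp.one_lt.le
    unfold el
    split_ifs with ha hb hb
    · positivity
    · exact le_rfl
    · refine one_div_le_one_div_of_le (by linarith) ?_
      exact le_self_pow₀ hp1 ha
    · exfalso
      apply ha
      have : k.factorization p = 0 := by
        by_contra h0
        exact hb (by rw [← Nat.support_factorization, Finsupp.mem_support_iff]; exact h0)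
      rw [this]
      exact Nat.zero_min _
  refine h2.trans (sum_le_sum_of_subset_of_nonneg ?_ fun _ _ _ => by positivity)
  intro p hp
  exact (mem_filter.1 hp).2

private theorem g_Xn {k : ℕ} (hk : 1 ≤ k) (z A : ℕ) :
    |(wf k : ℝ) / k - Xn z A k| ≤ tl z k + (z + 1) / 2 ^ A := by
  have hk0 : (0 : ℝ) < k := by exact_mod_cast hk
  have e1 : (wf k : ℝ) / k = ∑ p ∈ k.primeFactors, 1 / (p : ℝ) ^ (k.factorization p) := by
    rw [wf_real]
    field_simp
  have e2 : ∑ p ∈ k.primeFactors, 1 / (p : ℝ) ^ (k.factorization p) =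
      ∑ p ∈ k.primeFactors.filter (fun p => z < p), 1 / (p : ℝ) ^ (k.factorization p) +
        ∑ p ∈ k.primeFactors.filter (fun p => ¬ z < p), 1 / (p : ℝ) ^ (k.factorization p) :=
    (sum_filter_add_sum_filter_not _ _ _).symm
  have e3 : Xn z A k = ∑ p ∈ k.primeFactors.filter (fun p => ¬ z < p), el p (min (k.factorization p) A) := by
    unfold Xn
    symm
    refine sum_subset ?_ ?_
    · intro p hp
      rw [mem_filter] at hp
      exact DD.mem_Pz.2 ⟨not_lt.1 hp.2, Nat.prime_of_mem_primeFactors hp.1⟩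
    · intro p hp hnp
      have hpz := DD.mem_Pz.1 hp
      have h0 : k.factorization p = 0 := by
        by_contra h0
        apply hnp
        rw [mem_filter]
        refine ⟨?_, not_lt.2 hpz.1⟩
        rw [← Nat.support_factorization, Finsupp.mem_support_iff]
        exact h0
      rw [h0, Nat.zero_min, el, if_pos rfl]
  have h1 : |∑ p ∈ k.primeFactors.filter (fun p => z < p), 1 / (p : ℝ) ^ (k.factorization p)| ≤ tl z k := by
    rw [abs_of_nonneg (sum_nonneg fun _ _ => by positivity)]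
    exact sum_le_sum fun p hp => term_le (mem_filter.1 hp).1
  have h2 : |∑ p ∈ k.primeFactors.filter (fun p => ¬ z < p), 1 / (p : ℝ) ^ (k.factorization p) -
      ∑ p ∈ k.primeFactors.filter (fun p => ¬ z < p), el p (min (k.factorization p) A)| ≤ (z + 1) / 2 ^ A := by
    rw [← sum_sub_distrib]
    refine (abs_sum_le_sum_abs _ _).trans ?_
    have h3 : ∀ p ∈ k.primeFactors.filter (fun p => ¬ z < p),
        |1 / (p : ℝ) ^ (k.factorization p) - el p (min (k.factorization p) A)| ≤ 1 / 2 ^ A := by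
      intro p hp
      rw [mem_filter] at hp
      have hpp := Nat.prime_of_mem_primeFactors hp.1
      have hp2 : (2 : ℝ) ≤ p := by exact_mod_cast hpp.two_le
      have hp0 : (0 : ℝ) < p := by linarith
      have hv : k.factorization p ≠ 0 := by
        have := hp.1
        rw [← Nat.support_factorization, Finsupp.mem_support_iff] at this
        exact this
      have hpow : 1 / (p : ℝ) ^ A ≤ 1 / 2 ^ A :=
        one_div_le_one_div_of_le (by positivity) (pow_le_pow_left₀ (by norm_num) hp2 A)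
      rcases le_total (k.factorization p) A with hle | hle
      · rw [min_eq_left hle, el, if_neg hv, sub_self, abs_zero]
        positivity
      · have h4 : 1 / (p : ℝ) ^ (k.factorization p) ≤ 1 / (p : ℝ) ^ A :=
          one_div_le_one_div_of_le (by positivity) (pow_le_pow_right₀ (by linarith) hle)
        have h5 : (0 : ℝ) ≤ 1 / (p : ℝ) ^ (k.factorization p) := by positivity
        rw [min_eq_right hle, el]
        split_ifs with hA
        · rw [sub_zero, abs_of_nonneg h5]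
          exact h4.trans hpow
        · rw [abs_sub_comm, abs_of_nonneg (by linarith)]
          linarith
    refine (sum_le_card_nsmul _ _ _ h3).trans ?_
    rw [nsmul_eq_mul, mul_one_div]
    refine div_le_div_of_nonneg_right ?_ (by positivity)
    have h6 : (k.primeFactors.filter (fun p => ¬ z < p)).card ≤ (range (z + 1)).card := by
      refine card_le_card fun p hp => ?_
      rw [mem_filter] at hp
      rw [mem_range]
      omega
    rw [card_range] at h6
    exact_mod_cast h6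
  rw [e1, e2, e3]
  refine (abs_le_abs_add _ _ _).trans (add_le_add h1 h2)
where
  abs_le_abs_add (a b c : ℝ) : |a + b - c| ≤ |a| + |b - c| := by
    have := abs_add_le a (b - c)
    rwa [← add_sub_assoc] at this

private theorem tl_mono {z k m : ℕ} (h : k ∣ m) (hm : m ≠ 0) : tl z k ≤ tl z m := by
  unfold tl
  refine sum_le_sum_of_subset_of_nonneg ?_ fun _ _ _ => by positivity
  exact filter_subset_filter _ (Nat.primeFactors_mono h hm)

private theorem tl_split (z L k : ℕ) : tl z k ≤ DD.rcp z L k +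
    ∑ p ∈ k.primeFactors.filter (fun p => L < p), (1 : ℝ) / p := by
  unfold tl DD.rcp
  have h1 : k.primeFactors.filter (fun p => z < p) ⊆
      k.primeFactors.filter (fun p => z < p ∧ p ≤ L) ∪ k.primeFactors.filter (fun p => L < p) := by
    intro p hp
    rw [mem_filter] at hp
    rw [mem_union, mem_filter, mem_filter]
    rcases le_or_gt p L with h | h
    · exact Or.inl ⟨hp.1, hp.2, h⟩
    · exact Or.inr ⟨hp.1, h⟩
  refine (sum_le_sum_of_subset_of_nonneg h1 fun _ _ _ => by positivity).trans ?_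
  have h2 := sum_union_inter (s₁ := k.primeFactors.filter (fun p => z < p ∧ p ≤ L))
    (s₂ := k.primeFactors.filter (fun p => L < p)) (f := fun p : ℕ => (1 : ℝ) / p)
  have h3 : 0 ≤ ∑ p ∈ k.primeFactors.filter (fun p => z < p ∧ p ≤ L) ∩ k.primeFactors.filter (fun p => L < p), (1 : ℝ) / p :=
    sum_nonneg fun _ _ => by positivity
  linarith

open Classical in
private theorem markov (δ : ℝ) (hδ : 0 < δ) (hδ1 : δ ≤ 1) (z : ℕ) (hz : 1 ≤ z) (κ : ℝ) (hκ : 0 < κ) : ∃ N0 : ℕ, ∀ N : ℕ,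
    N0 ≤ N → (((Icc 1 N).filter (fun n => κ < DD.rcp z ⌊Real.log N⌋₊ (n * wf n))).card : ℝ) ≤
      (16 / (z * κ) + 5 * δ) * N := by
  obtain ⟨N1, hN1⟩ := DD.bad_le δ hδ hδ1
  obtain ⟨N2, hN2⟩ := DD.ws_tail δ hδ z hz
  refine ⟨max (max N1 N2) 3, fun N hN => ?_⟩
  have hb := hN1 N (le_trans (le_trans (le_max_left _ _) (le_max_left _ _)) hN)
  have hw := hN2 N (le_trans (le_trans (le_max_right _ _) (le_max_left _ _)) hN)
  have hN3 : 3 ≤ N := le_trans (le_max_right _ _) hN
  have hN0 : (0 : ℝ) < N := by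
    have : 0 < N := by omega
    exact_mod_cast this
  have hlog1 : 1 ≤ Real.log N := by
    rw [Real.le_log_iff_exp_le hN0]
    have := Real.exp_one_lt_d9
    have h3 : (3 : ℝ) ≤ N := by exact_mod_cast hN3
    linarith
  have hz0 : (0 : ℝ) < z := by exact_mod_cast hz
  obtain ⟨f, hf⟩ : ∃ f : ℕ → ℝ, f = fun n => DD.rcp z ⌊Real.log N⌋₊ (n * wf n) := ⟨_, rfl⟩
  have hf0 : ∀ n, 0 ≤ f n := by
    intro n
    rw [hf]
    exact sum_nonneg fun _ _ => by positivity
  have h1 := DD.wt_le N (DD.yy δ N) f hf0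
  rw [← hf] at hw
  have h2 : (Icc 1 N).filter (fun n => κ < DD.rcp z ⌊Real.log N⌋₊ (n * wf n)) ⊆
      ((Icc 1 N).filter (fun n => DD.Good N (DD.yy δ N) n)).filter (fun n => κ < f n) ∪
        (Icc 1 N).filter (fun n => ¬ DD.Good N (DD.yy δ N) n) := by
    intro n hn
    rw [mem_filter] at hn
    rw [mem_union, mem_filter, mem_filter, mem_filter]
    by_cases hg : DD.Good N (DD.yy δ N) n
    · left
      refine ⟨⟨hn.1, hg⟩, ?_⟩
      rw [hf]
      exact hn.2
    · exact Or.inr ⟨hn.1, hg⟩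
  have h3 : ((((Icc 1 N).filter (fun n => DD.Good N (DD.yy δ N) n)).filter (fun n => κ < f n)).card : ℝ) * κ ≤
      ∑ n ∈ (Icc 1 N).filter (fun n => DD.Good N (DD.yy δ N) n), f n := by
    calc ((((Icc 1 N).filter (fun n => DD.Good N (DD.yy δ N) n)).filter (fun n => κ < f n)).card : ℝ) * κ
        = ∑ _n ∈ ((Icc 1 N).filter (fun n => DD.Good N (DD.yy δ N) n)).filter (fun n => κ < f n), κ := by
          rw [sum_const, nsmul_eq_mul]
      _ ≤ ∑ n ∈ ((Icc 1 N).filter (fun n => DD.Good N (DD.yy δ N) n)).filter (fun n => κ < f n), f n :=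
          sum_le_sum fun n hn => (mem_filter.1 hn).2.le
      _ ≤ _ := sum_le_sum_of_subset_of_nonneg (filter_subset _ _) fun n _ _ => hf0 n
  have h4 : (∑ n ∈ (Icc 1 N).filter (fun n => DD.Good N (DD.yy δ N) n), f n) ≤ 16 * N / z := by
    have h5 : 0 < Real.log N / 2 := by linarith
    have h6 : (∑ n ∈ (Icc 1 N).filter (fun n => DD.Good N (DD.yy δ N) n), f n) * (Real.log N / 2) ≤
        16 * N / z * (Real.log N / 2) := by
      refine h1.trans (hw.trans ?_)
      rw [div_mul_eq_mul_div]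
      refine div_le_div_of_nonneg_right ?_ hz0.le
      nlinarith
    exact le_of_mul_le_mul_right h6 h5
  have h7 : ((((Icc 1 N).filter (fun n => DD.Good N (DD.yy δ N) n)).filter (fun n => κ < f n)).card : ℝ) ≤
      16 / (z * κ) * N := by
    have h8 := h3.trans h4
    rw [← le_div_iff₀ hκ] at h8
    refine h8.trans (le_of_eq ?_)
    field_simp
  have h9 := card_le_card h2
  have h10 := card_union_le (((Icc 1 N).filter (fun n => DD.Good N (DD.yy δ N) n)).filter (fun n => κ < f n))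
    ((Icc 1 N).filter (fun n => ¬ DD.Good N (DD.yy δ N) n))
  have h11 : (((Icc 1 N).filter (fun n => κ < DD.rcp z ⌊Real.log N⌋₊ (n * wf n))).card : ℝ) ≤
      ((((Icc 1 N).filter (fun n => DD.Good N (DD.yy δ N) n)).filter (fun n => κ < f n)).card : ℝ) +
        (((Icc 1 N).filter (fun n => ¬ DD.Good N (DD.yy δ N) n)).card : ℝ) := by
    exact_mod_cast h9.trans h10
  linarith

private theorem ww_eq {n : ℕ} (hn : 2 ≤ n) : (wf (wf n) : ℝ) / n = ((wf n : ℝ) / n) * ((wf (wf n) : ℝ) / wf n) := by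
  have h1 := Pool.Agent.H97.WIter.wf_pos hn
  have h2 : (wf n : ℝ) ≠ 0 := by
    have : wf n ≠ 0 := by omega
    exact_mod_cast this
  have h3 : (n : ℝ) ≠ 0 := by
    have : n ≠ 0 := by omega
    exact_mod_cast this
  field_simp

private theorem wf_one : wf 1 = 0 := by
  unfold Pool.Agent.H97.WIter.wf
  simp

private theorem wf_zero : wf 0 = 0 := by
  unfold Pool.Agent.H97.WIter.wf
  simp

open Classical in
theorem apx (ε : ℝ) (hε : 0 < ε) : ∃ z0 : ℕ, ∀ z A : ℕ, z0 ≤ z → z ≤ A → ∃ N0 : ℕ, ∀ N : ℕ,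
    N0 ≤ N → (((Icc 1 N).filter (fun n => ε < |(wf (wf n) : ℝ) / n -
      Xn z A n * Xn z A (wf n)|)).card : ℝ) ≤ ε * N := by
  obtain ⟨K, hK⟩ : ∃ K : ℝ, K = 64 / ε := ⟨_, rfl⟩
  have hK0 : 0 < K := by rw [hK]; positivity
  obtain ⟨κ, hκ⟩ : ∃ κ : ℝ, κ = min 1 (ε / (8 * (K + 1))) := ⟨_, rfl⟩
  have hκ0 : 0 < κ := by rw [hκ]; exact lt_min one_pos (by positivity)
  have hκ1 : κ ≤ 1 := by rw [hκ]; exact min_le_left _ _
  have hκ2 : κ ≤ ε / (8 * (K + 1)) := by rw [hκ]; exact min_le_right _ _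
  obtain ⟨δ, hδ⟩ : ∃ δ : ℝ, δ = min 1 (ε / 20) := ⟨_, rfl⟩
  have hδ0 : 0 < δ := by rw [hδ]; exact lt_min one_pos (by positivity)
  have hδ1 : δ ≤ 1 := by rw [hδ]; exact min_le_left _ _
  have hδ2 : δ ≤ ε / 20 := by rw [hδ]; exact min_le_right _ _
  have ht := tendsto_pow_const_div_const_pow_of_one_lt 1 (r := 2) (by norm_num)
  have hev := (ht.eventually (gt_mem_nhds (show (0 : ℝ) < ε / (8 * (K + 1)) by positivity)))
  rw [Filter.eventually_atTop] at hev
  obtain ⟨z1, hz1⟩ := hev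
  refine ⟨max (max z1 1) ⌈64 / (ε * κ)⌉₊, fun z A hz hA => ?_⟩
  have hz1' : z1 ≤ z := le_trans (le_trans (le_max_left _ _) (le_max_left _ _)) hz
  have hz2 : 1 ≤ z := le_trans (le_trans (le_max_right _ _) (le_max_left _ _)) hz
  have hz3 : 64 / (ε * κ) ≤ z := Nat.ceil_le.1 (le_trans (le_max_right _ _) hz)
  have hzA : ((z : ℝ) + 1) / 2 ^ A ≤ ε / (4 * (K + 1)) := by
    have h1 := hz1 z hz1'
    rw [pow_one] at h1
    have h2 : ((z : ℝ) + 1) / 2 ^ A ≤ (z + 1) / 2 ^ z := by
      refine div_le_div_of_nonneg_left (by positivity) (by positivity) ?_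
      exact pow_le_pow_right₀ (by norm_num) hA
    have h3 : (1 : ℝ) ≤ z := by exact_mod_cast hz2
    have h4 : ((z : ℝ) + 1) / 2 ^ z ≤ 2 * (z / 2 ^ z) := by
      rw [← mul_div_assoc]
      refine div_le_div_of_nonneg_right ?_ (by positivity)
      linarith
    have h5 : 2 * (ε / (8 * (K + 1))) = ε / (4 * (K + 1)) := by
      field_simp
      norm_num
    linarith
  obtain ⟨N1, hN1⟩ := markov δ hδ0 hδ1 1 le_rfl K hK0
  obtain ⟨N2, hN2⟩ := markov δ hδ0 hδ1 z hz2 κ hκ0
  obtain ⟨N3, hN3⟩ := DD.tail_far κ hκ0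
  refine ⟨max N1 (max N2 N3), fun N hN => ?_⟩
  have a1 := hN1 N (le_trans (le_max_left _ _) hN)
  have a2 := hN2 N (le_trans (le_trans (le_max_left _ _) (le_max_right _ _)) hN)
  have a3 := hN3 N (le_trans (le_trans (le_max_right _ _) (le_max_right _ _)) hN)
  have hsub : (Icc 1 N).filter (fun n => ε < |(wf (wf n) : ℝ) / n - Xn z A n * Xn z A (wf n)|) ⊆
      (Icc 1 N).filter (fun n => K < DD.rcp 1 ⌊Real.log N⌋₊ (n * wf n)) ∪
        (Icc 1 N).filter (fun n => κ < DD.rcp z ⌊Real.log N⌋₊ (n * wf n)) := by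
    intro n hn
    rw [mem_filter, mem_Icc] at hn
    rw [mem_union, mem_filter, mem_filter, mem_Icc]
    by_contra hcon
    push Not at hcon
    have b1 := hcon.1 hn.1
    have b2 := hcon.2 hn.1
    have hn2 := hn.2
    rcases Nat.lt_or_ge n 2 with h2 | h2
    · have hn1 : n = 1 := by omega
      rw [hn1, wf_one, wf_zero] at hn2
      have hX : Xn z A 1 = 0 := by
        unfold Xn
        refine sum_eq_zero fun p _ => ?_
        rw [Nat.factorization_one, Finsupp.coe_zero, Pi.zero_apply, Nat.zero_min, el, if_pos rfl]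
      rw [hX] at hn2
      simp at hn2
      linarith
    have hw := Pool.Agent.H97.WIter.wf_pos h2
    have c3 := a3 n h2 hn.1.2
    have hne : n * wf n ≠ 0 := Nat.mul_ne_zero (by omega) (by omega)
    have T1 : tl 1 (n * wf n) ≤ K + 1 := by
      have := tl_split 1 ⌊Real.log N⌋₊ (n * wf n)
      linarith
    have T2 : tl z (n * wf n) ≤ 2 * κ := by
      have := tl_split z ⌊Real.log N⌋₊ (n * wf n)
      linarith
    have d1 : n ∣ n * wf n := Dvd.intro _ rfl
    have d2 : wf n ∣ n * wf n := Dvd.intro_left _ rfl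
    have g1 := (g_le (show 1 ≤ n by omega)).trans (tl_mono (z := 1) d1 hne)
    have g3 := g_Xn (show 1 ≤ n by omega) z A
    have g4 := g_Xn (show 1 ≤ wf n by omega) z A
    have g5 := tl_mono (z := z) d1 hne
    have g6 := tl_mono (z := z) d2 hne
    have g7 := (Xn_le (wf n) z A).trans (tl_mono (z := 1) d2 hne)
    have g8 := Xn_nonneg z A (wf n)
    have g9 : 0 ≤ (wf n : ℝ) / n := by positivity
    rw [ww_eq h2] at hn2
    obtain ⟨g, hg⟩ : ∃ g : ℝ, g = (wf n : ℝ) / n := ⟨_, rfl⟩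
    obtain ⟨G, hG⟩ : ∃ G : ℝ, G = (wf (wf n) : ℝ) / wf n := ⟨_, rfl⟩
    obtain ⟨X, hX⟩ : ∃ X : ℝ, X = Xn z A n := ⟨_, rfl⟩
    obtain ⟨Y, hY⟩ : ∃ Y : ℝ, Y = Xn z A (wf n) := ⟨_, rfl⟩
    rw [← hg, ← hG, ← hX, ← hY] at hn2
    rw [← hg] at g1 g9
    rw [← hg, ← hX] at g3
    rw [← hG, ← hY] at g4
    rw [← hY] at g7 g8
    have hB : 2 * κ + (z + 1) / 2 ^ A ≤ ε / (2 * (K + 1)) := by
      have e1 : 2 * (ε / (8 * (K + 1))) + ε / (4 * (K + 1)) = ε / (2 * (K + 1)) := by
        field_simp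
        norm_num
      linarith
    have h6 : |g * G - X * Y| ≤ (K + 1) * (ε / (2 * (K + 1))) + (K + 1) * (ε / (2 * (K + 1))) := by
      have e1 : g * G - X * Y = g * (G - Y) + Y * (g - X) := by ring
      rw [e1]
      refine (abs_add_le _ _).trans ?_
      rw [abs_mul, abs_mul, abs_of_nonneg g9, abs_of_nonneg g8]
      refine add_le_add (mul_le_mul (by linarith) (by linarith) (abs_nonneg _) (by linarith))
        (mul_le_mul (by linarith) (by linarith) (abs_nonneg _) (by linarith))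
    have h7 : (K + 1) * (ε / (2 * (K + 1))) + (K + 1) * (ε / (2 * (K + 1))) = ε := by
      field_simp
      norm_num
    linarith
  have h1 := (card_le_card hsub).trans (card_union_le _ _)
  have h2 : (((Icc 1 N).filter (fun n => ε < |(wf (wf n) : ℝ) / n - Xn z A n * Xn z A (wf n)|)).card : ℝ) ≤
      (((Icc 1 N).filter (fun n => K < DD.rcp 1 ⌊Real.log N⌋₊ (n * wf n))).card : ℝ) +
        (((Icc 1 N).filter (fun n => κ < DD.rcp z ⌊Real.log N⌋₊ (n * wf n))).card : ℝ) := by
    exact_mod_cast h1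
  have h3 : 16 / ((1 : ℕ) * K) = ε / 4 := by
    rw [hK]
    push_cast
    field_simp
    norm_num
  have h4 : 16 / (z * κ) ≤ ε / 4 := by
    have hz0 : (0 : ℝ) < z := by exact_mod_cast hz2
    rw [div_le_div_iff₀ (by positivity) (by norm_num)]
    rw [div_le_iff₀ (by positivity)] at hz3
    linarith
  have hN0 : (0 : ℝ) ≤ N := Nat.cast_nonneg _
  rw [h3] at a1
  have h5 : (16 / (z * κ) + 5 * δ) * N ≤ (ε / 2) * N := mul_le_mul_of_nonneg_right (by linarith) hN0
  have h6 : (ε / 4 + 5 * δ) * N ≤ (ε / 2) * N := mul_le_mul_of_nonneg_right (by linarith) hN0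
  linarith

open Classical in
theorem tight (ε : ℝ) (hε : 0 < ε) : ∃ (K : ℝ) (N0 : ℕ), ∀ N : ℕ, N0 ≤ N →
    (((Icc 1 N).filter (fun n => K * n < (wf (wf n) : ℝ))).card : ℝ) ≤ ε * N := by
  obtain ⟨K, hK⟩ : ∃ K : ℝ, K = 64 / ε := ⟨_, rfl⟩
  have hK0 : 0 < K := by rw [hK]; positivity
  obtain ⟨δ, hδ⟩ : ∃ δ : ℝ, δ = min 1 (ε / 20) := ⟨_, rfl⟩
  have hδ0 : 0 < δ := by rw [hδ]; exact lt_min one_pos (by positivity)
  have hδ1 : δ ≤ 1 := by rw [hδ]; exact min_le_left _ _
  have hδ2 : δ ≤ ε / 20 := by rw [hδ]; exact min_le_right _ _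
  obtain ⟨N1, hN1⟩ := markov δ hδ0 hδ1 1 le_rfl K hK0
  obtain ⟨N3, hN3⟩ := DD.tail_far 1 one_pos
  refine ⟨(K + 1) ^ 2, max N1 N3, fun N hN => ?_⟩
  have a1 := hN1 N (le_trans (le_max_left _ _) hN)
  have a3 := hN3 N (le_trans (le_max_right _ _) hN)
  have hsub : (Icc 1 N).filter (fun n => (K + 1) ^ 2 * n < (wf (wf n) : ℝ)) ⊆
      (Icc 1 N).filter (fun n => K < DD.rcp 1 ⌊Real.log N⌋₊ (n * wf n)) := by
    intro n hn
    rw [mem_filter, mem_Icc] at hn
    rw [mem_filter, mem_Icc]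
    refine ⟨hn.1, ?_⟩
    by_contra hcon
    push Not at hcon
    have hn2 := hn.2
    rcases Nat.lt_or_ge n 2 with h2 | h2
    · have hn1 : n = 1 := by omega
      rw [hn1, wf_one, wf_zero] at hn2
      push_cast at hn2
      nlinarith
    have hw := Pool.Agent.H97.WIter.wf_pos h2
    have c3 := a3 n h2 hn.1.2
    have hne : n * wf n ≠ 0 := Nat.mul_ne_zero (by omega) (by omega)
    have T1 : tl 1 (n * wf n) ≤ K + 1 := by
      have := tl_split 1 ⌊Real.log N⌋₊ (n * wf n)
      linarith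
    have d1 : n ∣ n * wf n := Dvd.intro _ rfl
    have d2 : wf n ∣ n * wf n := Dvd.intro_left _ rfl
    have g1 := (g_le (show 1 ≤ n by omega)).trans (tl_mono (z := 1) d1 hne)
    have g2 := (g_le (show 1 ≤ wf n by omega)).trans (tl_mono (z := 1) d2 hne)
    have g9 : 0 ≤ (wf n : ℝ) / n := by positivity
    have hn0 : (0 : ℝ) < n := by
      have : 0 < n := by omega
      exact_mod_cast this
    have h3 : (K + 1) ^ 2 < (wf (wf n) : ℝ) / n := by
      rw [lt_div_iff₀ hn0]
      exact hn2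
    rw [ww_eq h2] at h3
    have h4 : ((wf n : ℝ) / n) * ((wf (wf n) : ℝ) / wf n) ≤ (K + 1) * (K + 1) :=
      mul_le_mul (by linarith) (by linarith) (by positivity) (by linarith)
    nlinarith
  have h2 : (((Icc 1 N).filter (fun n => (K + 1) ^ 2 * n < (wf (wf n) : ℝ))).card : ℝ) ≤
      (((Icc 1 N).filter (fun n => K < DD.rcp 1 ⌊Real.log N⌋₊ (n * wf n))).card : ℝ) := by
    exact_mod_cast card_le_card hsub
  have h3 : 16 / ((1 : ℕ) * K) = ε / 4 := by
    rw [hK]
    push_cast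
    field_simp
    norm_num
  have hN0 : (0 : ℝ) ≤ N := Nat.cast_nonneg _
  rw [h3] at a1
  have h6 : (ε / 4 + 5 * δ) * N ≤ ε * N := mul_le_mul_of_nonneg_right (by linarith) hN0
  linarith

end Pool.Agent.H31.TL
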