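import Pool.Agent.H31.TL.Defs
import Pool.Agent.H91.EHA.SwK1

/-!
# TL Cls2: a periodic function over the primes

Split by the residue class modulo `e`: for `a` prime to `e` the sum of `log P` over the primes
`P ≤ x`, `P ≡ a`, is `x / φ(e) + o(x)` (`Pool.Agent.H91.EHA.psi_ap` with `B = 1`, `k = 1`, `y = x`;
`psiA x e a` minus the prime powers, `ψ - θ = O(√x log x)`: Mathlib `Chebyshev`); for `a` not prime
to `e` the primes divide `e`, total at most `log e`.
-/

set_option autoImplicit false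

namespace Pool.Agent.H31.TL

open Finset
open Pool.Agent.H91.EHA (Lam psiA swk1E swk1E_le swk1_Lam_nonneg)

private theorem cls2_nonprime {x : ℕ} (hx : 1 ≤ x) :
    ∑ n ∈ (Icc 1 x).filter (fun n => ¬ n.Prime), Lam n ≤ 2 * Real.sqrt x * Real.log x := by
  have h1 := Chebyshev.psi_sub_theta_eq_sum_not_prime (x : ℝ)
  have h2 := Chebyshev.psi_sub_theta_le (x := (x : ℝ)) (by exact_mod_cast hx)
  rw [h1, Nat.floor_natCast] at h2
  have h3 : Icc 1 x = Ioc 0 x := by
    ext n
    rw [mem_Icc, mem_Ioc]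
    omega
  rw [h3]
  exact h2

private theorem cls2_split {e : ℕ} (he : 1 ≤ e) {c : ℕ → ℂ}
    (hper : ∀ P Q : ℕ, P ≡ Q [MOD e] → c P = c Q) (x : ℕ) :
    ∑ n ∈ Icc 1 x, c n * ((Lam n : ℝ) : ℂ) = ∑ a ∈ range e, c a * ((psiA x e a : ℝ) : ℂ) := by
  rw [← Finset.sum_fiberwise_of_maps_to (s := Icc 1 x) (t := range e) (g := fun n => n % e)
    (fun n _ => mem_range.2 (Nat.mod_lt _ he))]
  refine sum_congr rfl fun a ha => ?_
  rw [psiA, Complex.ofReal_sum, mul_sum]
  have h1 : (Icc 1 x).filter (fun n => n ≡ a [MOD e]) = (Icc 1 x).filter (fun n => n % e = a) := by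
    refine filter_congr fun n _ => ?_
    rw [Nat.ModEq, Nat.mod_eq_of_lt (mem_range.1 ha)]
  rw [h1]
  refine sum_congr rfl fun n hn => ?_
  have h2 : n ≡ a [MOD e] := by
    rw [Nat.ModEq, Nat.mod_eq_of_lt (mem_range.1 ha)]
    exact (mem_filter.1 hn).2
  rw [hper n a h2]

private theorem cls2_primes (c : ℕ → ℂ) (x : ℕ) :
    ∑ P ∈ (Icc 1 x).filter Nat.Prime, c P * (Real.log P : ℂ) =
      ∑ n ∈ Icc 1 x, c n * ((Lam n : ℝ) : ℂ) -
        ∑ n ∈ (Icc 1 x).filter (fun n => ¬ n.Prime), c n * ((Lam n : ℝ) : ℂ) := by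
  rw [eq_sub_iff_add_eq, ← Finset.sum_filter_add_sum_filter_not (Icc 1 x) (fun n => n.Prime)
    (fun n => c n * ((Lam n : ℝ) : ℂ))]
  congr 1
  refine sum_congr rfl fun P hP => ?_
  rw [Lam, ArithmeticFunction.vonMangoldt_apply_prime (mem_filter.1 hP).2]

private theorem cls2_noncop {x e a : ℕ} (hx : 1 ≤ x) (he : 1 ≤ e) (ha : ¬ Nat.Coprime a e) :
    psiA x e a ≤ 2 * Real.log e * Real.log x := by
  refine le_trans ?_ (swk1E_le hx he)
  rw [psiA, swk1E]
  refine sum_le_sum_of_subset_of_nonneg ?_ fun n _ _ => swk1_Lam_nonneg n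
  intro n hn
  rw [mem_filter] at hn ⊢
  refine ⟨hn.1, fun hc => ha ?_⟩
  have h1 : Nat.gcd n e = Nat.gcd a e := hn.2.gcd_eq
  rw [Nat.Coprime, ← h1]
  exact hc

private theorem cls2_ev {e : ℕ} (he : 1 ≤ e) {ε : ℝ} (hε : 0 < ε) :
    ∀ᶠ y : ℝ in Filter.atTop, 1 ≤ y ∧ (e : ℝ) ≤ Real.log y ∧
      2 * Real.sqrt y * Real.log y + e * (y / Real.log y) + e * (2 * Real.log e * Real.log y)
        ≤ ε * y := by
  have heR : (1 : ℝ) ≤ e := by exact_mod_cast he
  have hle : 0 ≤ Real.log e := Real.log_nonneg heR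
  have h1 : ∀ᶠ y : ℝ in Filter.atTop, ‖Real.log y‖ ≤ (ε / 6) * ‖y ^ (1 / 2 : ℝ)‖ :=
    (isLittleO_log_rpow_atTop (by norm_num : (0 : ℝ) < 1 / 2)).def (by positivity)
  have h2 : ∀ᶠ y : ℝ in Filter.atTop,
      ‖Real.log y‖ ≤ (ε / (6 * e * (Real.log e + 1))) * ‖y‖ :=
    Real.isLittleO_log_id_atTop.def (by positivity)
  have h3 : ∀ᶠ y : ℝ in Filter.atTop, max (e : ℝ) (3 * e / ε) ≤ Real.log y :=
    Real.tendsto_log_atTop.eventually_ge_atTop _
  filter_upwards [h1, h2, h3, Filter.eventually_ge_atTop 1] with y h1 h2 h3 hy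
  have hy0 : 0 < y := by linarith
  have g1 : (e : ℝ) ≤ Real.log y := (le_max_left _ _).trans h3
  have g2 : 3 * e / ε ≤ Real.log y := (le_max_right _ _).trans h3
  have hl0 : 0 < Real.log y := by linarith
  refine ⟨hy, g1, ?_⟩
  rw [← Real.sqrt_eq_rpow, Real.norm_of_nonneg hl0.le, Real.norm_of_nonneg (Real.sqrt_nonneg y)] at h1
  rw [Real.norm_of_nonneg hl0.le, Real.norm_of_nonneg hy0.le] at h2
  have hs : Real.sqrt y * Real.sqrt y = y := Real.mul_self_sqrt hy0.le
  have k1 : 2 * Real.sqrt y * Real.log y ≤ ε / 3 * y := by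
    calc 2 * Real.sqrt y * Real.log y ≤ 2 * Real.sqrt y * (ε / 6 * Real.sqrt y) := by gcongr
      _ = ε / 3 * (Real.sqrt y * Real.sqrt y) := by ring
      _ = ε / 3 * y := by rw [hs]
  have k2 : e * (y / Real.log y) ≤ ε / 3 * y := by
    rw [← mul_div_assoc, div_le_iff₀ hl0]
    rw [div_le_iff₀ hε] at g2
    nlinarith
  have k3 : e * (2 * Real.log e * Real.log y) ≤ ε / 3 * y := by
    calc (e : ℝ) * (2 * Real.log e * Real.log y)
        ≤ e * (2 * (Real.log e + 1) * (ε / (6 * e * (Real.log e + 1)) * y)) := by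
          gcongr
          linarith
      _ = ε / 3 * y := by
          field_simp
          ring
  linarith

theorem cls2 (e : ℕ) (he : 1 ≤ e) (c : ℕ → ℂ) (hc : ∀ P, ‖c P‖ ≤ 1)
    (hper : ∀ P Q : ℕ, P ≡ Q [MOD e] → c P = c Q) (ε : ℝ) (hε : 0 < ε) :
    ∃ x0 : ℕ, ∀ x : ℕ, x0 ≤ x →
      ‖∑ P ∈ (Icc 1 x).filter Nat.Prime, c P * (Real.log P : ℂ) -
        (∑ a ∈ (range e).filter (fun a => Nat.Coprime a e), c a) / (e.totient : ℂ) * x‖ ≤ ε * x := by
  obtain ⟨x1, hx1⟩ := Pool.Agent.H91.EHA.psi_ap 1 1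
  obtain ⟨Y, hY⟩ := Filter.eventually_atTop.1 (cls2_ev he hε)
  refine ⟨max x1 ⌈Y⌉₊, fun x hx => ?_⟩
  obtain ⟨g1, g2, g3⟩ := hY x ((Nat.le_ceil Y).trans (by exact_mod_cast (le_max_right _ _).trans hx))
  have hx1' : x1 ≤ x := (le_max_left _ _).trans hx
  have hxN : 1 ≤ x := by exact_mod_cast g1
  have hlx : 0 < Real.log x := by
    have : (1 : ℝ) ≤ e := by exact_mod_cast he
    linarith
  have hap : ∀ a : ℕ, Nat.Coprime a e → |psiA x e a - x / (e.totient : ℝ)| ≤ x / Real.log x := by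
    intro a ha
    have := hx1 x hx1' x le_rfl e he (by rw [pow_one]; exact g2) a ha
    rwa [pow_one] at this
  rw [cls2_primes, cls2_split he hper,
    ← Finset.sum_filter_add_sum_filter_not (range e) (fun a => Nat.Coprime a e)]
  have e1 : (∑ a ∈ (range e).filter (fun a => Nat.Coprime a e), c a) / (e.totient : ℂ) * x =
      ∑ a ∈ (range e).filter (fun a => Nat.Coprime a e), c a * ((x / (e.totient : ℝ) : ℝ) : ℂ) := by
    rw [← Finset.sum_mul]
    push_cast
    ring
  rw [e1]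
  have e2 : ∀ A B C D : ℂ, A + B - C - D = (A - D) + B - C := fun A B C D => by ring
  rw [e2, ← Finset.sum_sub_distrib]
  have n1 : ‖∑ a ∈ (range e).filter (fun a => Nat.Coprime a e), (c a * ((psiA x e a : ℝ) : ℂ) -
      c a * ((x / (e.totient : ℝ) : ℝ) : ℂ))‖ ≤ e * (x / Real.log x) := by
    calc ‖∑ a ∈ (range e).filter (fun a => Nat.Coprime a e), (c a * ((psiA x e a : ℝ) : ℂ) -
        c a * ((x / (e.totient : ℝ) : ℝ) : ℂ))‖
        ≤ ∑ a ∈ (range e).filter (fun a => Nat.Coprime a e), x / Real.log x := by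
          refine norm_sum_le_of_le _ fun a ha => ?_
          rw [← mul_sub, norm_mul, ← Complex.ofReal_sub, Complex.norm_real, Real.norm_eq_abs]
          calc ‖c a‖ * |psiA x e a - x / (e.totient : ℝ)| ≤ 1 * (x / Real.log x) := by
                gcongr
                · exact hc a
                · exact hap a (mem_filter.1 ha).2
            _ = x / Real.log x := one_mul _
      _ ≤ e * (x / Real.log x) := by
          rw [sum_const, nsmul_eq_mul]
          gcongr
          exact (card_filter_le _ _).trans (card_range e).le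
  have n2 : ‖∑ a ∈ (range e).filter (fun a => ¬ Nat.Coprime a e), c a * ((psiA x e a : ℝ) : ℂ)‖
      ≤ e * (2 * Real.log e * Real.log x) := by
    have hle : 0 ≤ Real.log e := Real.log_natCast_nonneg e
    calc ‖∑ a ∈ (range e).filter (fun a => ¬ Nat.Coprime a e), c a * ((psiA x e a : ℝ) : ℂ)‖
        ≤ ∑ a ∈ (range e).filter (fun a => ¬ Nat.Coprime a e), 2 * Real.log e * Real.log x := by
          refine norm_sum_le_of_le _ fun a ha => ?_
          have h0 : 0 ≤ psiA x e a := sum_nonneg fun n _ => swk1_Lam_nonneg n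
          rw [norm_mul, Complex.norm_real, Real.norm_of_nonneg h0]
          calc ‖c a‖ * psiA x e a ≤ 1 * (2 * Real.log e * Real.log x) := by
                gcongr
                · exact hc a
                · exact cls2_noncop hxN he (mem_filter.1 ha).2
            _ = 2 * Real.log e * Real.log x := one_mul _
      _ ≤ e * (2 * Real.log e * Real.log x) := by
          rw [sum_const, nsmul_eq_mul]
          gcongr
          exact (card_filter_le _ _).trans (card_range e).le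
  have n3 : ‖∑ n ∈ (Icc 1 x).filter (fun n => ¬ n.Prime), c n * ((Lam n : ℝ) : ℂ)‖
      ≤ 2 * Real.sqrt x * Real.log x := by
    refine le_trans (norm_sum_le_of_le (f := fun n => c n * ((Lam n : ℝ) : ℂ)) _
      (n := fun n => Lam n) fun n hn => ?_) (cls2_nonprime hxN)
    rw [norm_mul, Complex.norm_real, Real.norm_of_nonneg (swk1_Lam_nonneg n)]
    exact mul_le_of_le_one_left (swk1_Lam_nonneg n) (hc n)
  refine (norm_sub_le _ _).trans ?_
  refine (add_le_add_left (norm_add_le _ _) _).trans ?_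
  linarith

end Pool.Agent.H31.TL
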