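import Pool.Agent.H31.TL.Weight
import Pool.Agent.H31.TL.Cls2

/-!
# TL Rec: `mn f - lam lm f → 0`

Fix `δ`, `y = ⌊N^δ⌋`. `weight`; for `m` with `N / m > y` (so `N / m ≥ x0` of `cls2 e c δ` for large `N`)
the inner sum is `f(m) (∑_(P ≤ N/m) c(P) log P - ∑_(P ≤ y) c(P) log P - ∑_(y < P ≤ N/m, P ∣ m) c(P) log P)`,
i.e. `f(m) lam (N / m)` up to `δ N / m + 1 + 2 y + log N` (`θ(y) ≤ 2 y`, `∑_(P ∣ m) log P ≤ log m`);
there are at most `N / y` such `m`. For the other `m` the inner sum is empty and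
`∑_(m : N / m ≤ y) N / m ≤ N (log (y + 1) + 2)`. Total error `≤ C δ N log N`, divide by `N log N`.
-/

set_option autoImplicit false

namespace Pool.Agent.H31.TL

open Finset Filter Topology
open Pool.Agent.H31.DD (yy)

private theorem rec_theta (y : ℕ) :
    ∑ P ∈ (Icc 1 y).filter Nat.Prime, Real.log P ≤ 2 * y := by
  have h1 : Icc 1 y = Ioc 0 y := by
    ext n
    rw [mem_Icc, mem_Ioc]
    omega
  have h2 : ∑ P ∈ (Icc 1 y).filter Nat.Prime, Real.log P = Chebyshev.theta (y : ℝ) := by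
    rw [Chebyshev.theta, Nat.floor_natCast, h1]
  have h3 := Chebyshev.theta_le_log4_mul_x (x := (y : ℝ)) (Nat.cast_nonneg y)
  have h4 : Real.log 4 ≤ 2 := by
    have h5 : Real.log 4 = 2 * Real.log 2 := by
      rw [show (4 : ℝ) = 2 ^ 2 by norm_num, Real.log_pow]
      norm_num
    have := Real.log_two_lt_d9
    rw [h5]
    linarith
  rw [h2]
  exact h3.trans (mul_le_mul_of_nonneg_right h4 (Nat.cast_nonneg y))

private theorem rec_div {m : ℕ} (hm : 1 ≤ m) (x y : ℕ) :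
    ∑ P ∈ (Ioc y x).filter (fun P => P.Prime ∧ P ∣ m), Real.log P ≤ Real.log m := by
  calc ∑ P ∈ (Ioc y x).filter (fun P => P.Prime ∧ P ∣ m), Real.log P
      ≤ ∑ P ∈ m.primeFactors, Real.log P := by
        refine sum_le_sum_of_subset_of_nonneg ?_ fun P _ _ => Real.log_natCast_nonneg P
        intro P hP
        rw [mem_filter] at hP
        rw [Nat.mem_primeFactors]
        exact ⟨hP.2.1, hP.2.2, by omega⟩
    _ = Real.log (∏ P ∈ m.primeFactors, (P : ℝ)) := by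
        rw [Real.log_prod]
        intro P hP
        have := (Nat.prime_of_mem_primeFactors hP).pos
        positivity
    _ ≤ Real.log m := by
        apply Real.log_le_log
        · exact prod_pos fun P hP => by exact_mod_cast (Nat.prime_of_mem_primeFactors hP).pos
        · rw [← Nat.cast_prod]
          exact_mod_cast Nat.le_of_dvd hm (Nat.prod_primeFactors_dvd m)

private theorem rec_inner {f c : ℕ → ℂ} {y0 m : ℕ}
    (hmul : ∀ P : ℕ, P.Prime → ¬ P ∣ m → y0 < P → f (m * P) = f m * c P) {x y : ℕ}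
    (hy : y0 ≤ y) (hyx : y ≤ x) :
    ∑ P ∈ (Ioc y x).filter (fun P => P.Prime ∧ ¬ P ∣ m), f (m * P) * (Real.log P : ℂ) =
      f m * (∑ P ∈ (Icc 1 x).filter Nat.Prime, c P * (Real.log P : ℂ) -
        ∑ P ∈ (Icc 1 y).filter Nat.Prime, c P * (Real.log P : ℂ) -
        ∑ P ∈ (Ioc y x).filter (fun P => P.Prime ∧ P ∣ m), c P * (Real.log P : ℂ)) := by
  have e1 : ∑ P ∈ (Icc 1 x).filter Nat.Prime, c P * (Real.log P : ℂ) =
      ∑ P ∈ (Icc 1 y).filter Nat.Prime, c P * (Real.log P : ℂ) +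
        ∑ P ∈ (Ioc y x).filter Nat.Prime, c P * (Real.log P : ℂ) := by
    rw [← sum_union]
    · congr 1
      ext P
      simp only [mem_filter, mem_union, mem_Icc, mem_Ioc]
      constructor
      · rintro ⟨⟨h1, h2⟩, h3⟩
        rcases le_or_gt P y with h | h
        · exact Or.inl ⟨⟨h1, h⟩, h3⟩
        · exact Or.inr ⟨⟨h, h2⟩, h3⟩
      · rintro (⟨⟨h1, h2⟩, h3⟩ | ⟨⟨h1, h2⟩, h3⟩)
        · exact ⟨⟨h1, h2.trans hyx⟩, h3⟩
        · exact ⟨⟨by omega, h2⟩, h3⟩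
    · rw [disjoint_left]
      intro P h1 h2
      simp only [mem_filter, mem_Icc, mem_Ioc] at h1 h2
      omega
  have e2 : ∑ P ∈ (Ioc y x).filter Nat.Prime, c P * (Real.log P : ℂ) =
      ∑ P ∈ (Ioc y x).filter (fun P => P.Prime ∧ P ∣ m), c P * (Real.log P : ℂ) +
        ∑ P ∈ (Ioc y x).filter (fun P => P.Prime ∧ ¬ P ∣ m), c P * (Real.log P : ℂ) := by
    rw [← sum_filter_add_sum_filter_not ((Ioc y x).filter Nat.Prime) (fun P => P ∣ m),
      filter_filter, filter_filter]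
  rw [e1, e2]
  have e3 : ∀ A B C : ℂ, A + (B + C) - A - B = C := fun A B C => by ring
  rw [e3, mul_sum]
  refine sum_congr rfl fun P hP => ?_
  rw [mem_filter, mem_Ioc] at hP
  rw [hmul P hP.2.1 hP.2.2 (by omega), mul_assoc]

private theorem rec_est {f c : ℕ → ℂ} (hf : ∀ n, ‖f n‖ ≤ 1) (hc : ∀ P, ‖c P‖ ≤ 1) {y0 : ℕ}
    (hmul : ∀ m P : ℕ, 1 ≤ m → P.Prime → ¬ P ∣ m → y0 < P → f (m * P) = f m * c P)
    {lam : ℂ} {δ : ℝ} (hδ : 0 ≤ δ) {x0 : ℕ}
    (hx0 : ∀ x : ℕ, x0 ≤ x →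
      ‖∑ P ∈ (Icc 1 x).filter Nat.Prime, c P * (Real.log P : ℂ) - lam * x‖ ≤ δ * x)
    {N m y : ℕ} (hm : 1 ≤ m) (hmN : m ≤ N) (hy : y0 ≤ y) (hyx0 : x0 ≤ y) :
    ‖∑ P ∈ (Ioc y (N / m)).filter (fun P => P.Prime ∧ ¬ P ∣ m), f (m * P) * (Real.log P : ℂ) -
      lam * N * (f m / m)‖ ≤
      if y < N / m then δ * ((N : ℝ) / m) + (2 * y + Real.log N + ‖lam‖)
        else ‖lam‖ * ((N : ℝ) / m) := by
  have hm0 : (0 : ℝ) < m := by exact_mod_cast hm
  have hmc : (m : ℂ) ≠ 0 := by exact_mod_cast (by omega : m ≠ 0)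
  have hq0 : (0 : ℝ) ≤ (N : ℝ) / m := by positivity
  by_cases h : y < N / m
  · rw [if_pos h, rec_inner (hmul m · hm) hy h.le]
    set x : ℕ := N / m with hx
    set S1 := ∑ P ∈ (Icc 1 x).filter Nat.Prime, c P * (Real.log P : ℂ) with hS1
    set S2 := ∑ P ∈ (Icc 1 y).filter Nat.Prime, c P * (Real.log P : ℂ) with hS2
    set S3 := ∑ P ∈ (Ioc y x).filter (fun P => P.Prime ∧ P ∣ m), c P * (Real.log P : ℂ) with hS3
    have e1 : f m * (S1 - S2 - S3) - lam * N * (f m / m) =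
        f m * ((S1 - lam * x) - S2 - S3 + lam * ((((x : ℝ) - (N : ℝ) / m : ℝ)) : ℂ)) := by
      push_cast
      field_simp
      ring
    have b1 : ‖S1 - lam * x‖ ≤ δ * ((N : ℝ) / m) :=
      (hx0 x (by omega)).trans (mul_le_mul_of_nonneg_left Nat.cast_div_le hδ)
    have b2 : ‖S2‖ ≤ 2 * y := by
      refine le_trans (norm_sum_le_of_le (f := fun P => c P * (Real.log P : ℂ)) _
        (n := fun P => Real.log P) fun P hP => ?_) (rec_theta y)
      rw [norm_mul, Complex.norm_real, Real.norm_of_nonneg (Real.log_natCast_nonneg P)]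
      exact mul_le_of_le_one_left (Real.log_natCast_nonneg P) (hc P)
    have b3 : ‖S3‖ ≤ Real.log N := by
      refine le_trans (norm_sum_le_of_le (f := fun P => c P * (Real.log P : ℂ)) _
        (n := fun P => Real.log P) fun P hP => ?_)
        ((rec_div hm x y).trans (Real.log_le_log hm0 (by exact_mod_cast hmN)))
      rw [norm_mul, Complex.norm_real, Real.norm_of_nonneg (Real.log_natCast_nonneg P)]
      exact mul_le_of_le_one_left (Real.log_natCast_nonneg P) (hc P)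
    have b4 : ‖lam * ((((x : ℝ) - (N : ℝ) / m : ℝ)) : ℂ)‖ ≤ ‖lam‖ := by
      rw [norm_mul, Complex.norm_real, Real.norm_eq_abs]
      refine mul_le_of_le_one_right (norm_nonneg _) ?_
      have c1 : (x : ℝ) ≤ (N : ℝ) / m := Nat.cast_div_le
      have c2 : (N : ℝ) / m ≤ x + 1 := by
        rw [div_le_iff₀ hm0]
        have : N < m * (N / m + 1) := Nat.lt_mul_div_succ N hm
        have h3 : (N : ℝ) < m * ((N / m : ℕ) + 1) := by exact_mod_cast this
        rw [hx]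
        linarith
      rw [abs_le]
      constructor <;> linarith
    rw [e1, norm_mul]
    refine (mul_le_of_le_one_left (norm_nonneg _) (hf m)).trans ?_
    refine (norm_add_le _ _).trans ?_
    have d1 := norm_sub_le (S1 - lam * x - S2) S3
    have d2 := norm_sub_le (S1 - lam * x) S2
    linarith
  · rw [if_neg h]
    have e0 : Ioc y (N / m) = ∅ := Ioc_eq_empty_of_le (not_lt.1 h)
    rw [e0, filter_empty, sum_empty, zero_sub, norm_neg, norm_mul, norm_mul, norm_div,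
      Complex.norm_natCast, Complex.norm_natCast, mul_assoc]
    refine mul_le_mul_of_nonneg_left ?_ (norm_nonneg _)
    rw [mul_div_assoc']
    refine div_le_div_of_nonneg_right ?_ hm0.le
    exact mul_le_of_le_one_right (Nat.cast_nonneg N) (hf m)

private theorem rec_harm (n : ℕ) : ∑ m ∈ Icc 1 n, (1 : ℝ) / m ≤ 1 + Real.log n ∧
    Real.log ((n : ℝ) + 1) ≤ ∑ m ∈ Icc 1 n, (1 : ℝ) / m := by
  have h1 : ((harmonic n : ℚ) : ℝ) = ∑ m ∈ Icc 1 n, (1 : ℝ) / m := by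
    rw [harmonic_eq_sum_Icc]
    push_cast
    exact sum_congr rfl fun m _ => (one_div _).symm
  rw [← h1]
  refine ⟨harmonic_le_one_add_log n, ?_⟩
  have := log_add_one_le_harmonic n
  push_cast at this
  exact this

private theorem rec_sum {N y : ℕ} (hN : 1 ≤ N) {δ B L : ℝ} (hδ : 0 ≤ δ) (hB : 0 ≤ B) (hL : 0 ≤ L) :
    ∑ m ∈ Icc 1 N, (if y < N / m then δ * ((N : ℝ) / m) + B else L * ((N : ℝ) / m)) ≤
      δ * N * (1 + Real.log N) + N / ((y : ℝ) + 1) * B + L * N * (1 + Real.log ((y : ℝ) + 1)) := by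
  obtain ⟨K, hK⟩ : ∃ K : ℕ, K = N / (y + 1) := ⟨_, rfl⟩
  have hN0 : (0 : ℝ) < N := by exact_mod_cast hN
  have hKN : K ≤ N := hK ▸ Nat.div_le_self _ _
  have h0 : Icc 1 N = Icc 1 K ∪ Ioc K N := by
    ext m
    simp only [mem_union, mem_Icc, mem_Ioc]
    omega
  have hd : Disjoint (Icc 1 K) (Ioc K N) := by
    rw [disjoint_left]
    intro m h1 h2
    simp only [mem_Icc, mem_Ioc] at h1 h2
    omega
  have hiff : ∀ m, 1 ≤ m → (y < N / m ↔ m ≤ K) := by
    intro m hm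
    rw [hK, Nat.le_div_iff_mul_le (Nat.succ_pos y), ← Nat.succ_le_iff, Nat.le_div_iff_mul_le hm,
      mul_comm, Nat.succ_eq_add_one]
  have e1 : ∑ m ∈ Icc 1 K, (if y < N / m then δ * ((N : ℝ) / m) + B else L * ((N : ℝ) / m)) =
      δ * N * ∑ m ∈ Icc 1 K, (1 : ℝ) / m + K * B := by
    rw [mul_sum]
    have : (K : ℝ) * B = ∑ m ∈ Icc 1 K, B := by
      rw [sum_const, Nat.card_Icc, nsmul_eq_mul, Nat.add_sub_cancel]
    rw [this, ← sum_add_distrib]
    refine sum_congr rfl fun m hm => ?_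
    rw [mem_Icc] at hm
    rw [if_pos ((hiff m hm.1).2 hm.2)]
    ring
  have e2 : ∑ m ∈ Ioc K N, (if y < N / m then δ * ((N : ℝ) / m) + B else L * ((N : ℝ) / m)) =
      L * N * ∑ m ∈ Ioc K N, (1 : ℝ) / m := by
    rw [mul_sum]
    refine sum_congr rfl fun m hm => ?_
    rw [mem_Ioc] at hm
    rw [if_neg (by rw [hiff m (by omega)]; omega)]
    ring
  have e3 : ∑ m ∈ Icc 1 N, (1 : ℝ) / m = ∑ m ∈ Icc 1 K, (1 : ℝ) / m + ∑ m ∈ Ioc K N, (1 : ℝ) / m := by
    rw [h0, sum_union hd]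
  have hH1 := (rec_harm N).1
  have hH2 := (rec_harm K).2
  have hnn : 0 ≤ ∑ m ∈ Ioc K N, (1 : ℝ) / m := sum_nonneg fun m _ => by positivity
  have hKy : (N : ℝ) ≤ ((K : ℝ) + 1) * ((y : ℝ) + 1) := by
    have := Nat.lt_mul_div_succ N (Nat.succ_pos y)
    have h3 : (N : ℝ) < ((y + 1 : ℕ) : ℝ) * ((K : ℕ) + 1) := by
      rw [hK]
      exact_mod_cast this
    push_cast at h3
    linarith
  have hlog : Real.log N ≤ Real.log ((K : ℝ) + 1) + Real.log ((y : ℝ) + 1) := by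
    rw [← Real.log_mul (by positivity) (by positivity)]
    exact Real.log_le_log hN0 hKy
  have hKB : (K : ℝ) * B ≤ N / ((y : ℝ) + 1) * B := by
    refine mul_le_mul_of_nonneg_right ?_ hB
    rw [hK]
    refine Nat.cast_div_le.trans ?_
    push_cast
    exact le_rfl
  rw [h0, sum_union hd, e1, e2]
  have f1 : δ * N * ∑ m ∈ Icc 1 K, (1 : ℝ) / m ≤ δ * N * (1 + Real.log N) := by
    refine mul_le_mul_of_nonneg_left ?_ (by positivity)
    linarith
  have f2 : L * N * ∑ m ∈ Ioc K N, (1 : ℝ) / m ≤ L * N * (1 + Real.log ((y : ℝ) + 1)) := by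
    refine mul_le_mul_of_nonneg_left ?_ (by positivity)
    linarith
  linarith

theorem rec_tendsto (f : ℕ → ℂ) (hf : ∀ n, ‖f n‖ ≤ 1) (e : ℕ) (he : 1 ≤ e) (c : ℕ → ℂ)
    (hc : ∀ P, ‖c P‖ ≤ 1) (hper : ∀ P Q : ℕ, P ≡ Q [MOD e] → c P = c Q) (y0 : ℕ)
    (hmul : ∀ m P : ℕ, 1 ≤ m → P.Prime → ¬ P ∣ m → y0 < P → f (m * P) = f m * c P) :
    Tendsto (fun N : ℕ => mn f N -
      (∑ a ∈ (range e).filter (fun a => Nat.Coprime a e), c a) / (e.totient : ℂ) * lm f N)
      atTop (𝓝 0) := by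
  set lam : ℂ := (∑ a ∈ (range e).filter (fun a => Nat.Coprime a e), c a) / (e.totient : ℂ)
    with hlam
  set L : ℝ := ‖lam‖ with hL
  have hL0 : 0 ≤ L := norm_nonneg _
  rw [Metric.tendsto_atTop]
  intro ε hε
  -- choice of δ
  obtain ⟨δ, hδ0, hδ1, hδε⟩ : ∃ δ : ℝ, 0 < δ ∧ δ ≤ 1 ∧ (8 + 2 * L) * δ < ε := by
    refine ⟨min 1 (ε / (2 * (8 + 2 * L))), lt_min one_pos (by positivity), min_le_left _ _, ?_⟩
    calc (8 + 2 * L) * min 1 (ε / (2 * (8 + 2 * L)))
        ≤ (8 + 2 * L) * (ε / (2 * (8 + 2 * L))) :=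
          mul_le_mul_of_nonneg_left (min_le_right _ _) (by positivity)
      _ = ε / 2 := by field_simp
      _ < ε := by linarith
  obtain ⟨x0, hx0⟩ := cls2 e he c hc hper δ hδ0
  obtain ⟨N0, hN0⟩ := weight δ hδ0 hδ1
  have t1 : Tendsto (fun N : ℕ => Real.log (N : ℝ)) atTop atTop :=
    Real.tendsto_log_atTop.comp tendsto_natCast_atTop_atTop
  have t2 : Tendsto (fun N : ℕ => (N : ℝ) ^ δ) atTop atTop :=
    (tendsto_rpow_atTop hδ0).comp tendsto_natCast_atTop_atTop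
  obtain ⟨N1, hN1⟩ := (((t1.eventually_ge_atTop ((3 + L + 2 * L) / δ + 1)).and
    (t2.eventually_ge_atTop ((x0 : ℝ) + y0 + 1 / δ + 1))).and
    (eventually_ge_atTop (max N0 2))).exists_forall_of_atTop
  refine ⟨N1, fun N hN => ?_⟩
  obtain ⟨⟨g1, g2⟩, g3⟩ := hN1 N hN
  have hNN0 : N0 ≤ N := (le_max_left _ _).trans g3
  have hN2 : 2 ≤ N := (le_max_right _ _).trans g3
  have hNpos : (0 : ℝ) < N := by exact_mod_cast (by omega : 0 < N)
  set y : ℕ := yy δ N with hy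
  have hyfl : (N : ℝ) ^ δ < (y : ℝ) + 1 := Nat.lt_floor_add_one _
  have hyle : (y : ℝ) ≤ (N : ℝ) ^ δ := Nat.floor_le (by positivity)
  have hid : 0 < 1 / δ := by positivity
  have hyx0 : x0 ≤ y := by
    refine Nat.le_floor ?_
    have : (0 : ℝ) ≤ y0 := Nat.cast_nonneg _
    linarith
  have hyy0 : y0 ≤ y := by
    refine Nat.le_floor ?_
    have : (0 : ℝ) ≤ x0 := Nat.cast_nonneg _
    linarith
  have hyδ : 1 / δ ≤ (y : ℝ) + 1 := by
    have h1 : (0 : ℝ) ≤ x0 := Nat.cast_nonneg _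
    have h2 : (0 : ℝ) ≤ y0 := Nat.cast_nonneg _
    linarith
  have hy1 : (1 : ℝ) ≤ (N : ℝ) ^ δ := by
    have h1 : (0 : ℝ) ≤ x0 := Nat.cast_nonneg _
    have h2 : (0 : ℝ) ≤ y0 := Nat.cast_nonneg _
    linarith
  have hlN : 0 < Real.log N := Real.log_pos (by exact_mod_cast (by omega : 1 < N))
  have hlogy : Real.log ((y : ℝ) + 1) ≤ 1 + δ * Real.log N := by
    have h1 : (y : ℝ) + 1 ≤ 2 * (N : ℝ) ^ δ := by linarith
    have h2 : Real.log ((y : ℝ) + 1) ≤ Real.log (2 * (N : ℝ) ^ δ) :=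
      Real.log_le_log (by positivity) h1
    rw [Real.log_mul (by norm_num) (by positivity), Real.log_rpow hNpos] at h2
    have := Real.log_two_lt_d9
    linarith
  have hw := hN0 N hNN0 f hf
  rw [← hy] at hw
  set W : ℂ := ∑ m ∈ Icc 1 N, ∑ P ∈ (Ioc y (N / m)).filter (fun P => P.Prime ∧ ¬ P ∣ m),
    f (m * P) * (Real.log P : ℂ) with hW
  -- the main estimate
  have hmain : ‖W - lam * N * ∑ m ∈ Icc 1 N, f m / m‖ ≤
      δ * N * (1 + Real.log N) + N / ((y : ℝ) + 1) * (2 * y + Real.log N + L) +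
        L * N * (1 + Real.log ((y : ℝ) + 1)) := by
    rw [hW, mul_sum, ← sum_sub_distrib]
    refine le_trans (norm_sum_le_of_le _ fun m hm => ?_)
      (rec_sum (by omega) hδ0.le (B := 2 * y + Real.log N + L) (by positivity) hL0)
    rw [mem_Icc] at hm
    exact rec_est hf hc hmul hδ0.le hx0 hm.1 hm.2 hyy0 hyx0
  have hm2 : N / ((y : ℝ) + 1) * (2 * y + Real.log N + L) ≤
      2 * N + δ * N * (Real.log N + L) := by
    have hy0' : (0 : ℝ) < (y : ℝ) + 1 := by positivity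
    have q1 : N / ((y : ℝ) + 1) ≤ δ * N := by
      rw [div_le_iff₀ hy0']
      have : 1 ≤ δ * ((y : ℝ) + 1) := by
        rw [div_le_iff₀ hδ0] at hyδ
        linarith
      nlinarith
    have q2 : N / ((y : ℝ) + 1) * (2 * y) ≤ 2 * N := by
      rw [div_mul_eq_mul_div, div_le_iff₀ hy0']
      nlinarith
    have q3 : N / ((y : ℝ) + 1) * (Real.log N + L) ≤ δ * N * (Real.log N + L) :=
      mul_le_mul_of_nonneg_right q1 (by positivity)
    nlinarith
  have hm3 : L * N * (1 + Real.log ((y : ℝ) + 1)) ≤ L * N * (2 + δ * Real.log N) :=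
    mul_le_mul_of_nonneg_left (by linarith) (by positivity)
  have hg1 : 3 + L + 2 * L ≤ δ * Real.log N := by
    have : (3 + L + 2 * L) / δ ≤ Real.log N := by linarith
    rw [div_le_iff₀ hδ0] at this
    linarith
  have htot : ‖(Real.log N : ℂ) * ∑ n ∈ Icc 1 N, f n - lam * N * ∑ m ∈ Icc 1 N, f m / m‖ ≤
      (8 + 2 * L) * δ * (N * Real.log N) := by
    have h1 := norm_sub_le_norm_sub_add_norm_sub
      ((Real.log N : ℂ) * ∑ n ∈ Icc 1 N, f n) W (lam * N * ∑ m ∈ Icc 1 N, f m / m)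
    have h2 : (3 + L + 2 * L) * N ≤ δ * Real.log N * N :=
      mul_le_mul_of_nonneg_right hg1 hNpos.le
    have h3 : δ * N * (1 + L) ≤ N * (1 + L) := by
      have : δ * (N * (1 + L)) ≤ 1 * (N * (1 + L)) :=
        mul_le_mul_of_nonneg_right hδ1 (by positivity)
      linarith
    have h4 : 0 ≤ (1 + L) * (δ * (N * Real.log N)) := by positivity
    nlinarith
  have hden : (0 : ℝ) < N * Real.log N := by positivity
  have hfin : mn f N - lam * lm f N =
      ((Real.log N : ℂ) * ∑ n ∈ Icc 1 N, f n - lam * N * ∑ m ∈ Icc 1 N, f m / m) /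
        ((N * Real.log N : ℝ) : ℂ) := by
    have h1 : (N : ℂ) ≠ 0 := by exact_mod_cast hNpos.ne'
    have h2 : (Real.log N : ℂ) ≠ 0 := by exact_mod_cast hlN.ne'
    unfold mn lm
    rw [Complex.ofReal_mul, Complex.ofReal_natCast]
    field_simp
  rw [dist_zero_right, hfin, norm_div, Complex.norm_real, Real.norm_of_nonneg hden.le,
    div_lt_iff₀ hden]
  refine htot.trans_lt ?_
  exact mul_lt_mul_of_pos_right hδε hden

end Pool.Agent.H31.TL
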