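import Pool.Agent.H31.TL.Taub
import Pool.Agent.H31.TL.Rec
import Pool.Agent.H31.DD.Arith

/-!
# TL Chr: the means of the characters

`c(P) = e(h P⁻¹)` (`ZMod.stdAddChar (h * (P : ZMod e)⁻¹)`).
* `ch_mul`: for a prime `P > max d e` not dividing `m`: `d ∣ m P ↔ d ∣ m`, `m P` prime to `e` iff `m` is,
  and `rr e (m P) = rr e m + P⁻¹` (`DD.wf_mul_prime`: `w(m P) = w(m) P + m`).
* `lam_real`: the mean of `c` over the units is real (`a ↦ e - a`), of absolute value at most 1, and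
  not 1 when `h ≠ 0` (all terms have real part at most 1, and the term `a = 1` is not 1 because
  `ZMod.stdAddChar` is injective, `ZMod.injective_stdAddChar`).
* `ch_tendsto`: `rec_tendsto` and `taub`.
-/

set_option autoImplicit false

namespace Pool.Agent.H31.TL

open Finset Filter Topology

private theorem Chr_norm {e : ℕ} [NeZero e] (x : ZMod e) :
    ‖(ZMod.stdAddChar x : ℂ)‖ = 1 := AddChar.norm_apply _ x

private theorem Chr_inv_unique {e : ℕ} (a b : ZMod e) (h1 : a * a⁻¹ = 1) (h2 : a * b = 1) :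
    a⁻¹ = b := by
  linear_combination b * h1 - a⁻¹ * h2

theorem ch_norm_le (e d : ℕ) [NeZero e] (h : ZMod e) (n : ℕ) : ‖ch e d h n‖ ≤ 1 := by
  unfold ch
  split_ifs
  · exact (Chr_norm _).le
  · simp

theorem ch_mul (e d : ℕ) [NeZero e] (hd : 1 ≤ d) (h : ZMod e) (m P : ℕ) (hm : 1 ≤ m)
    (hP : P.Prime) (hPm : ¬ P ∣ m) (hbig : max d e < P) :
    ch e d h (m * P) = ch e d h m * ZMod.stdAddChar (h * (P : ZMod e)⁻¹) := by
  have he0 : 0 < e := Nat.pos_of_ne_zero (NeZero.ne e)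
  have hdP : d < P := lt_of_le_of_lt (le_max_left d e) hbig
  have heP : e < P := lt_of_le_of_lt (le_max_right d e) hbig
  have hcd : Nat.Coprime d P :=
    ((Nat.Prime.coprime_iff_not_dvd hP).2 (Nat.not_dvd_of_pos_of_lt (by omega) hdP)).symm
  have hce : Nat.Coprime P e :=
    (Nat.Prime.coprime_iff_not_dvd hP).2 (Nat.not_dvd_of_pos_of_lt he0 heP)
  have h1 : d ∣ m * P ↔ d ∣ m := hcd.dvd_mul_right
  have h2 : Nat.Coprime (m * P) e ↔ Nat.Coprime m e := by
    rw [Nat.coprime_mul_iff_left]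
    exact ⟨fun hh => hh.1, fun hh => ⟨hh, hce⟩⟩
  unfold ch
  by_cases hc : d ∣ m ∧ Nat.Coprime m e
  · rw [if_pos ⟨h1.2 hc.1, h2.2 hc.2⟩, if_pos hc, ← AddChar.map_add_eq_mul]
    congr 1
    rw [← mul_add]
    congr 1
    unfold rr
    rw [DD.wf_mul_prime m P hm hP hPm]
    have hu : (m : ZMod e) * (m : ZMod e)⁻¹ = 1 := ZMod.coe_mul_inv_eq_one m hc.2
    have hv : (P : ZMod e) * (P : ZMod e)⁻¹ = 1 := ZMod.coe_mul_inv_eq_one P hce
    have hw : ((m * P : ℕ) : ZMod e) * ((m * P : ℕ) : ZMod e)⁻¹ = 1 :=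
      ZMod.coe_mul_inv_eq_one (m * P) (h2.2 hc.2)
    have hw2 : ((m * P : ℕ) : ZMod e)⁻¹ = (m : ZMod e)⁻¹ * (P : ZMod e)⁻¹ := by
      refine Chr_inv_unique _ _ hw ?_
      push_cast
      linear_combination (P : ZMod e) * (P : ZMod e)⁻¹ * hu + hv
    rw [hw2]
    push_cast
    linear_combination (Pool.Agent.H97.WIter.wf m : ZMod e) * (m : ZMod e)⁻¹ * hv +
      (P : ZMod e)⁻¹ * hu
  · rw [if_neg (fun hh => hc ⟨h1.1 hh.1, h2.1 hh.2⟩), if_neg hc, zero_mul]

theorem lam_real (e : ℕ) [NeZero e] (h : ZMod e) (hh : h ≠ 0) : ∃ lam : ℝ, |lam| ≤ 1 ∧ lam ≠ 1 ∧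
    (∑ a ∈ (range e).filter (fun a => Nat.Coprime a e),
      (ZMod.stdAddChar (h * ((a : ℕ) : ZMod e)⁻¹) : ℂ)) / (e.totient : ℂ) = (lam : ℂ) := by
  have he0 : 0 < e := Nat.pos_of_ne_zero (NeZero.ne e)
  have he1 : 1 < e := by
    rcases Nat.lt_or_ge 1 e with h1 | h1
    · exact h1
    · exfalso
      have h2 : e = 1 := by omega
      subst h2
      exact hh (Subsingleton.elim _ _)
  set A : Finset ℕ := (range e).filter (fun a => Nat.Coprime a e) with hA
  have hmem : ∀ a ∈ A, 0 < a ∧ a < e ∧ Nat.Coprime a e := by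
    intro a ha
    rw [hA, mem_filter, mem_range] at ha
    refine ⟨?_, ha.1, ha.2⟩
    rcases Nat.eq_zero_or_pos a with h1 | h1
    · exfalso
      rw [h1, Nat.coprime_zero_left] at ha
      omega
    · exact h1
  have hcard : A.card = e.totient := by
    rw [Nat.totient_eq_card_coprime, hA]
    congr 1
    refine Finset.filter_congr fun a _ => ?_
    exact Nat.coprime_comm
  have hphi : (0 : ℝ) < (e.totient : ℝ) := by
    exact_mod_cast Nat.totient_pos.2 he0
  set S : ℂ := ∑ a ∈ A, (ZMod.stdAddChar (h * ((a : ℕ) : ZMod e)⁻¹) : ℂ) with hS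
  -- the sum is real
  have hconj : (starRingEnd ℂ) S = S := by
    rw [hS, map_sum]
    refine Finset.sum_nbij' (fun a => e - a) (fun a => e - a) ?_ ?_ ?_ ?_ ?_
    · intro a ha
      obtain ⟨h1, h2, h3⟩ := hmem a ha
      rw [hA, mem_filter, mem_range]
      refine ⟨by omega, ?_⟩
      exact (Nat.coprime_self_sub_left h2.le).2 h3
    · intro a ha
      obtain ⟨h1, h2, h3⟩ := hmem a ha
      rw [hA, mem_filter, mem_range]
      refine ⟨by omega, ?_⟩
      exact (Nat.coprime_self_sub_left h2.le).2 h3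
    · intro a ha
      obtain ⟨h1, h2, h3⟩ := hmem a ha
      show e - (e - a) = a
      omega
    · intro a ha
      obtain ⟨h1, h2, h3⟩ := hmem a ha
      show e - (e - a) = a
      omega
    · intro a ha
      obtain ⟨h1, h2, h3⟩ := hmem a ha
      rw [← AddChar.map_neg_eq_conj]
      congr 1
      have h4 : ((e - a : ℕ) : ZMod e) = -(a : ZMod e) := by
        rw [Nat.cast_sub h2.le, ZMod.natCast_self, zero_sub]
      have h5 : (a : ZMod e) * (a : ZMod e)⁻¹ = 1 := ZMod.coe_mul_inv_eq_one a h3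
      have h6 : ((e - a : ℕ) : ZMod e) * ((e - a : ℕ) : ZMod e)⁻¹ = 1 :=
        ZMod.coe_mul_inv_eq_one (e - a) ((Nat.coprime_self_sub_left h2.le).2 h3)
      have h7 : ((e - a : ℕ) : ZMod e)⁻¹ = -(a : ZMod e)⁻¹ := by
        refine Chr_inv_unique _ _ h6 ?_
        rw [h4]
        linear_combination h5
      rw [h7]
      ring
  obtain ⟨s, hs⟩ := Complex.conj_eq_iff_real.1 hconj
  have hnorm : ‖S‖ ≤ (e.totient : ℝ) := by
    rw [← hcard, hS]
    refine (norm_sum_le _ _).trans ?_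
    rw [Finset.sum_congr rfl fun a _ => Chr_norm (h * ((a : ℕ) : ZMod e)⁻¹)]
    simp
  have hsabs : |s| ≤ (e.totient : ℝ) := by
    rw [hs, Complex.norm_real, Real.norm_eq_abs] at hnorm
    exact hnorm
  refine ⟨s / e.totient, ?_, ?_, ?_⟩
  · rw [abs_div, abs_of_pos hphi, div_le_one hphi]
    exact hsabs
  · intro h1
    rw [div_eq_one_iff_eq hphi.ne'] at h1
    -- all the terms have real part one
    have h2 : ∑ a ∈ A, (1 - (ZMod.stdAddChar (h * ((a : ℕ) : ZMod e)⁻¹) : ℂ).re) = 0 := by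
      rw [Finset.sum_sub_distrib, ← Complex.re_sum, ← hS, hs, Complex.ofReal_re, h1]
      simp [hcard]
    have h3 : ∀ a ∈ A, 0 ≤ 1 - (ZMod.stdAddChar (h * ((a : ℕ) : ZMod e)⁻¹) : ℂ).re := by
      intro a _
      have h4 := Complex.re_le_norm (ZMod.stdAddChar (h * ((a : ℕ) : ZMod e)⁻¹) : ℂ)
      rw [Chr_norm] at h4
      linarith
    have h4 := (Finset.sum_eq_zero_iff_of_nonneg h3).1 h2 1 (by
      rw [hA, mem_filter, mem_range]
      exact ⟨he1, Nat.coprime_one_left e⟩)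
    have h5 : (ZMod.stdAddChar (h * ((1 : ℕ) : ZMod e)⁻¹) : ℂ).re = 1 := by linarith
    rw [Nat.cast_one, ZMod.inv_one, mul_one] at h5
    have h6 : (ZMod.stdAddChar h : ℂ) = 1 := by
      have h7 := Chr_norm h
      have h8 : (ZMod.stdAddChar h : ℂ).im = 0 := by
        have h9 := Complex.sq_norm (ZMod.stdAddChar h : ℂ)
        rw [h7, Complex.normSq_apply, h5] at h9
        nlinarith
      exact Complex.ext h5 h8
    apply hh
    apply ZMod.injective_stdAddChar (N := e)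
    rw [h6, AddChar.map_zero_eq_one]
  · rw [hs]
    push_cast
    rfl

theorem ch_tendsto (e d : ℕ) [NeZero e] (hd : 1 ≤ d) (h : ZMod e) (hh : h ≠ 0) :
    Tendsto (mn (ch e d h)) atTop (𝓝 0) := by
  have he0 : 1 ≤ e := Nat.pos_of_ne_zero (NeZero.ne e)
  obtain ⟨lam, h1, h2, h3⟩ := lam_real e h hh
  refine taub _ (ch_norm_le e d h) lam h1 h2 ?_
  have h4 := rec_tendsto (ch e d h) (ch_norm_le e d h) e he0
    (fun P : ℕ => (ZMod.stdAddChar (h * (P : ZMod e)⁻¹) : ℂ)) (fun P => (Chr_norm _).le)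
    (fun P Q hPQ => by
      have h5 : (P : ZMod e) = (Q : ZMod e) := (ZMod.natCast_eq_natCast_iff P Q e).2 hPQ
      show (ZMod.stdAddChar (h * (P : ZMod e)⁻¹) : ℂ) = ZMod.stdAddChar (h * (Q : ZMod e)⁻¹)
      rw [h5]) (max d e)
    (fun m P hm hP hPm hb => ch_mul e d hd h m P hm hP hPm hb)
  rw [h3] at h4
  exact h4

end Pool.Agent.H31.TL
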