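import Mathlib

/-!
# TL Conc: finite product measures

`i : ι` finite, `α` finite, weights `μ i a ≥ 0` with sum one for every `i`.
* `pm_total`: the weights `∏ i, μ i (s i)` sum to 1 (`Finset.prod_univ_sum`, `Fintype.piFinset_univ`).
* `pm_box`: the patterns with `s i ∈ B i` for all `i ∈ J` have weight at most `∏_(i ∈ J) ∑_(a ∈ B i) μ i a`.
* `pm_markov`: Markov for the sum of the `r i` over the `i` with `s i ≠ a0` (its mean is
  `∑ r i (1 - μ i a0)`).
* `pm_exch` (exchange): `φ_i s = Function.update s i a1`. If the images of the `s ∈ S`, `s i = a0`, under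
  the `φ_i`, `i ∈ J`, are disjoint for different `i`, then `∑_(i ∈ J) r i (weight of S_i) ≤ 1`
  (`weight (φ_i s) μ i a0 = weight s μ i a1`, so `weight (φ_i s) ≥ r i weight s` as `μ i a1 ≥ r i μ i a0`; `φ_i` is
  injective on `S_i = {s ∈ S : s i = a0}`), and the left side is at least `H · weight S`.
-/

set_option autoImplicit false

namespace Pool.Agent.H31.TL

open Finset

variable {ι α : Type*} [Fintype ι] [DecidableEq ι] [Fintype α] [DecidableEq α]

theorem pm_total (μ : ι → α → ℝ) (h1 : ∀ i, ∑ a, μ i a = 1) :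
    ∑ s : ι → α, ∏ i, μ i (s i) = 1 := by
  have h := Finset.prod_univ_sum (fun _ : ι => (Finset.univ : Finset α)) (fun i a => μ i a)
  rw [Fintype.piFinset_univ] at h
  rw [← h]
  simp [h1]

open Classical in
theorem pm_box (μ : ι → α → ℝ) (h0 : ∀ i a, 0 ≤ μ i a) (h1 : ∀ i, ∑ a, μ i a = 1)
    (J : Finset ι) (B : ι → Finset α) :
    ∑ s ∈ univ.filter (fun s : ι → α => ∀ i ∈ J, s i ∈ B i), ∏ i, μ i (s i) ≤
      ∏ i ∈ J, ∑ a ∈ B i, μ i a := by
  have hset : univ.filter (fun s : ι → α => ∀ i ∈ J, s i ∈ B i) =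
      Fintype.piFinset (fun i => if i ∈ J then B i else univ) := by
    ext s
    simp only [mem_filter, mem_univ, true_and, Fintype.mem_piFinset]
    constructor
    · intro h i
      by_cases hi : i ∈ J
      · simp [hi, h i hi]
      · simp [hi]
    · intro h i hi
      have := h i
      simpa [hi] using this
  rw [hset, ← Finset.prod_univ_sum (fun i => if i ∈ J then B i else univ) (fun i a => μ i a)]
  apply le_of_eq
  rw [← Finset.prod_subset (Finset.subset_univ J)]
  · apply Finset.prod_congr rfl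
    intro i hi
    simp [hi]
  · intro i _ hi
    simp [hi, h1]

open Classical in
theorem pm_markov (μ : ι → α → ℝ) (h0 : ∀ i a, 0 ≤ μ i a) (h1 : ∀ i, ∑ a, μ i a = 1)
    (r : ι → ℝ) (hr : ∀ i, 0 ≤ r i) (a0 : α) (K : ℝ) (hK : 0 ≤ K) :
    K * ∑ s ∈ univ.filter (fun s : ι → α => K < ∑ i ∈ univ.filter (fun i => s i ≠ a0), r i),
      ∏ i, μ i (s i) ≤ ∑ i, r i * (1 - μ i a0) := by
  have hw : ∀ s : ι → α, 0 ≤ ∏ i, μ i (s i) := fun s => Finset.prod_nonneg fun i _ => h0 i (s i)
  have hR : ∀ s : ι → α, 0 ≤ ∑ i ∈ univ.filter (fun i => s i ≠ a0), r i :=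
    fun s => Finset.sum_nonneg fun i _ => hr i
  calc K * ∑ s ∈ univ.filter (fun s : ι → α => K < ∑ i ∈ univ.filter (fun i => s i ≠ a0), r i),
      ∏ i, μ i (s i)
      = ∑ s ∈ univ.filter (fun s : ι → α => K < ∑ i ∈ univ.filter (fun i => s i ≠ a0), r i),
        K * ∏ i, μ i (s i) := by rw [Finset.mul_sum]
    _ ≤ ∑ s ∈ univ.filter (fun s : ι → α => K < ∑ i ∈ univ.filter (fun i => s i ≠ a0), r i),
        (∑ i ∈ univ.filter (fun i => s i ≠ a0), r i) * ∏ i, μ i (s i) := by
        apply Finset.sum_le_sum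
        intro s hs
        exact mul_le_mul_of_nonneg_right (mem_filter.mp hs).2.le (hw s)
    _ ≤ ∑ s : ι → α, (∑ i ∈ univ.filter (fun i => s i ≠ a0), r i) * ∏ i, μ i (s i) := by
        apply Finset.sum_le_sum_of_subset_of_nonneg (Finset.filter_subset _ _)
        intro s _ _
        exact mul_nonneg (hR s) (hw s)
    _ = ∑ s : ι → α, ∑ i, (if s i ≠ a0 then r i * ∏ i, μ i (s i) else 0) := by
        apply Finset.sum_congr rfl
        intro s _
        rw [Finset.sum_filter, Finset.sum_mul]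
        apply Finset.sum_congr rfl
        intro i _
        split_ifs <;> simp
    _ = ∑ i, ∑ s : ι → α, (if s i ≠ a0 then r i * ∏ i, μ i (s i) else 0) := Finset.sum_comm
    _ ≤ ∑ i, r i * (1 - μ i a0) := by
        apply Finset.sum_le_sum
        intro i _
        rw [← Finset.sum_filter, ← Finset.mul_sum]
        apply mul_le_mul_of_nonneg_left _ (hr i)
        have hb := pm_box μ h0 h1 {i} (fun _ => univ.erase a0)
        simp only [mem_singleton, forall_eq, mem_erase, mem_univ, and_true,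
          Finset.prod_singleton] at hb
        refine hb.trans (le_of_eq ?_)
        have h2 := Finset.add_sum_erase univ (μ i) (mem_univ a0)
        rw [h1 i] at h2
        linarith

theorem pm_exch (μ : ι → α → ℝ) (h0 : ∀ i a, 0 ≤ μ i a) (h1 : ∀ i, ∑ a, μ i a = 1)
    (J : Finset ι) (a0 a1 : α) (ha : a0 ≠ a1) (r : ι → ℝ) (hr : ∀ i, 0 ≤ r i)
    (hμ : ∀ i ∈ J, r i * μ i a0 ≤ μ i a1) (S : Finset (ι → α)) (H : ℝ)
    (hH : ∀ s ∈ S, H ≤ ∑ i ∈ J.filter (fun i => s i = a0), r i)
    (hdis : ∀ i ∈ J, ∀ j ∈ J, i ≠ j → ∀ s ∈ S, ∀ t ∈ S, s i = a0 → t j = a0 →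
      Function.update s i a1 ≠ Function.update t j a1) :
    H * ∑ s ∈ S, ∏ i, μ i (s i) ≤ 1 := by
  have hw : ∀ s : ι → α, 0 ≤ ∏ i, μ i (s i) := fun s => Finset.prod_nonneg fun i _ => h0 i (s i)
  -- the key inequality `r i * weight s ≤ weight (update s i a1)`
  have hkey : ∀ i ∈ J, ∀ s : ι → α, s i = a0 →
      r i * ∏ j, μ j (s j) ≤ ∏ j, μ j (Function.update s i a1 j) := by
    intro i hi s hs
    have e1 : ∏ j, μ j (s j) = μ i a0 * ∏ j ∈ univ.erase i, μ j (s j) := by
      rw [← Finset.mul_prod_erase univ (fun j => μ j (s j)) (mem_univ i), hs]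
    have e2 : ∏ j, μ j (Function.update s i a1 j) = μ i a1 * ∏ j ∈ univ.erase i, μ j (s j) := by
      rw [← Finset.mul_prod_erase univ (fun j => μ j (Function.update s i a1 j)) (mem_univ i)]
      simp only [Function.update_self]
      congr 1
      apply Finset.prod_congr rfl
      intro j hj
      rw [Function.update_of_ne (Finset.ne_of_mem_erase hj)]
    rw [e1, e2, ← mul_assoc]
    exact mul_le_mul_of_nonneg_right (hμ i hi) (Finset.prod_nonneg fun j _ => h0 j (s j))
  calc H * ∑ s ∈ S, ∏ i, μ i (s i) = ∑ s ∈ S, H * ∏ i, μ i (s i) := by rw [Finset.mul_sum]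
    _ ≤ ∑ s ∈ S, (∑ i ∈ J.filter (fun i => s i = a0), r i) * ∏ i, μ i (s i) :=
        Finset.sum_le_sum fun s hs => mul_le_mul_of_nonneg_right (hH s hs) (hw s)
    _ = ∑ s ∈ S, ∑ i ∈ J, (if s i = a0 then r i * ∏ i, μ i (s i) else 0) := by
        apply Finset.sum_congr rfl
        intro s _
        rw [Finset.sum_filter, Finset.sum_mul]
        apply Finset.sum_congr rfl
        intro i _
        split_ifs <;> simp
    _ = ∑ i ∈ J, ∑ s ∈ S, (if s i = a0 then r i * ∏ i, μ i (s i) else 0) := Finset.sum_comm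
    _ = ∑ i ∈ J, ∑ s ∈ S.filter (fun s => s i = a0), r i * ∏ i, μ i (s i) := by
        apply Finset.sum_congr rfl
        intro i _
        rw [← Finset.sum_filter]
    _ ≤ ∑ i ∈ J, ∑ s ∈ S.filter (fun s => s i = a0),
          ∏ j, μ j (Function.update s i a1 j) := by
        apply Finset.sum_le_sum
        intro i hi
        apply Finset.sum_le_sum
        intro s hs
        exact hkey i hi s (mem_filter.mp hs).2
    _ = ∑ p ∈ J.sigma (fun i => S.filter (fun s => s i = a0)),
          ∏ j, μ j (Function.update p.2 p.1 a1 j) := by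
        rw [Finset.sum_sigma]
    _ = ∑ t ∈ (J.sigma (fun i => S.filter (fun s => s i = a0))).image
          (fun p => Function.update p.2 p.1 a1), ∏ j, μ j (t j) := by
        rw [Finset.sum_image]
        rintro ⟨i, s⟩ hp ⟨j, t⟩ hq hpq
        simp only [coe_sigma, Set.mem_sigma_iff, mem_coe, mem_filter] at hp hq
        simp only at hpq
        by_cases hij : i = j
        · subst hij
          congr 1
          funext k
          by_cases hk : k = i
          · subst hk
            rw [hp.2.2, hq.2.2]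
          · have := congrFun hpq k
            rwa [Function.update_of_ne hk, Function.update_of_ne hk] at this
        · exact absurd hpq (hdis i hp.1 j hq.1 hij s hp.2.1 t hq.2.1 hp.2.2 hq.2.2)
    _ ≤ ∑ t : ι → α, ∏ j, μ j (t j) :=
        Finset.sum_le_sum_of_subset_of_nonneg (Finset.subset_univ _) fun t _ _ => hw t
    _ = 1 := pm_total μ h1

end Pool.Agent.H31.TL
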