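import Pool.Agent.H31.TL.Low

/-!
# TL Conc2: the law of `X Y` has no mass near a point

Given `t`, `η`: `low` and `many` with `η / 3` give `y0`, `K`. Take `z2 ≥ z1` with
`∑_(p ≤ z2) 1 / p ≥ K + 3 / η` (`Nat.Primes.not_summable_one_div`) and `0 < ε`, `2 ε / y0 < 1 / z2²`: `pm_exch` with
`J` = the primes `≤ z2`, `a0 = (0,0)`, `a1 = (1,0)`, `r p = 1 / p` (`nu p A (1,0) = (1 - 1/p) / p`,
`nu p A (0,0) = (1 - 1/p)²`), `H = 3 / η`, `S` the patterns with `|XX YY - t| ≤ ε`, `y0 ≤ YY`,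
`∑_(s p ≠ (0,0)) 1 / p ≤ K`. Disjointness: `update` changes `XX` by `1 / p` and not `YY`; if the images of `s`
(at `p`) and `t` (at `q`) agree then `YY s = YY t = Y ≥ y0` and `|XX s - XX t| = |1/p - 1/q| ≥ 1 / z2²`, but
`|XX s - XX t| Y ≤ 2 ε`.
-/

set_option autoImplicit false

namespace Pool.Agent.H31.TL

open Finset

/-- the sums of the reciprocals of the primes up to `n` are unbounded -/
private theorem exists_big (C : ℝ) (z1 : ℕ) : ∃ z2 : ℕ, z1 ≤ z2 ∧
    C ≤ ∑ p ∈ DD.Pz z2, 1 / (p : ℝ) := by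
  have h := not_summable_one_div_on_primes
  have hnn : ∀ n : ℕ, 0 ≤ Set.indicator {p : ℕ | p.Prime} (fun n : ℕ => (1 : ℝ) / n) n := by
    intro n
    apply Set.indicator_nonneg
    intro x _
    positivity
  have h2 := (not_summable_iff_tendsto_nat_atTop_of_nonneg hnn).mp h
  obtain ⟨N, hN⟩ := (h2.eventually_ge_atTop C).exists_forall_of_atTop
  refine ⟨max z1 N, le_max_left _ _, ?_⟩
  have h3 := hN (max z1 N + 1) (by omega)
  refine h3.trans (le_of_eq ?_)
  unfold DD.Pz
  rw [sum_filter]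
  apply sum_congr rfl
  intro p _
  rw [Set.indicator_apply]
  rfl

private theorem el_zero (p : ℕ) : el p 0 = 0 := by
  unfold el
  simp

private theorem el_one (p : ℕ) : el p 1 = 1 / (p : ℝ) := by
  unfold el
  simp

private theorem val_one {A : ℕ} (hA : 2 ≤ A) : ((1 : Fin (A + 1)) : ℕ) = 1 := by
  rw [Fin.val_one']
  exact Nat.mod_eq_of_lt (by omega)

private theorem XX_update {z A : ℕ} (hA : 2 ≤ A) (s : (p : DD.Pz z) → St A) (i : DD.Pz z)
    (hi : s i = (0, 0)) :
    XX z A (Function.update s i (1, 0)) = XX z A s + 1 / ((i : ℕ) : ℝ) := by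
  unfold XX
  rw [← Finset.add_sum_erase univ _ (mem_univ i), ← Finset.add_sum_erase univ
    (fun p : DD.Pz z => el (p : ℕ) ((s p).1 : ℕ)) (mem_univ i)]
  have h1 : ∑ p ∈ univ.erase i, el (p : ℕ) ((Function.update s i ((1, 0) : St A) p).1 : ℕ) =
      ∑ p ∈ univ.erase i, el (p : ℕ) ((s p).1 : ℕ) := by
    apply sum_congr rfl
    intro p hp
    rw [Function.update_of_ne (ne_of_mem_erase hp)]
  rw [h1, Function.update_self, hi]
  have h2 : el (i : ℕ) (((1, 0) : St A).1 : ℕ) = 1 / ((i : ℕ) : ℝ) := by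
    show el (i : ℕ) ((1 : Fin (A + 1)) : ℕ) = _
    rw [val_one hA, el_one]
  have h3 : el (i : ℕ) (((0, 0) : St A).1 : ℕ) = 0 := by
    show el (i : ℕ) ((0 : Fin (A + 1)) : ℕ) = _
    rw [Fin.val_zero, el_zero]
  rw [h2, h3]
  ring

private theorem YY_update {z A : ℕ} (s : (p : DD.Pz z) → St A) (i : DD.Pz z)
    (hi : s i = (0, 0)) :
    YY z A (Function.update s i (1, 0)) = YY z A s := by
  unfold YY
  apply sum_congr rfl
  intro p _
  by_cases hp : p = i
  · subst hp
    rw [Function.update_self, hi]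
  · rw [Function.update_of_ne hp]

private theorem recip_sep {a b m : ℕ} (ha : 1 ≤ a) (hb : 1 ≤ b) (hab : a ≠ b) (ham : a ≤ m)
    (hbm : b ≤ m) : 1 / (m : ℝ) ^ 2 ≤ |1 / (a : ℝ) - 1 / (b : ℝ)| := by
  have ha' : (0 : ℝ) < a := by exact_mod_cast ha
  have hb' : (0 : ℝ) < b := by exact_mod_cast hb
  have hm' : (0 : ℝ) < m := by exact_mod_cast (by omega : 0 < m)
  have h1 : 1 / (a : ℝ) - 1 / (b : ℝ) = ((b : ℝ) - a) / (a * b) := by
    field_simp
  rw [h1, abs_div, abs_of_pos (mul_pos ha' hb')]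
  have h2 : (1 : ℝ) ≤ |(b : ℝ) - a| := by
    have h3 : (1 : ℤ) ≤ |(b : ℤ) - a| := Int.one_le_abs (by omega)
    exact_mod_cast h3
  have h4 : (a : ℝ) * b ≤ (m : ℝ) ^ 2 := by
    have h5 : (a : ℝ) ≤ m := by exact_mod_cast ham
    have h6 : (b : ℝ) ≤ m := by exact_mod_cast hbm
    nlinarith
  exact div_le_div₀ (abs_nonneg _) h2 (mul_pos ha' hb') h4

private theorem nu_ratio {p A : ℕ} (hp : 2 ≤ p) (hA : 2 ≤ A) :
    1 / (p : ℝ) * nu p A (0, 0) ≤ nu p A (1, 0) := by
  have hp' : (2 : ℝ) ≤ p := by exact_mod_cast hp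
  have hp0 : (0 : ℝ) < p := by linarith
  have h1 : nu p A (0, 0) = (1 - 1 / (p : ℝ)) * (1 - 1 / (p : ℝ)) := by
    unfold nu al
    simp [show 0 < A by omega]
  have h2 : nu p A (1, 0) = (1 - 1 / (p : ℝ)) / p := by
    have h3 : ((1 : Fin (A + 1)) : ℕ) = 1 := val_one hA
    unfold nu
    have h4 : ¬ ((((1 : Fin (A + 1)), (0 : Fin (A + 1))) : St A).1 : ℕ) = 0 := by
      show ¬ ((1 : Fin (A + 1)) : ℕ) = 0
      rw [h3]
      omega
    rw [if_neg h4]
    have h5 : ((((1 : Fin (A + 1)), (0 : Fin (A + 1))) : St A).2 : ℕ) = 0 := by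
      show ((0 : Fin (A + 1)) : ℕ) = 0
      exact Fin.val_zero _
    rw [if_pos h5]
    show al p A ((1 : Fin (A + 1)) : ℕ) = _
    rw [h3]
    unfold al
    rw [if_pos (by omega), pow_one]
  rw [h1, h2]
  have h6 : (0 : ℝ) ≤ 1 / (p : ℝ) := by positivity
  have h7 : 1 / (p : ℝ) ≤ 1 := by
    rw [div_le_one hp0]
    linarith
  rw [div_eq_mul_one_div (1 - 1 / (p : ℝ)) (p : ℝ)]
  have h8 : 0 ≤ 1 / (p : ℝ) * (1 - 1 / (p : ℝ)) := mul_nonneg h6 (by linarith)
  nlinarith [mul_nonneg h8 h6]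

open Classical in
theorem conc (t η : ℝ) (hη : 0 < η) : ∃ (z2 : ℕ) (ε : ℝ), 0 < ε ∧ ∀ z A : ℕ, z2 ≤ z → 2 ≤ A →
    ∑ s ∈ univ.filter (fun s : (p : DD.Pz z) → St A => |XX z A s * YY z A s - t| ≤ ε), wt z A s ≤
      η := by
  obtain ⟨y0, z1, hy0, hlow⟩ := low (η / 3) (by positivity)
  obtain ⟨K, hK0, hmany⟩ := many (η / 3) (by positivity)
  obtain ⟨z2, hz12, hz2⟩ := exists_big (K + 3 / η) z1
  set M : ℕ := z2 + 1 with hM
  have hMpos : (0 : ℝ) < M := by
    rw [hM]
    positivity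
  refine ⟨z2, y0 / (4 * (M : ℝ) ^ 2), by positivity, ?_⟩
  intro z A hz hA
  set ε : ℝ := y0 / (4 * (M : ℝ) ^ 2) with hε
  have hwt : ∀ s : (p : DD.Pz z) → St A, 0 ≤ wt z A s := by
    intro s
    unfold wt
    apply prod_nonneg
    intro p _
    exact nu_nonneg _ _ (DD.mem_Pz.mp p.2).2.two_le _
  set S : Finset ((p : DD.Pz z) → St A) := univ.filter (fun s : (p : DD.Pz z) → St A =>
    |XX z A s * YY z A s - t| ≤ ε ∧ y0 ≤ YY z A s ∧
      ∑ p ∈ univ.filter (fun p : DD.Pz z => s p ≠ (0, 0)), 1 / ((p : ℕ) : ℝ) ≤ K) with hS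
  have hexch : 3 / η * ∑ s ∈ S, wt z A s ≤ 1 := by
    have h := pm_exch (ι := DD.Pz z) (α := St A) (fun p s => nu (p : ℕ) A s)
      (fun p s => nu_nonneg _ _ (DD.mem_Pz.mp p.2).2.two_le _)
      (fun p => nu_sum _ _ (DD.mem_Pz.mp p.2).2.two_le (by omega))
      (univ.filter (fun p : DD.Pz z => (p : ℕ) ≤ z2)) (0, 0) (1, 0)
      (by
        intro h
        have h1 := congrArg (fun x : St A => (x.1 : ℕ)) h
        simp only [Fin.val_zero] at h1
        rw [val_one hA] at h1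
        omega)
      (fun p => 1 / ((p : ℕ) : ℝ)) (fun p => by positivity)
      (fun p _ => nu_ratio (DD.mem_Pz.mp p.2).2.two_le hA) S (3 / η)
      (by
        intro s hs
        rw [hS, mem_filter] at hs
        obtain ⟨_, _, _, h3⟩ := hs
        have h4 : ∑ p ∈ univ.filter (fun p : DD.Pz z => (p : ℕ) ≤ z2), 1 / ((p : ℕ) : ℝ) =
            ∑ p ∈ DD.Pz z2, 1 / (p : ℝ) := by
          refine sum_bij (fun p _ => (p : ℕ)) ?_ ?_ ?_ ?_
          · intro p hp
            rw [mem_filter] at hp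
            exact DD.mem_Pz.mpr ⟨hp.2, (DD.mem_Pz.mp p.2).2⟩
          · intro p _ q _ hpq
            exact Subtype.ext hpq
          · intro p hp
            have hp' := DD.mem_Pz.mp hp
            refine ⟨⟨p, DD.mem_Pz.mpr ⟨hp'.1.trans hz, hp'.2⟩⟩, ?_, rfl⟩
            rw [mem_filter]
            exact ⟨mem_univ _, hp'.1⟩
          · intro p _
            rfl
        have h5 := sum_filter_add_sum_filter_not
          (univ.filter (fun p : DD.Pz z => (p : ℕ) ≤ z2)) (fun p : DD.Pz z => s p = (0, 0))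
          (fun p : DD.Pz z => 1 / ((p : ℕ) : ℝ))
        have h6 : ∑ p ∈ (univ.filter (fun p : DD.Pz z => (p : ℕ) ≤ z2)).filter
            (fun p : DD.Pz z => ¬ s p = (0, 0)), 1 / ((p : ℕ) : ℝ) ≤ K := by
          refine le_trans ?_ h3
          apply sum_le_sum_of_subset_of_nonneg
          · intro p hp
            rw [mem_filter] at hp ⊢
            exact ⟨mem_univ _, hp.2⟩
          · intro p _ _
            positivity
        have h7 : 3 / η ≤ ∑ p ∈ (univ.filter (fun p : DD.Pz z => (p : ℕ) ≤ z2)).filter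
            (fun p : DD.Pz z => s p = (0, 0)), 1 / ((p : ℕ) : ℝ) := by
          linarith
        convert h7 using 2)
      (by
        intro i hi j hj hij s hs t' ht' hsi htj heq
        rw [hS, mem_filter] at hs ht'
        obtain ⟨_, hs1, hs2, _⟩ := hs
        obtain ⟨_, ht1, ht2, _⟩ := ht'
        rw [mem_filter] at hi hj
        have hX := congrArg (XX z A) heq
        have hY := congrArg (YY z A) heq
        rw [XX_update hA s i hsi, XX_update hA t' j htj] at hX
        rw [YY_update s i hsi, YY_update t' j htj] at hY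
        have hi2 := (DD.mem_Pz.mp i.2).2.two_le
        have hj2 := (DD.mem_Pz.mp j.2).2.two_le
        have hne : (i : ℕ) ≠ (j : ℕ) := fun h => hij (Subtype.ext h)
        have hsep := recip_sep (a := (i : ℕ)) (b := (j : ℕ)) (m := M) (by omega) (by omega) hne
          (by have := hi.2; omega) (by have := hj.2; omega)
        have hdiff : XX z A t' - XX z A s = 1 / ((i : ℕ) : ℝ) - 1 / ((j : ℕ) : ℝ) := by
          linarith
        rw [← hdiff] at hsep
        have h1 : |(XX z A t' - XX z A s) * YY z A s| ≤ 2 * ε := by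
          have h2 : (XX z A t' - XX z A s) * YY z A s =
              (XX z A t' * YY z A t' - t) - (XX z A s * YY z A s - t) := by
            rw [hY]
            ring
          rw [h2]
          calc |(XX z A t' * YY z A t' - t) - (XX z A s * YY z A s - t)|
              ≤ |XX z A t' * YY z A t' - t| + |XX z A s * YY z A s - t| := abs_sub _ _
            _ ≤ 2 * ε := by linarith
        rw [abs_mul] at h1
        have h3 : 1 / (M : ℝ) ^ 2 * y0 ≤ |XX z A t' - XX z A s| * |YY z A s| := by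
          apply mul_le_mul hsep (hs2.trans (le_abs_self _)) hy0.le (abs_nonneg _)
        have h4 : 2 * ε < 1 / (M : ℝ) ^ 2 * y0 := by
          rw [hε]
          have h5 : 2 * (y0 / (4 * (M : ℝ) ^ 2)) = (1 / (M : ℝ) ^ 2 * y0) / 2 := by
            field_simp
            ring
          rw [h5]
          have h6 : 0 < 1 / (M : ℝ) ^ 2 * y0 := by positivity
          linarith
        linarith)
    exact h
  have hSle : ∑ s ∈ S, wt z A s ≤ η / 3 := by
    have h1 : 3 / η * ∑ s ∈ S, wt z A s ≤ 3 / η * (η / 3) := by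
      have h2 : 3 / η * (η / 3) = 1 := by
        field_simp
      rw [h2]
      exact hexch
    exact le_of_mul_le_mul_left h1 (by positivity)
  have hsub : univ.filter (fun s : (p : DD.Pz z) → St A => |XX z A s * YY z A s - t| ≤ ε) ⊆
      (univ.filter (fun s : (p : DD.Pz z) → St A => YY z A s < y0) ∪
        univ.filter (fun s : (p : DD.Pz z) → St A =>
          K < ∑ p ∈ univ.filter (fun p : DD.Pz z => s p ≠ (0, 0)), 1 / ((p : ℕ) : ℝ))) ∪ S := by
    intro s hs
    rw [mem_filter] at hs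
    rw [mem_union, mem_union, mem_filter, mem_filter, hS, mem_filter]
    by_cases h1 : YY z A s < y0
    · exact Or.inl (Or.inl ⟨mem_univ _, h1⟩)
    · by_cases h2 : K < ∑ p ∈ univ.filter (fun p : DD.Pz z => s p ≠ (0, 0)), 1 / ((p : ℕ) : ℝ)
      · exact Or.inl (Or.inr ⟨mem_univ _, h2⟩)
      · exact Or.inr ⟨mem_univ _, hs.2, not_lt.mp h1, not_lt.mp h2⟩
  have hun : ∀ U V : Finset ((p : DD.Pz z) → St A),
      ∑ s ∈ U ∪ V, wt z A s ≤ ∑ s ∈ U, wt z A s + ∑ s ∈ V, wt z A s := by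
    intro U V
    rw [← sum_union_inter]
    have : 0 ≤ ∑ s ∈ U ∩ V, wt z A s := sum_nonneg (fun s _ => hwt s)
    linarith
  have hA1 := hlow z A (hz12.trans hz) hA
  have hA2 := hmany z A hA
  calc ∑ s ∈ univ.filter (fun s : (p : DD.Pz z) → St A => |XX z A s * YY z A s - t| ≤ ε), wt z A s
      ≤ ∑ s ∈ (univ.filter (fun s : (p : DD.Pz z) → St A => YY z A s < y0) ∪
        univ.filter (fun s : (p : DD.Pz z) → St A =>
          K < ∑ p ∈ univ.filter (fun p : DD.Pz z => s p ≠ (0, 0)), 1 / ((p : ℕ) : ℝ))) ∪ S,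
          wt z A s := sum_le_sum_of_subset_of_nonneg hsub (fun s _ _ => hwt s)
    _ ≤ η / 3 + η / 3 + η / 3 := by
        refine (hun _ _).trans (add_le_add ((hun _ _).trans (add_le_add hA1 hA2)) hSle)
    _ = η := by ring

end Pool.Agent.H31.TL
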