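import Pool.Agent.H31.DD.Fin

/-!
# TL Cyc: cycles of `w`

The least element `m` of a cycle satisfies `m ≤ w(w(m))`; the elements of the cycle are `w^i(m)`,
`1 ≤ i ≤` length. So the `n ≤ N` on cycles of length at most `K` are at most `K` times as many as the
`m ≤ N` with `m ≤ w(w(m))`.
-/

set_option autoImplicit false

namespace Pool.Agent.H31.TL

open Finset
open Pool.Agent.H97.WIter (wf)

private theorem iter_zero (i : ℕ) : wf^[i] 0 = 0 := by
  induction i with
  | zero => rfl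
  | succ i ih =>
    rw [Function.iterate_succ_apply]
    have : wf 0 = 0 := by simp [Pool.Agent.H97.WIter.wf]
    rw [this, ih]

private theorem exists_least (n k : ℕ) (hk : 1 ≤ k) (h : wf^[k] n = n) (hn : 1 ≤ n) :
    ∃ m i : ℕ, 1 ≤ m ∧ m ≤ n ∧ m ≤ wf (wf m) ∧ 1 ≤ i ∧ i ≤ k ∧ wf^[i] m = n := by
  obtain ⟨j, hj, hmin⟩ := Finset.exists_min_image (range k) (fun j => wf^[j] n)
    ⟨0, mem_range.2 (by omega)⟩
  rw [mem_range] at hj
  have hall : ∀ i, wf^[j] n ≤ wf^[i] n := by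
    intro i
    have h1 : wf^[i] n = wf^[i % k] n := by
      have h2 : ∀ q, wf^[k * q] n = n := by
        intro q
        induction q with
        | zero => rfl
        | succ q ih =>
          rw [Nat.mul_succ, Function.iterate_add_apply, h, ih]
      conv_lhs => rw [← Nat.mod_add_div i k]
      rw [Function.iterate_add_apply, h2]
    rw [h1]
    exact hmin (i % k) (mem_range.2 (Nat.mod_lt _ (by omega)))
  refine ⟨wf^[j] n, k - j, ?_, hall 0, ?_, by omega, by omega, ?_⟩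
  · by_contra hc
    have h0 : wf^[j] n = 0 := by omega
    have h1 : wf^[k - j] (wf^[j] n) = n := by
      rw [← Function.iterate_add_apply, Nat.sub_add_cancel hj.le, h]
    rw [h0, iter_zero] at h1
    omega
  · have h1 : wf (wf (wf^[j] n)) = wf^[j + 2] n := by
      rw [← Function.iterate_succ_apply' wf j n, ← Function.iterate_succ_apply' wf (j + 1) n]
    rw [h1]
    exact hall _
  · rw [← Function.iterate_add_apply, Nat.sub_add_cancel hj.le, h]

open Classical in
theorem cycles : ∃ N0 : ℕ, ∀ N : ℕ, N0 ≤ N → ∀ K : ℕ,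
    (((Icc 1 N).filter (fun n => ∃ k, 1 ≤ k ∧ k ≤ K ∧ wf^[k] n = n)).card : ℝ) ≤
      K * (N / 10 ^ 80) := by
  obtain ⟨N0, h⟩ := DD.main
  refine ⟨N0, fun N hN K => ?_⟩
  have h1 := h N hN
  have h2 : (Icc 1 N).filter (fun n => ∃ k, 1 ≤ k ∧ k ≤ K ∧ wf^[k] n = n) ⊆
      ((Icc 1 K) ×ˢ ((Icc 1 N).filter (fun n => n ≤ wf (wf n)))).image
        (fun p => wf^[p.1] p.2) := by
    intro n hn
    rw [mem_filter, mem_Icc] at hn
    obtain ⟨⟨hn1, hnN⟩, k, hk1, hkK, hk⟩ := hn
    obtain ⟨m, i, hm1, hmn, hmw, hi1, hik, him⟩ := exists_least n k hk1 hk hn1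
    rw [mem_image]
    refine ⟨(i, m), ?_, him⟩
    rw [mem_product, mem_Icc, mem_filter, mem_Icc]
    exact ⟨⟨hi1, hik.trans hkK⟩, ⟨hm1, hmn.trans hnN⟩, hmw⟩
  have h3 := (card_le_card h2).trans card_image_le
  rw [card_product, Nat.card_Icc, Nat.add_sub_cancel] at h3
  have h4 : (((Icc 1 N).filter (fun n => ∃ k, 1 ≤ k ∧ k ≤ K ∧ wf^[k] n = n)).card : ℝ) ≤
      K * ((Icc 1 N).filter (fun n => n ≤ wf (wf n))).card := by exact_mod_cast h3
  exact h4.trans (mul_le_mul_of_nonneg_left h1 (Nat.cast_nonneg K))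

end Pool.Agent.H31.TL
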