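import Pool.Agent.H31.DD.Defs

/-!
# The limit law of two steps of the function `w` of Erdos: definitions

Project TL (MP_17b696_nt, note 5028): `w(w(n)) / n` has a continuous limiting distribution.
-/

set_option autoImplicit false

namespace Pool.Agent.H31.TL

open Finset
open Pool.Agent.H97.WIter (wf)

/-- the mean over `1..N` -/
noncomputable def mn (f : ℕ → ℂ) (N : ℕ) : ℂ := (∑ n ∈ Icc 1 N, f n) / N

/-- the logarithmic mean over `1..N` -/
noncomputable def lm (f : ℕ → ℂ) (N : ℕ) : ℂ := (∑ n ∈ Icc 1 N, f n / n) / (Real.log N : ℂ)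

/-- `w(n) / n` modulo `e` (for `n` prime to `e`) -/
noncomputable def rr (e n : ℕ) : ZMod e := (wf n : ZMod e) * (n : ZMod e)⁻¹

/-- the character `e(h w(n) / n)` on the multiples `n` of `d` which are prime to `e` -/
noncomputable def ch (e d : ℕ) [NeZero e] (h : ZMod e) (n : ℕ) : ℂ :=
  if d ∣ n ∧ Nat.Coprime n e then ZMod.stdAddChar (h * rr e n) else 0

/-- the density of the `n` with `d ∣ n`, `e ∣ w(n)` -/
noncomputable def rho (d e : ℕ) : ℝ :=
  if Nat.Coprime d e then (e.totient : ℝ) / (d * (e : ℝ) ^ 2) else 0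

/-- states of a prime: truncated valuations of `n` and of `w(n)` -/
abbrev St (A : ℕ) : Type := Fin (A + 1) × Fin (A + 1)

/-- the truncated valuation -/
def vt (A k p : ℕ) : Fin (A + 1) := ⟨min (k.factorization p) A, by omega⟩

/-- the pattern of `n` -/
def pat (z A n : ℕ) : (p : DD.Pz z) → St A := fun p => (vt A n p, vt A (wf n) p)

/-- the density of the `k` with `min (v_p k) A = i` -/
noncomputable def al (p A i : ℕ) : ℝ :=
  if i < A then (1 - 1 / (p : ℝ)) / (p : ℝ) ^ i else 1 / (p : ℝ) ^ A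

/-- the weight of a state -/
noncomputable def nu (p A : ℕ) (s : St A) : ℝ :=
  if (s.1 : ℕ) = 0 then (1 - 1 / (p : ℝ)) * al p A s.2
  else if (s.2 : ℕ) = 0 then al p A s.1 else 0

/-- the contribution of the prime `p` with (truncated) valuation `i` -/
noncomputable def el (p i : ℕ) : ℝ := if i = 0 then 0 else 1 / (p : ℝ) ^ i

/-- the truncated sum of `1 / p^a` over the prime powers exactly dividing `k` -/
noncomputable def Xn (z A k : ℕ) : ℝ := ∑ p ∈ DD.Pz z, el p (min (k.factorization p) A)

/-- `X` as a function of the pattern -/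
noncomputable def XX (z A : ℕ) (s : (p : DD.Pz z) → St A) : ℝ := ∑ p : DD.Pz z, el (p : ℕ) ((s p).1 : ℕ)

/-- `Y` as a function of the pattern -/
noncomputable def YY (z A : ℕ) (s : (p : DD.Pz z) → St A) : ℝ := ∑ p : DD.Pz z, el (p : ℕ) ((s p).2 : ℕ)

/-- the weight of a pattern -/
noncomputable def wt (z A : ℕ) (s : (p : DD.Pz z) → St A) : ℝ := ∏ p : DD.Pz z, nu (p : ℕ) A (s p)

theorem XX_pat (z A n : ℕ) : XX z A (pat z A n) = Xn z A n := by
  unfold XX Xn pat vt
  exact Finset.sum_coe_sort (DD.Pz z) (fun p => el p (min (n.factorization p) A))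

theorem YY_pat (z A n : ℕ) : YY z A (pat z A n) = Xn z A (wf n) := by
  unfold YY Xn pat vt
  exact Finset.sum_coe_sort (DD.Pz z) (fun p => el p (min ((wf n).factorization p) A))

end Pool.Agent.H31.TL
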