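import Pool.Agent.H31.TL.Chr

/-!
# TL Dens: the density of the `n` with `d ∣ n`, `e ∣ w(n)`

If `d`, `e` are not coprime there is no such `n ≥ 1` (`Pool.Agent.H97.WIter.wf_coprime`, and `wf 1 = 0`
with `d ∣ 1`). For coprime `d`, `e` the indicator of `d ∣ n ∧ e ∣ w(n)` is `(1 / e) ∑_h ch e d h n` for every
`n ≥ 1`: for `n` prime to `e`, `e ∣ w(n)` iff `rr e n = 0` (orthogonality
`AddChar.sum_mulShift` or `AddChar.sum_eq_ite` for `ZMod.stdAddChar`); otherwise both sides vanish. For `h ≠ 0` the mean tends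
to `0` (`ch_tendsto`), for `h = 0` it is the mean of the indicator of `d ∣ n`, `(n, e) = 1`, which tends
to `φ(e) / (e d)` (`n = d k`, `(k, e) = 1`, the density of the `k` prime to `e` is `φ(e) / e`).
-/

set_option autoImplicit false

namespace Pool.Agent.H31.TL

open Finset Filter Topology
open Pool.Agent.H97.WIter (wf)

/-- the number of `k ≤ M` prime to `e` -/
private noncomputable def cop (e M : ℕ) : ℕ := ((Icc 1 M).filter (fun k => Nat.Coprime k e)).card

private theorem cop_mul (e q : ℕ) : cop e (e * q) = e.totient * q := by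
  unfold cop
  induction q with
  | zero => simp
  | succ q ih =>
    have hsplit : (Icc 1 (e * (q + 1))).filter (fun k => Nat.Coprime k e)
        = ((Icc 1 (e * q)).filter (fun k => Nat.Coprime k e)) ∪
          ((Ico (e * q + 1) (e * q + 1 + e)).filter (fun k => e.Coprime k)) := by
      ext k
      simp only [mem_filter, mem_union, mem_Icc, mem_Ico, Nat.coprime_comm (n := e) (m := k)]
      have h1 : e * (q + 1) = e * q + e := by ring
      rw [h1]
      constructor
      · rintro ⟨⟨ha, hb⟩, hc⟩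
        rcases le_or_gt k (e * q) with h | h
        · exact Or.inl ⟨⟨ha, h⟩, hc⟩
        · exact Or.inr ⟨⟨by omega, by omega⟩, hc⟩
      · rintro (⟨⟨ha, hb⟩, hc⟩ | ⟨⟨ha, hb⟩, hc⟩)
        · exact ⟨⟨ha, by omega⟩, hc⟩
        · exact ⟨⟨by omega, by omega⟩, hc⟩
    rw [hsplit, card_union_of_disjoint, ih, Nat.filter_coprime_Ico_eq_totient]
    · ring
    · rw [Finset.disjoint_left]
      intro k hk hk'
      rw [mem_filter, mem_Icc] at hk
      rw [mem_filter, mem_Ico] at hk'
      omega

private theorem cop_mono (e : ℕ) {M M' : ℕ} (h : M ≤ M') : cop e M ≤ cop e M' := by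
  unfold cop
  apply card_le_card
  apply filter_subset_filter
  intro k hk
  rw [mem_Icc] at hk ⊢
  omega

private theorem cop_bound (e M : ℕ) (he : 1 ≤ e) :
    |(cop e M : ℝ) - (e.totient : ℝ) * M / e| ≤ e := by
  have he' : (0 : ℝ) < e := by exact_mod_cast he
  set q := M / e with hq
  have h1 : e * q ≤ M := by rw [hq]; exact Nat.mul_div_le M e
  have h2 : M < e * (q + 1) := by
    rw [hq]; exact Nat.lt_mul_div_succ M (by omega)
  have h3 : e.totient * q ≤ cop e M := by
    rw [← cop_mul]; exact cop_mono e h1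
  have h4 : cop e M ≤ e.totient * (q + 1) := by
    rw [← cop_mul]; exact cop_mono e h2.le
  have h3' : (e.totient : ℝ) * q ≤ cop e M := by exact_mod_cast h3
  have h4' : (cop e M : ℝ) ≤ e.totient * (q + 1) := by exact_mod_cast h4
  have h1' : (e : ℝ) * q ≤ M := by exact_mod_cast h1
  have h2' : (M : ℝ) ≤ e * (q + 1) := by exact_mod_cast h2.le
  have ht : (e.totient : ℝ) ≤ e := by exact_mod_cast Nat.totient_le e
  have ht0 : (0 : ℝ) ≤ e.totient := Nat.cast_nonneg _
  have h5 : (e.totient : ℝ) * q ≤ (e.totient : ℝ) * M / e := by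
    rw [le_div_iff₀ he']
    nlinarith [mul_le_mul_of_nonneg_left h1' ht0]
  have h6 : (e.totient : ℝ) * M / e ≤ e.totient * (q + 1) := by
    rw [div_le_iff₀ he']
    nlinarith [mul_le_mul_of_nonneg_left h2' ht0]
  rw [abs_le]
  constructor <;> linarith

private theorem filter_card (d e N : ℕ) (hd : 1 ≤ d) (hde : Nat.Coprime d e) :
    ((Icc 1 N).filter (fun n => d ∣ n ∧ Nat.Coprime n e)).card = cop e (N / d) := by
  unfold cop
  symm
  apply Finset.card_bij (fun k _ => d * k)
  · intro k hk
    rw [mem_filter, mem_Icc] at hk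
    rw [mem_filter, mem_Icc]
    refine ⟨⟨?_, ?_⟩, dvd_mul_right d k, ?_⟩
    · exact Nat.mul_pos (by omega) (by omega)
    · calc d * k ≤ d * (N / d) := Nat.mul_le_mul_left _ hk.1.2
        _ ≤ N := Nat.mul_div_le N d
    · exact Nat.Coprime.mul_left hde hk.2
  · intro a _ b _ hab
    exact Nat.eq_of_mul_eq_mul_left (by omega) hab
  · intro n hn
    rw [mem_filter, mem_Icc] at hn
    obtain ⟨⟨h1, h2⟩, ⟨k, rfl⟩, h3⟩ := hn
    refine ⟨k, ?_, rfl⟩
    rw [mem_filter, mem_Icc]
    refine ⟨⟨?_, ?_⟩, Nat.Coprime.coprime_mul_left h3⟩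
    · rcases Nat.eq_zero_or_pos k with h | h
      · subst h; simp at h1
      · exact h
    · rw [Nat.le_div_iff_mul_le (by omega), mul_comm]; exact h2

private theorem cop_tendsto (d e : ℕ) (hd : 1 ≤ d) (he : 1 ≤ e) (hde : Nat.Coprime d e) :
    Tendsto (fun N : ℕ => (((Icc 1 N).filter (fun n => d ∣ n ∧ Nat.Coprime n e)).card : ℝ) / N)
      atTop (𝓝 ((e.totient : ℝ) / (d * e))) := by
  have hd' : (0 : ℝ) < d := by exact_mod_cast hd
  have he' : (0 : ℝ) < e := by exact_mod_cast he
  have ht : (e.totient : ℝ) ≤ e := by exact_mod_cast Nat.totient_le e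
  have ht0 : (0 : ℝ) ≤ e.totient := Nat.cast_nonneg _
  rw [tendsto_iff_dist_tendsto_zero]
  have hz : Tendsto (fun N : ℕ => ((e : ℝ) + 1) / N) atTop (𝓝 0) :=
    tendsto_const_div_atTop_nhds_zero_nat _
  refine squeeze_zero' (Eventually.of_forall fun _ => dist_nonneg) ?_ hz
  filter_upwards [eventually_ge_atTop 1] with N hN
  have hN' : (0 : ℝ) < N := by exact_mod_cast hN
  rw [filter_card d e N hd hde, Real.dist_eq]
  have h1 := cop_bound e (N / d) he
  have h2 : |(e.totient : ℝ) * ((N / d : ℕ) : ℝ) / e - (e.totient : ℝ) * N / (d * e)| ≤ 1 := by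
    have h3 : (N / d : ℕ) * d ≤ N := Nat.div_mul_le_self N d
    have h4 : N < d * (N / d + 1) := Nat.lt_mul_div_succ N (by omega)
    have h3' : ((N / d : ℕ) : ℝ) * d ≤ N := by exact_mod_cast h3
    have h4' : (N : ℝ) ≤ d * (((N / d : ℕ) : ℝ) + 1) := by exact_mod_cast h4.le
    set q : ℝ := ((N / d : ℕ) : ℝ) with hq
    have h5 : (e.totient : ℝ) * q / e - (e.totient : ℝ) * N / (d * e)
        = (e.totient : ℝ) / e * ((q * d - N) / d) := by
      field_simp
    rw [h5, abs_mul]
    have h6 : |(e.totient : ℝ) / e| ≤ 1 := by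
      rw [abs_of_nonneg (by positivity), div_le_one he']
      exact ht
    have h7 : |(q * d - N) / d| ≤ 1 := by
      rw [abs_div, abs_of_pos hd', div_le_one hd', abs_le]
      constructor <;> nlinarith
    calc |(e.totient : ℝ) / e| * |(q * d - N) / d| ≤ 1 * 1 :=
          mul_le_mul h6 h7 (abs_nonneg _) (by norm_num)
      _ = 1 := by norm_num
  have h8 : (cop e (N / d) : ℝ) / N - (e.totient : ℝ) / (d * e)
      = ((cop e (N / d) : ℝ) - (e.totient : ℝ) * N / (d * e)) / N := by
    field_simp
  rw [h8, abs_div, abs_of_pos hN']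
  apply div_le_div_of_nonneg_right _ hN'.le
  calc |(cop e (N / d) : ℝ) - (e.totient : ℝ) * N / (d * e)|
      = |((cop e (N / d) : ℝ) - (e.totient : ℝ) * ((N / d : ℕ) : ℝ) / e)
          + ((e.totient : ℝ) * ((N / d : ℕ) : ℝ) / e - (e.totient : ℝ) * N / (d * e))| := by
        congr 1; ring
    _ ≤ _ := abs_add_le _ _
    _ ≤ (e : ℝ) + 1 := add_le_add h1 h2

/-- the indicator is an average of characters -/
private theorem ind_eq (d e n : ℕ) [NeZero e] (hn : 1 ≤ n) :
    (if d ∣ n ∧ e ∣ wf n then (1 : ℂ) else 0) * (e : ℂ) = ∑ h : ZMod e, ch e d h n := by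
  unfold ch
  by_cases hc : Nat.Coprime n e
  · by_cases hdn : d ∣ n
    · simp only [hdn, true_and]
      simp only [if_pos hc]
      have h1 := AddChar.sum_mulShift (R := ZMod e) (ψ := ZMod.stdAddChar (N := e)) (rr e n)
        (ZMod.isPrimitive_stdAddChar e)
      rw [h1, ZMod.card]
      have h2 : rr e n = 0 ↔ e ∣ wf n := by
        unfold rr
        rw [← ZMod.natCast_eq_zero_iff (wf n) e]
        have hu : IsUnit ((n : ZMod e)) := (ZMod.isUnit_iff_coprime n e).mpr hc
        constructor
        · intro h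
          have h3 : ((wf n : ZMod e) * (n : ZMod e)⁻¹) * (n : ZMod e) = 0 := by rw [h, zero_mul]
          rw [mul_assoc, ZMod.inv_mul_of_unit _ hu, mul_one] at h3
          exact h3
        · intro h
          rw [h, zero_mul]
      by_cases h3 : e ∣ wf n
      · rw [if_pos h3, if_pos (h2.mpr h3), one_mul]
      · rw [if_neg h3, if_neg (fun h => h3 (h2.mp h)), zero_mul, Nat.cast_zero]
    · simp [hdn]
  · have h1 : ¬ (e ∣ wf n) := by
      intro h
      apply hc
      have hn2 : 2 ≤ n := by
        rcases Nat.lt_or_ge n 2 with h' | h'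
        · exfalso
          apply hc
          have : n = 1 := by omega
          rw [this]
          exact Nat.coprime_one_left e
        · exact h'
      exact Nat.Coprime.coprime_dvd_right h (Pool.Agent.H97.WIter.wf_coprime hn2)
    simp [hc, h1]

theorem dens (d e : ℕ) (hd : 1 ≤ d) (he : 1 ≤ e) :
    Tendsto (fun N : ℕ => (((Icc 1 N).filter (fun n => d ∣ n ∧ e ∣ wf n)).card : ℝ) / N) atTop
      (𝓝 (rho d e)) := by
  have : NeZero e := ⟨by omega⟩
  by_cases hde : Nat.Coprime d e
  · have he' : (e : ℂ) ≠ 0 := by exact_mod_cast (by omega : e ≠ 0)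
    have hd' : (d : ℂ) ≠ 0 := by exact_mod_cast (by omega : d ≠ 0)
    have h1 : ∀ N : ℕ, ((((Icc 1 N).filter (fun n => d ∣ n ∧ e ∣ wf n)).card : ℝ) / N : ℝ)
        = ((∑ h : ZMod e, mn (ch e d h) N) / (e : ℂ)).re := by
      intro N
      have h2 : ∑ h : ZMod e, mn (ch e d h) N
          = ((((Icc 1 N).filter (fun n => d ∣ n ∧ e ∣ wf n)).card : ℂ) * (e : ℂ)) / N := by
        unfold mn
        rw [← Finset.sum_div, Finset.sum_comm]
        congr 1
        have h3 : ∀ n ∈ Icc 1 N, ∑ h : ZMod e, ch e d h n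
            = (if d ∣ n ∧ e ∣ wf n then (1 : ℂ) else 0) * (e : ℂ) := by
          intro n hn
          rw [mem_Icc] at hn
          exact (ind_eq d e n hn.1).symm
        rw [Finset.sum_congr rfl h3, ← Finset.sum_mul, Finset.sum_boole]
      rw [h2]
      have h4 : ((((Icc 1 N).filter (fun n => d ∣ n ∧ e ∣ wf n)).card : ℂ) * (e : ℂ)) / N / (e : ℂ)
          = (((((Icc 1 N).filter (fun n => d ∣ n ∧ e ∣ wf n)).card : ℝ) / N : ℝ) : ℂ) := by
        push_cast
        field_simp
      rw [h4, Complex.ofReal_re]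
    have h5 : Tendsto (fun N : ℕ => (∑ h : ZMod e, mn (ch e d h) N) / (e : ℂ)) atTop
        (𝓝 ((((e.totient : ℝ) / (d * e) : ℝ) : ℂ) / (e : ℂ))) := by
      apply Tendsto.div_const
      have h6 : (((e.totient : ℝ) / (d * e) : ℝ) : ℂ)
          = ∑ h : ZMod e, (if h = 0 then (((e.totient : ℝ) / (d * e) : ℝ) : ℂ) else 0) := by
        rw [Finset.sum_ite_eq' Finset.univ (0 : ZMod e)]
        simp
      rw [h6]
      apply tendsto_finsetSum
      intro h _
      by_cases hh : h = 0
      · rw [if_pos hh]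
        have h7 := cop_tendsto d e hd he hde
        have h8 := (Complex.continuous_ofReal.tendsto _).comp h7
        refine h8.congr ?_
        intro N
        unfold mn ch
        rw [hh]
        simp only [Function.comp, zero_mul, AddChar.map_zero_eq_one]
        rw [Finset.sum_boole]
        push_cast
        rfl
      · rw [if_neg hh]
        exact ch_tendsto e d hd h hh
    have h9 := (Complex.continuous_re.tendsto _).comp h5
    have h10 : ((((e.totient : ℝ) / (d * e) : ℝ) : ℂ) / (e : ℂ)).re = rho d e := by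
      unfold rho
      rw [if_pos hde]
      have : ((((e.totient : ℝ) / (d * e) : ℝ) : ℂ) / (e : ℂ))
          = (((e.totient : ℝ) / (d * (e : ℝ) ^ 2) : ℝ) : ℂ) := by
        push_cast
        field_simp
      rw [this, Complex.ofReal_re]
    rw [h10] at h9
    refine h9.congr ?_
    intro N
    simp only [Function.comp]
    exact (h1 N).symm
  · unfold rho
    rw [if_neg hde]
    have h1 : ∀ N : ℕ, (((Icc 1 N).filter (fun n => d ∣ n ∧ e ∣ wf n)).card : ℝ) / N = 0 := by
      intro N
      have h2 : (Icc 1 N).filter (fun n => d ∣ n ∧ e ∣ wf n) = ∅ := by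
        apply Finset.filter_eq_empty_iff.mpr
        intro n hn h
        rw [mem_Icc] at hn
        apply hde
        rcases Nat.lt_or_ge n 2 with h' | h'
        · have : n = 1 := by omega
          rw [this] at h
          have hd1 : d = 1 := Nat.dvd_one.mp h.1
          rw [hd1]
          exact Nat.coprime_one_left e
        · have h3 := Pool.Agent.H97.WIter.wf_coprime h'
          exact Nat.Coprime.coprime_dvd_left h.1 (Nat.Coprime.coprime_dvd_right h.2 h3)
      rw [h2]
      simp
    simp only [h1]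
    exact tendsto_const_nhds

end Pool.Agent.H31.TL
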