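import Pool.Agent.H31.TL.PatD

/-!
# TL Pat: the density of a set of patterns
-/

set_option autoImplicit false

namespace Pool.Agent.H31.TL

open Finset Filter Topology
open Pool.Agent.H97.WIter (wf)

open Classical in
theorem set_dens (z A : ℕ) (hA : 1 ≤ A) (Q : ((p : DD.Pz z) → St A) → Prop) :
    Tendsto (fun N : ℕ => (((Icc 1 N).filter (fun n => Q (pat z A n))).card : ℝ) / N) atTop
      (𝓝 (∑ s ∈ univ.filter Q, wt z A s)) := by
  have h1 : ∀ N : ℕ, (((Icc 1 N).filter (fun n => Q (pat z A n))).card : ℝ) / N =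
      ∑ s ∈ univ.filter Q, (((Icc 1 N).filter (fun n => pat z A n = s)).card : ℝ) / N := by
    intro N
    rw [← Finset.sum_div]
    congr 1
    have h2 : ((Icc 1 N).filter (fun n => Q (pat z A n))).card =
        ∑ s ∈ univ.filter Q, (((Icc 1 N).filter (fun n => Q (pat z A n))).filter
          (fun n => pat z A n = s)).card := by
      apply Finset.card_eq_sum_card_fiberwise
      intro n hn
      have := (mem_filter.1 hn).2
      simpa using this
    rw [h2, Nat.cast_sum]
    apply Finset.sum_congr rfl
    intro s hs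
    congr 2
    ext n
    simp only [mem_filter]
    constructor
    · rintro ⟨⟨h3, _⟩, h4⟩
      exact ⟨h3, h4⟩
    · rintro ⟨h3, h4⟩
      exact ⟨⟨h3, h4 ▸ (mem_filter.1 hs).2⟩, h4⟩
  simp only [h1]
  apply tendsto_finsetSum
  intro s _
  exact pat_dens z A hA s

end Pool.Agent.H31.TL
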