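import Pool.Agent.H31.TL.Defs

/-!
# TL Nu: the weights of the states
-/

set_option autoImplicit false

namespace Pool.Agent.H31.TL

open Finset

private theorem al_nonneg (p A i : ℕ) (hp : 2 ≤ p) : 0 ≤ al p A i := by
  have h1 : (2 : ℝ) ≤ p := by exact_mod_cast hp
  have h2 : 1 / (p : ℝ) ≤ 1 := by
    rw [div_le_one (by linarith)]
    linarith
  unfold al
  split_ifs
  · exact div_nonneg (by linarith) (by positivity)
  · positivity

/-- the truncated valuation weights sum to one -/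
theorem al_sum (p A : ℕ) (hp : 2 ≤ p) : ∑ i : Fin (A + 1), al p A i = 1 := by
  have h0 : (2 : ℝ) ≤ p := by exact_mod_cast hp
  have hp0 : (p : ℝ) ≠ 0 := by linarith
  rw [Fin.sum_univ_castSucc]
  have h1 : ∀ i : Fin A, al p A ((Fin.castSucc i : Fin (A + 1)) : ℕ) =
      (1 - 1 / (p : ℝ)) / (p : ℝ) ^ (i : ℕ) := by
    intro i
    unfold al
    rw [if_pos (by simp)]
    simp
  have h2 : al p A ((Fin.last A : Fin (A + 1)) : ℕ) = 1 / (p : ℝ) ^ A := by
    unfold al
    rw [if_neg (by simp)]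
  rw [h2, Finset.sum_congr rfl (fun i _ => h1 i)]
  have h3 : ∀ B : ℕ, ∑ i : Fin B, (1 - 1 / (p : ℝ)) / (p : ℝ) ^ (i : ℕ) =
      1 - 1 / (p : ℝ) ^ B := by
    intro B
    induction B with
    | zero => simp
    | succ B ih =>
      rw [Fin.sum_univ_castSucc]
      simp only [Fin.val_castSucc, Fin.val_last]
      rw [ih]
      field_simp
      ring
  rw [h3]
  ring

theorem nu_nonneg (p A : ℕ) (hp : 2 ≤ p) (s : St A) : 0 ≤ nu p A s := by
  have h1 : (2 : ℝ) ≤ p := by exact_mod_cast hp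
  have h2 : 1 / (p : ℝ) ≤ 1 := by
    rw [div_le_one (by linarith)]
    linarith
  unfold nu
  split_ifs
  · exact mul_nonneg (by linarith) (al_nonneg p A _ hp)
  · exact al_nonneg p A _ hp
  · exact le_rfl

theorem nu_sum (p A : ℕ) (hp : 2 ≤ p) (hA : 1 ≤ A) : ∑ s : St A, nu p A s = 1 := by
  have h0 : (2 : ℝ) ≤ p := by exact_mod_cast hp
  have hs := al_sum p A hp
  rw [Fintype.sum_prod_type, Fin.sum_univ_succ]
  have e1 : ∑ j : Fin (A + 1), nu p A ((0 : Fin (A + 1)), j) = 1 - 1 / (p : ℝ) := by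
    have : ∀ j : Fin (A + 1), nu p A ((0 : Fin (A + 1)), j) = (1 - 1 / (p : ℝ)) * al p A j := by
      intro j
      unfold nu
      simp
    rw [Finset.sum_congr rfl (fun j _ => this j), ← Finset.mul_sum, hs, mul_one]
  have e2 : ∀ i : Fin A, ∑ j : Fin (A + 1), nu p A (i.succ, j) = al p A (i.succ : Fin (A + 1)) := by
    intro i
    rw [Fin.sum_univ_succ]
    have h1 : nu p A (i.succ, (0 : Fin (A + 1))) = al p A (i.succ : Fin (A + 1)) := by
      unfold nu
      simp
    have h2 : ∑ j : Fin A, nu p A (i.succ, j.succ) = 0 := by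
      apply Finset.sum_eq_zero
      intro j _
      unfold nu
      simp
    rw [h1, h2, add_zero]
  rw [e1, Finset.sum_congr rfl (fun i _ => e2 i)]
  rw [Fin.sum_univ_succ] at hs
  have e3 : al p A ((0 : Fin (A + 1)) : ℕ) = 1 - 1 / (p : ℝ) := by
    unfold al
    rw [if_pos (by simp; omega)]
    simp
  linarith

end Pool.Agent.H31.TL
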