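import Pool.Agent.H31.TL.Conc2
import Pool.Agent.H31.TL.Pat
import Pool.Agent.H31.TL.Apx
import Pool.Agent.H31.TL.Supp
import Pool.Agent.H31.DD.Fin

/-!
# TL Lim: the limit law

`sandwich`: `conc` (`t`, `η / 4`), `apx` with `ε' = min (ε2 / 2) (η / 4)`, `z = max z0 z2 2`, `A = z`. For `|s - t| ≤ ε2 / 2`
the sets `w(w(n)) ≤ s n` and `XY ≤ t` differ only in `|w(w(n)) / n - XY| > ε'` or `|XY - t| ≤ ε2`, and the densities of
`XY ≤ t`, `|XY - t| ≤ ε2` exist by `set_dens`.
-/

set_option autoImplicit false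

namespace Pool.Agent.H31.TL

open Finset Filter Topology
open Pool.Agent.H97.WIter (wf)

open Classical in
/-- the proportion of the `n ≤ N` with `w(w(n)) ≤ t n` -/
noncomputable def DN (t : ℝ) (N : ℕ) : ℝ :=
  (((Icc 1 N).filter (fun n => (wf (wf n) : ℝ) ≤ t * n)).card : ℝ) / N

open Classical in
theorem sandwich (t η : ℝ) (hη : 0 < η) : ∃ (ε L : ℝ) (N0 : ℕ), 0 < ε ∧ ∀ N : ℕ, N0 ≤ N →
    ∀ s : ℝ, |s - t| ≤ ε → |DN s N - L| ≤ η := by
  obtain ⟨z2, ε2, hε2, hconc⟩ := conc t (η / 4) (by linarith)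
  obtain ⟨ε', hε'd⟩ : ∃ ε' : ℝ, ε' = min (ε2 / 2) (η / 4) := ⟨_, rfl⟩
  have hε' : 0 < ε' := by rw [hε'd]; exact lt_min (by linarith) (by linarith)
  have hε'1 : ε' ≤ ε2 / 2 := by rw [hε'd]; exact min_le_left _ _
  have hε'2 : ε' ≤ η / 4 := by rw [hε'd]; exact min_le_right _ _
  obtain ⟨z0, hz0⟩ := apx ε' hε'
  obtain ⟨z, hzd⟩ : ∃ z : ℕ, z = max (max z0 z2) 2 := ⟨_, rfl⟩
  have hzz0 : z0 ≤ z := by rw [hzd]; exact le_trans (le_max_left _ _) (le_max_left _ _)
  have hzz2 : z2 ≤ z := by rw [hzd]; exact le_trans (le_max_right _ _) (le_max_left _ _)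
  have hz2 : 2 ≤ z := by rw [hzd]; exact le_max_right _ _
  obtain ⟨N1, hN1⟩ := hz0 z z hzz0 le_rfl
  have h1 := set_dens z z (by omega) (fun s => XX z z s * YY z z s ≤ t)
  have h2 := set_dens z z (by omega) (fun s => |XX z z s * YY z z s - t| ≤ ε2)
  have h3 := hconc z z hzz2 hz2
  obtain ⟨L, hL⟩ : ∃ L : ℝ, L = ∑ s ∈ univ.filter
    (fun s : (p : DD.Pz z) → St z => XX z z s * YY z z s ≤ t), wt z z s := ⟨_, rfl⟩
  rw [← hL] at h1
  obtain ⟨N2, hN2⟩ := (Metric.tendsto_atTop.1 h1) (η / 8) (by linarith)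
  obtain ⟨N3, hN3⟩ := (Metric.tendsto_atTop.1 h2) (η / 8) (by linarith)
  refine ⟨ε2 / 2, L, max 1 (max N1 (max N2 N3)), by linarith, fun N hN s hs => ?_⟩
  simp only [max_le_iff] at hN
  obtain ⟨hNp, hNN1, hNN2, hNN3⟩ := hN
  have hN0 : (0 : ℝ) < N := by exact_mod_cast hNp
  have g1 := hN1 N hNN1
  have g2 := hN2 N hNN2
  have g3 := hN3 N hNN3
  rw [Real.dist_eq] at g2 g3
  set F1 := (Icc 1 N).filter (fun n => (wf (wf n) : ℝ) ≤ s * n) with hF1
  set F2 := (Icc 1 N).filter (fun n => XX z z (pat z z n) * YY z z (pat z z n) ≤ t) with hF2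
  set B1 := (Icc 1 N).filter (fun n => ε' < |(wf (wf n) : ℝ) / n - Xn z z n * Xn z z (wf n)|)
    with hB1
  set B2 := (Icc 1 N).filter (fun n => |XX z z (pat z z n) * YY z z (pat z z n) - t| ≤ ε2) with hB2
  have hkey : ∀ n ∈ Icc 1 N, n ∉ B1 → n ∉ B2 → (n ∈ F1 ↔ n ∈ F2) := by
    intro n hn hn1 hn2
    have hn0 : (0 : ℝ) < n := by exact_mod_cast (mem_Icc.1 hn).1
    rw [hB1, mem_filter] at hn1
    rw [hB2, mem_filter] at hn2
    rw [hF1, hF2, mem_filter, mem_filter, ← div_le_iff₀ hn0]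
    have k1 : |(wf (wf n) : ℝ) / n - Xn z z n * Xn z z (wf n)| ≤ ε' := by
      by_contra hc
      push Not at hc
      exact hn1 ⟨hn, hc⟩
    have k2 : ε2 < |XX z z (pat z z n) * YY z z (pat z z n) - t| := by
      by_contra hc
      push Not at hc
      exact hn2 ⟨hn, hc⟩
    rw [← XX_pat, ← YY_pat] at k1
    have k3 := abs_le.1 k1
    have k4 := abs_le.1 hs
    constructor
    · rintro ⟨_, h5⟩
      refine ⟨hn, ?_⟩
      by_contra hc
      push Not at hc
      rcases lt_abs.1 k2 with h6 | h6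
      · linarith [k3.1, k3.2, k4.1, k4.2]
      · linarith [k3.1, k3.2, k4.1, k4.2]
    · rintro ⟨_, h5⟩
      refine ⟨hn, ?_⟩
      rcases lt_abs.1 k2 with h6 | h6
      · linarith [k3.1, k3.2, k4.1, k4.2]
      · linarith [k3.1, k3.2, k4.1, k4.2]
  have hsub1 : F1 ⊆ F2 ∪ (B1 ∪ B2) := by
    intro n hn
    have hnI : n ∈ Icc 1 N := (mem_filter.1 hn).1
    by_cases h5 : n ∈ B1
    · exact mem_union_right _ (mem_union_left _ h5)
    · by_cases h6 : n ∈ B2
      · exact mem_union_right _ (mem_union_right _ h6)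
      · exact mem_union_left _ ((hkey n hnI h5 h6).1 hn)
  have hsub2 : F2 ⊆ F1 ∪ (B1 ∪ B2) := by
    intro n hn
    have hnI : n ∈ Icc 1 N := (mem_filter.1 hn).1
    by_cases h5 : n ∈ B1
    · exact mem_union_right _ (mem_union_left _ h5)
    · by_cases h6 : n ∈ B2
      · exact mem_union_right _ (mem_union_right _ h6)
      · exact mem_union_left _ ((hkey n hnI h5 h6).2 hn)
  have hc1 : (F1.card : ℝ) ≤ F2.card + (B1.card + B2.card) := by
    have a1 := card_le_card hsub1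
    have a2 := card_union_le F2 (B1 ∪ B2)
    have a3 := card_union_le B1 B2
    exact_mod_cast a1.trans (a2.trans (by omega))
  have hc2 : (F2.card : ℝ) ≤ F1.card + (B1.card + B2.card) := by
    have a1 := card_le_card hsub2
    have a2 := card_union_le F1 (B1 ∪ B2)
    have a3 := card_union_le B1 B2
    exact_mod_cast a1.trans (a2.trans (by omega))
  have hd1 : (B1.card : ℝ) / N ≤ η / 4 := by
    rw [div_le_iff₀ hN0]
    exact g1.trans (mul_le_mul_of_nonneg_right hε'2 hN0.le)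
  have hd2 : (B2.card : ℝ) / N ≤ η / 4 + η / 8 := by
    have := (abs_lt.1 g3).2
    linarith
  have hd3 : |(F1.card : ℝ) / N - F2.card / N| ≤ (B1.card : ℝ) / N + B2.card / N := by
    rw [← sub_div, ← add_div, abs_le]
    constructor
    · rw [← neg_div]
      apply div_le_div_of_nonneg_right _ hN0.le
      linarith
    · apply div_le_div_of_nonneg_right _ hN0.le
      linarith
  have hd4 : |DN s N - L| ≤ |(F1.card : ℝ) / N - F2.card / N| + |(F2.card : ℝ) / N - L| := by
    have : DN s N = (F1.card : ℝ) / N := rfl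
    rw [this]
    exact abs_sub_le _ _ _
  linarith

theorem DN_nonneg (t : ℝ) (N : ℕ) : 0 ≤ DN t N := by
  unfold DN
  positivity

open Classical in
theorem DN_le_one (t : ℝ) (N : ℕ) : DN t N ≤ 1 := by
  unfold DN
  rcases Nat.eq_zero_or_pos N with h | h
  · subst h
    simp
  · have hN0 : (0 : ℝ) < N := by exact_mod_cast h
    rw [div_le_one hN0]
    have h1 := card_filter_le (Icc 1 N) (fun n => (wf (wf n) : ℝ) ≤ t * n)
    rw [Nat.card_Icc, Nat.add_sub_cancel] at h1
    exact_mod_cast h1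

open Classical in
theorem DN_mono (N : ℕ) {s t : ℝ} (hst : s ≤ t) : DN s N ≤ DN t N := by
  unfold DN
  apply div_le_div_of_nonneg_right _ (Nat.cast_nonneg N)
  have h1 : (Icc 1 N).filter (fun n => (wf (wf n) : ℝ) ≤ s * n) ⊆
      (Icc 1 N).filter (fun n => (wf (wf n) : ℝ) ≤ t * n) := by
    intro n hn
    rw [mem_filter] at hn ⊢
    exact ⟨hn.1, hn.2.trans (mul_le_mul_of_nonneg_right hst (Nat.cast_nonneg n))⟩
  exact_mod_cast card_le_card h1

theorem exists_limit (t : ℝ) : ∃ L : ℝ, Tendsto (DN t) atTop (𝓝 L) := by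
  apply cauchySeq_tendsto_of_complete
  rw [Metric.cauchySeq_iff']
  intro ε hε
  obtain ⟨ε1, L, N0, hε1, h⟩ := sandwich t (ε / 3) (by linarith)
  refine ⟨N0, fun n hn => ?_⟩
  have h1 := h n hn t (by rw [sub_self, abs_zero]; exact hε1.le)
  have h2 := h N0 le_rfl t (by rw [sub_self, abs_zero]; exact hε1.le)
  rw [Real.dist_eq]
  have h3 := abs_le.1 h1
  have h4 := abs_le.1 h2
  rw [abs_lt]
  constructor <;> linarith [h3.1, h3.2, h4.1, h4.2]

open Classical in
theorem supp (a b : ℝ) (ha : 0 ≤ a) (hab : a < b) : ∃ c : ℝ, 0 < c ∧ ∃ N0 : ℕ, ∀ N : ℕ, N0 ≤ N →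
    DN a N + c ≤ DN b N := by
  obtain ⟨c, ε, z1, hc, hε, hsm⟩ := supp_model a b ha hab
  obtain ⟨ε', hε'd⟩ : ∃ ε' : ℝ, ε' = min (ε / 2) (c / 16) := ⟨_, rfl⟩
  have hε' : 0 < ε' := by rw [hε'd]; exact lt_min (by linarith) (by linarith)
  have hε'1 : ε' ≤ ε / 2 := by rw [hε'd]; exact min_le_left _ _
  have hε'2 : ε' ≤ c / 16 := by rw [hε'd]; exact min_le_right _ _
  obtain ⟨z0, hz0⟩ := apx ε' hε'
  obtain ⟨z, hzd⟩ : ∃ z : ℕ, z = max (max z0 z1) 2 := ⟨_, rfl⟩
  have hzz0 : z0 ≤ z := by rw [hzd]; exact le_trans (le_max_left _ _) (le_max_left _ _)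
  have hzz2 : z1 ≤ z := by rw [hzd]; exact le_trans (le_max_right _ _) (le_max_left _ _)
  have hz2 : 2 ≤ z := by rw [hzd]; exact le_max_right _ _
  obtain ⟨N1, hN1⟩ := hz0 z z hzz0 le_rfl
  have h2 := set_dens z z (by omega)
    (fun s => a + ε ≤ XX z z s * YY z z s ∧ XX z z s * YY z z s ≤ b - ε)
  have h3 := hsm z z hzz2 hz2
  obtain ⟨N3, hN3⟩ := (Metric.tendsto_atTop.1 h2) (c / 4) (by linarith)
  refine ⟨c / 2, by linarith, max 1 (max N1 N3), fun N hN => ?_⟩
  simp only [max_le_iff] at hN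
  obtain ⟨hNp, hNN1, hNN3⟩ := hN
  have hN0 : (0 : ℝ) < N := by exact_mod_cast hNp
  have g1 := hN1 N hNN1
  have g3 := hN3 N hNN3
  rw [Real.dist_eq] at g3
  set Fa := (Icc 1 N).filter (fun n => (wf (wf n) : ℝ) ≤ a * n) with hFa
  set Fb := (Icc 1 N).filter (fun n => (wf (wf n) : ℝ) ≤ b * n) with hFb
  set B1 := (Icc 1 N).filter (fun n => ε' < |(wf (wf n) : ℝ) / n - Xn z z n * Xn z z (wf n)|)
    with hB1
  set B2 := (Icc 1 N).filter (fun n => a + ε ≤ XX z z (pat z z n) * YY z z (pat z z n) ∧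
    XX z z (pat z z n) * YY z z (pat z z n) ≤ b - ε) with hB2
  have hsub : B2 ∪ Fa ⊆ Fb ∪ B1 := by
    intro n hn
    rw [mem_union] at hn ⊢
    rcases hn with hn | hn
    · by_cases h5 : n ∈ B1
      · exact Or.inr h5
      · left
        rw [hB2, mem_filter] at hn
        have hn0 : (0 : ℝ) < n := by exact_mod_cast (mem_Icc.1 hn.1).1
        rw [hB1, mem_filter] at h5
        have k1 : |(wf (wf n) : ℝ) / n - Xn z z n * Xn z z (wf n)| ≤ ε' := by
          by_contra hc'
          push Not at hc'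
          exact h5 ⟨hn.1, hc'⟩
        rw [← XX_pat, ← YY_pat] at k1
        have k3 := abs_le.1 k1
        rw [hFb, mem_filter, ← div_le_iff₀ hn0]
        exact ⟨hn.1, by linarith [k3.1, k3.2, hn.2.1, hn.2.2]⟩
    · left
      rw [hFa, mem_filter] at hn
      rw [hFb, mem_filter]
      exact ⟨hn.1, hn.2.trans (mul_le_mul_of_nonneg_right hab.le (Nat.cast_nonneg n))⟩
  have hdis : (B2 ∩ Fa).card ≤ B1.card := by
    apply card_le_card
    intro n hn
    rw [mem_inter] at hn
    by_contra h5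
    obtain ⟨h6, h7⟩ := hn
    rw [hB2, mem_filter] at h6
    have hn0 : (0 : ℝ) < n := by exact_mod_cast (mem_Icc.1 h6.1).1
    rw [hFa, mem_filter, ← div_le_iff₀ hn0] at h7
    rw [hB1, mem_filter] at h5
    have k1 : |(wf (wf n) : ℝ) / n - Xn z z n * Xn z z (wf n)| ≤ ε' := by
      by_contra hc'
      push Not at hc'
      exact h5 ⟨h6.1, hc'⟩
    rw [← XX_pat, ← YY_pat] at k1
    have k3 := abs_le.1 k1
    linarith [k3.1, k3.2, h6.2.1, h6.2.2, h7.2]
  have e1 : B2.card + Fa.card ≤ Fb.card + 2 * B1.card := by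
    have a1 := card_union_add_card_inter B2 Fa
    have a2 := card_le_card hsub
    have a3 := card_union_le Fb B1
    omega
  have e2 : (B2.card : ℝ) + Fa.card ≤ Fb.card + 2 * B1.card := by exact_mod_cast e1
  have e3 : (B1.card : ℝ) / N ≤ c / 16 := by
    rw [div_le_iff₀ hN0]
    exact g1.trans (mul_le_mul_of_nonneg_right hε'2 hN0.le)
  have g3' : |(B2.card : ℝ) / N - ∑ s ∈ univ.filter (fun s : (p : DD.Pz z) → St z =>
      a + ε ≤ XX z z s * YY z z s ∧ XX z z s * YY z z s ≤ b - ε), wt z z s| < c / 4 := by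
    convert g3
  have e4 : c - c / 4 ≤ (B2.card : ℝ) / N := by
    have := (abs_lt.1 g3').1
    linarith
  have e5 : (B2.card : ℝ) / N + Fa.card / N ≤ Fb.card / N + 2 * (B1.card / N) := by
    rw [← add_div, mul_div_assoc', ← add_div]
    exact div_le_div_of_nonneg_right e2 hN0.le
  have e6 : DN a N = (Fa.card : ℝ) / N := rfl
  have e7 : DN b N = (Fb.card : ℝ) / N := rfl
  rw [e6, e7]
  linarith

open Classical in
theorem law : ∃ F : ℝ → ℝ, Continuous F ∧ (∀ t, Tendsto (DN t) atTop (𝓝 (F t))) ∧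
    (∀ t ≤ 0, F t = 0) ∧ StrictMonoOn F (Set.Ici 0) ∧ Tendsto F atTop (𝓝 1) ∧
    1 - 1 / 10 ^ 80 ≤ F 1 := by
  choose F hF using exists_limit
  have hcont : Continuous F := by
    rw [Metric.continuous_iff]
    intro t ε hε
    obtain ⟨ε1, L, N0, hε1, h⟩ := sandwich t (ε / 3) (by linarith)
    have key : ∀ s, |s - t| ≤ ε1 → |F s - L| ≤ ε / 3 := by
      intro s hs
      have h1 : Tendsto (fun N => |DN s N - L|) atTop (𝓝 |F s - L|) :=
        ((hF s).sub_const L).abs
      exact le_of_tendsto h1 (eventually_atTop.2 ⟨N0, fun N hN => h N hN s hs⟩)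
    refine ⟨ε1, hε1, fun s hs => ?_⟩
    rw [Real.dist_eq] at hs ⊢
    have h1 := abs_le.1 (key s hs.le)
    have h2 := abs_le.1 (key t (by rw [sub_self, abs_zero]; exact hε1.le))
    rw [abs_lt]
    constructor <;> linarith [h1.1, h1.2, h2.1, h2.2]
  have hneg : ∀ t < 0, F t = 0 := by
    intro t ht
    have h1 : ∀ N, DN t N = 0 := by
      intro N
      unfold DN
      have : (Icc 1 N).filter (fun n => (wf (wf n) : ℝ) ≤ t * n) = ∅ := by
        apply filter_eq_empty_iff.2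
        intro n hn
        rw [not_le]
        have hn0 : (0 : ℝ) < n := by exact_mod_cast (mem_Icc.1 hn).1
        have h2 : t * n < 0 := mul_neg_of_neg_of_pos ht hn0
        have h3 : (0 : ℝ) ≤ (wf (wf n) : ℝ) := Nat.cast_nonneg _
        linarith
      rw [this]
      simp
    have h2 : Tendsto (DN t) atTop (𝓝 0) := by
      have : DN t = fun _ => 0 := funext h1
      rw [this]
      exact tendsto_const_nhds
    exact tendsto_nhds_unique (hF t) h2
  have hzero : F 0 = 0 := by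
    have h1 : Tendsto F (𝓝[<] 0) (𝓝 (F 0)) := hcont.continuousAt.tendsto.mono_left nhdsWithin_le_nhds
    have h2 : Tendsto F (𝓝[<] 0) (𝓝 0) := by
      apply Tendsto.congr' _ tendsto_const_nhds
      filter_upwards [self_mem_nhdsWithin] with t ht
      exact (hneg t ht).symm
    exact tendsto_nhds_unique h1 h2
  have hmono : Monotone F := by
    intro s t hst
    exact le_of_tendsto_of_tendsto' (hF s) (hF t) (fun N => DN_mono N hst)
  have hle : ∀ t, F t ≤ 1 := fun t => le_of_tendsto' (hF t) (fun N => DN_le_one t N)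
  refine ⟨F, hcont, hF, ?_, ?_, ?_, ?_⟩
  · intro t ht
    rcases lt_or_eq_of_le ht with h | h
    · exact hneg t h
    · rw [h, hzero]
  · intro a ha b _ hab
    obtain ⟨c, hc, N0, h⟩ := supp a b ha hab
    have h1 : Tendsto (fun N => DN a N + c) atTop (𝓝 (F a + c)) := (hF a).add_const c
    have h2 : F a + c ≤ F b :=
      le_of_tendsto_of_tendsto h1 (hF b) (eventually_atTop.2 ⟨N0, h⟩)
    linarith
  · rw [Metric.tendsto_atTop]
    intro ε hε
    obtain ⟨K, N0, h⟩ := tight (ε / 2) (by linarith)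
    refine ⟨K, fun t ht => ?_⟩
    have h1 : 1 - ε / 2 ≤ F K := by
      apply ge_of_tendsto (hF K)
      rw [eventually_atTop]
      refine ⟨max 1 N0, fun N hN => ?_⟩
      have hNp : 1 ≤ N := le_trans (le_max_left _ _) hN
      have hN0 : (0 : ℝ) < N := by exact_mod_cast hNp
      have h2 := h N (le_trans (le_max_right _ _) hN)
      have h3 : ((Icc 1 N).filter (fun n => (wf (wf n) : ℝ) ≤ K * n)).card +
          ((Icc 1 N).filter (fun n => K * n < (wf (wf n) : ℝ))).card = N := by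
        have h4 := card_filter_add_card_filter_not (s := Icc 1 N)
          (fun n => (wf (wf n) : ℝ) ≤ K * n)
        rw [Nat.card_Icc, Nat.add_sub_cancel] at h4
        simp only [not_le] at h4
        exact h4
      have h5 : (((Icc 1 N).filter (fun n => (wf (wf n) : ℝ) ≤ K * n)).card : ℝ) +
          ((Icc 1 N).filter (fun n => K * n < (wf (wf n) : ℝ))).card = N := by
        exact_mod_cast h3
      unfold DN
      rw [le_div_iff₀ hN0]
      linarith
    have h2 := hmono ht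
    have h3 := hle t
    rw [Real.dist_eq, abs_lt]
    constructor <;> linarith
  · obtain ⟨N0, h⟩ := DD.main
    apply ge_of_tendsto (hF 1)
    rw [eventually_atTop]
    refine ⟨max 1 N0, fun N hN => ?_⟩
    have hNp : 1 ≤ N := le_trans (le_max_left _ _) hN
    have hN0 : (0 : ℝ) < N := by exact_mod_cast hNp
    have h2 := h N (le_trans (le_max_right _ _) hN)
    have h3 : N ≤ ((Icc 1 N).filter (fun n => (wf (wf n) : ℝ) ≤ 1 * n)).card +
        ((Icc 1 N).filter (fun n => n ≤ wf (wf n))).card := by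
      have h4 : Icc 1 N ⊆ (Icc 1 N).filter (fun n => (wf (wf n) : ℝ) ≤ 1 * n) ∪
          (Icc 1 N).filter (fun n => n ≤ wf (wf n)) := by
        intro n hn
        rw [mem_union, mem_filter, mem_filter]
        rcases le_total (wf (wf n)) n with h5 | h5
        · left
          refine ⟨hn, ?_⟩
          rw [one_mul]
          exact_mod_cast h5
        · exact Or.inr ⟨hn, h5⟩
      have h5 := (card_le_card h4).trans (card_union_le _ _)
      rw [Nat.card_Icc, Nat.add_sub_cancel] at h5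
      exact h5
    have h6 : (N : ℝ) ≤ ((Icc 1 N).filter (fun n => (wf (wf n) : ℝ) ≤ 1 * n)).card +
        ((Icc 1 N).filter (fun n => n ≤ wf (wf n))).card := by exact_mod_cast h3
    unfold DN
    rw [le_div_iff₀ hN0]
    have h7 : (1 - 1 / 10 ^ 80 : ℝ) * N = N - N / 10 ^ 80 := by ring
    rw [h7]
    linarith

end Pool.Agent.H31.TL
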