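import Pool.Agent.H31.TL.Conc
import Pool.Agent.H31.TL.Nu

/-!
# TL Low: two exceptional sets of patterns

`low`: a pattern with `YY < y0` has no prime `p ≤ 1 / y0` in the state `(0, 1)`, and
`nu p A (0, 1) = (1 - 1/p)² / p ≥ 1 / (4 p)` for `A ≥ 2`, so by `pm_box` the weight is at most
`∏_(p ≤ 1/y0) (1 - 1 / (4 p)) ≤ exp (- (1/4) ∑ 1 / p)`, small for small `y0` because `∑ 1 / p` diverges
(`Nat.Primes.not_summable_one_div`); take `z1 ≥ 1 / y0`.
`many`: `pm_markov` with `r p = 1 / p`: `1 - nu p A (0,0) = 1 - (1 - 1/p)² ≤ 2 / p`, `∑ (1/p) (2/p) ≤ 4`.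
-/

set_option autoImplicit false

namespace Pool.Agent.H31.TL

open Finset

private theorem two_le_Pz {z : ℕ} (p : DD.Pz z) : 2 ≤ (p : ℕ) := (DD.mem_Pz.mp p.2).2.two_le

private theorem nu_zero_one {p A : ℕ} (hp : 2 ≤ p) (hA : 2 ≤ A) :
    1 / (4 * (p : ℝ)) ≤ nu p A ((0 : Fin (A + 1)), (⟨1, by omega⟩ : Fin (A + 1))) := by
  have h2 : (2 : ℝ) ≤ p := by exact_mod_cast hp
  have hp0 : (0 : ℝ) < p := by linarith
  have h3 : 1 / (p : ℝ) ≤ 1 / 2 := one_div_le_one_div_of_le (by norm_num) h2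
  unfold nu al
  simp only [Fin.val_zero, if_true]
  rw [if_pos (by omega : 1 < A), pow_one]
  have h4 : (1 : ℝ) / 4 ≤ (1 - 1 / (p : ℝ)) * (1 - 1 / (p : ℝ)) := by nlinarith
  calc 1 / (4 * (p : ℝ)) = (1 / 4) / p := by field_simp
    _ ≤ ((1 - 1 / (p : ℝ)) * (1 - 1 / (p : ℝ))) / p := div_le_div_of_nonneg_right h4 hp0.le
    _ = _ := by ring

private theorem nu_zero_zero {p A : ℕ} (hp : 2 ≤ p) (hA : 2 ≤ A) :
    1 - nu p A ((0 : Fin (A + 1)), (0 : Fin (A + 1))) ≤ 2 / (p : ℝ) := by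
  have h2 : (2 : ℝ) ≤ p := by exact_mod_cast hp
  have hp0 : (0 : ℝ) < p := by linarith
  unfold nu al
  simp only [Fin.val_zero, if_true]
  rw [if_pos (by omega : 0 < A), pow_zero, div_one]
  have h4 : (0 : ℝ) ≤ 1 / p * (1 / p) := by positivity
  have h5 : (1 : ℝ) - (1 - 1 / p) * (1 - 1 / p) = 2 / p - 1 / p * (1 / p) := by ring
  linarith

private theorem el_nonneg (p i : ℕ) : 0 ≤ el p i := by
  unfold el
  split_ifs
  · exact le_rfl
  · positivity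

private theorem prime_sum_large (C : ℝ) : ∃ n : ℕ, C ≤
    ∑ p ∈ (range n).filter Nat.Prime, 1 / (p : ℝ) := by
  have h1 := not_summable_one_div_on_primes
  rw [not_summable_iff_tendsto_nat_atTop_of_nonneg] at h1
  · obtain ⟨n, hn⟩ := (h1.eventually_ge_atTop C).exists
    refine ⟨n, hn.trans (le_of_eq ?_)⟩
    rw [Finset.sum_filter]
    refine Finset.sum_congr rfl fun i _ => ?_
    rw [Set.indicator_apply]
    rfl
  · intro n
    rw [Set.indicator_apply]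
    split_ifs
    · positivity
    · exact le_rfl

open Classical in
theorem low (η : ℝ) (hη : 0 < η) : ∃ (y0 : ℝ) (z1 : ℕ), 0 < y0 ∧ ∀ z A : ℕ, z1 ≤ z → 2 ≤ A →
    ∑ s ∈ univ.filter (fun s : (p : DD.Pz z) → St A => YY z A s < y0), wt z A s ≤ η := by
  obtain ⟨n, hn⟩ := prime_sum_large (-(4 * Real.log η))
  refine ⟨1 / ((n : ℝ) + 1), n, by positivity, fun z A hz hA => ?_⟩
  obtain ⟨J, hJ⟩ : ∃ J : Finset (DD.Pz z), J = univ.filter (fun p : DD.Pz z => (p : ℕ) < n) :=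
    ⟨_, rfl⟩
  obtain ⟨t, ht⟩ : ∃ t : St A, t = ((0 : Fin (A + 1)), (⟨1, by omega⟩ : Fin (A + 1))) := ⟨_, rfl⟩
  have hbox := pm_box (fun (p : DD.Pz z) (a : St A) => nu (p : ℕ) A a)
    (fun p a => nu_nonneg _ A (two_le_Pz p) a) (fun p => nu_sum _ A (two_le_Pz p) (by omega)) J
    (fun _ => univ.erase t)
  have h1 : ∑ s ∈ univ.filter (fun s : (p : DD.Pz z) → St A => YY z A s < 1 / ((n : ℝ) + 1)),
      wt z A s ≤ ∑ s ∈ univ.filter (fun s : (p : DD.Pz z) → St A =>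
        ∀ i ∈ J, s i ∈ univ.erase t), ∏ i : DD.Pz z, nu (i : ℕ) A (s i) := by
    refine Finset.sum_le_sum_of_subset_of_nonneg ?_ ?_
    · intro s hs
      rw [mem_filter] at hs ⊢
      refine ⟨mem_univ _, fun i hi => ?_⟩
      rw [mem_erase]
      refine ⟨fun hst => ?_, mem_univ _⟩
      rw [hJ, mem_filter] at hi
      have h2 : el (i : ℕ) ((s i).2 : ℕ) ≤ YY z A s := by
        unfold YY
        exact Finset.single_le_sum (f := fun p : DD.Pz z => el (p : ℕ) ((s p).2 : ℕ))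
          (fun p _ => el_nonneg _ _) (mem_univ i)
      have h3 : el (i : ℕ) ((s i).2 : ℕ) = 1 / ((i : ℕ) : ℝ) := by
        rw [hst, ht]
        unfold el
        simp
      have h4 : 1 / ((n : ℝ) + 1) ≤ 1 / ((i : ℕ) : ℝ) := by
        refine one_div_le_one_div_of_le ?_ ?_
        · have := two_le_Pz i
          exact_mod_cast (by omega : 0 < (i : ℕ))
        · have : (i : ℕ) ≤ n + 1 := by omega
          exact_mod_cast this
      linarith [hs.2]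
    · intro s _ _
      exact Finset.prod_nonneg fun p _ => nu_nonneg _ A (two_le_Pz p) _
  have h2 : ∏ i ∈ J, ∑ a ∈ univ.erase t, nu (i : ℕ) A a ≤
      ∏ i ∈ J, Real.exp (-(1 / 4 * (1 / ((i : ℕ) : ℝ)))) := by
    refine Finset.prod_le_prod (fun i _ => Finset.sum_nonneg fun a _ =>
      nu_nonneg _ A (two_le_Pz i) a) fun i _ => ?_
    have h3 := Finset.add_sum_erase univ (fun a => nu (i : ℕ) A a) (mem_univ t)
    rw [nu_sum _ A (two_le_Pz i) (by omega)] at h3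
    have h4 := nu_zero_one (two_le_Pz i) hA
    rw [← ht] at h4
    have h5 := Real.add_one_le_exp (-(1 / 4 * (1 / ((i : ℕ) : ℝ))))
    have h6 : 1 / (4 * ((i : ℕ) : ℝ)) = 1 / 4 * (1 / ((i : ℕ) : ℝ)) := by
      rw [one_div_mul_one_div]
    rw [h6] at h4
    linarith
  have h3 : ∏ i ∈ J, Real.exp (-(1 / 4 * (1 / ((i : ℕ) : ℝ)))) =
      Real.exp (-(1 / 4 * ∑ i ∈ J, 1 / ((i : ℕ) : ℝ))) := by
    rw [← Real.exp_sum, Finset.sum_neg_distrib, Finset.mul_sum]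
  have h4 : ∑ i ∈ J, 1 / ((i : ℕ) : ℝ) = ∑ p ∈ (range n).filter Nat.Prime, 1 / (p : ℝ) := by
    rw [hJ, Finset.sum_filter, Finset.sum_coe_sort (DD.Pz z)
      (fun p => if p < n then 1 / (p : ℝ) else 0), ← Finset.sum_filter]
    refine Finset.sum_congr ?_ fun _ _ => rfl
    ext p
    simp only [mem_filter, mem_range, DD.mem_Pz]
    constructor
    · rintro ⟨⟨-, h5⟩, h6⟩
      exact ⟨h6, h5⟩
    · rintro ⟨h5, h6⟩
      exact ⟨⟨by omega, h6⟩, h5⟩
  have h5 : Real.exp (-(1 / 4 * ∑ i ∈ J, 1 / ((i : ℕ) : ℝ))) ≤ η := by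
    rw [h4]
    calc Real.exp (-(1 / 4 * ∑ p ∈ (range n).filter Nat.Prime, 1 / (p : ℝ)))
        ≤ Real.exp (Real.log η) := by
          rw [Real.exp_le_exp]
          linarith
      _ = η := Real.exp_log hη
  calc _ ≤ _ := h1
    _ ≤ _ := hbox
    _ ≤ _ := h2
    _ = _ := h3
    _ ≤ η := h5

open Classical in
theorem many (η : ℝ) (hη : 0 < η) : ∃ K : ℝ, 0 ≤ K ∧ ∀ z A : ℕ, 2 ≤ A →
    ∑ s ∈ univ.filter (fun s : (p : DD.Pz z) → St A =>
      K < ∑ p ∈ univ.filter (fun p : DD.Pz z => s p ≠ (0, 0)), 1 / ((p : ℕ) : ℝ)), wt z A s ≤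
      η := by
  refine ⟨4 / η, by positivity, fun z A hA => ?_⟩
  have h1 := pm_markov (fun (p : DD.Pz z) (a : St A) => nu (p : ℕ) A a)
    (fun p a => nu_nonneg _ A (two_le_Pz p) a) (fun p => nu_sum _ A (two_le_Pz p) (by omega))
    (fun p => 1 / ((p : ℕ) : ℝ)) (fun p => by positivity)
    ((0 : Fin (A + 1)), (0 : Fin (A + 1))) (4 / η) (by positivity)
  have h2 : ∑ i : DD.Pz z, 1 / ((i : ℕ) : ℝ) *
      (1 - nu (i : ℕ) A ((0 : Fin (A + 1)), (0 : Fin (A + 1)))) ≤ 4 := by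
    have h3 : ∀ i : DD.Pz z, 1 / ((i : ℕ) : ℝ) *
        (1 - nu (i : ℕ) A ((0 : Fin (A + 1)), (0 : Fin (A + 1)))) ≤
        2 * (((i : ℕ) : ℝ) ^ 2)⁻¹ := by
      intro i
      have h4 := mul_le_mul_of_nonneg_left (nu_zero_zero (two_le_Pz i) hA)
        (by positivity : 0 ≤ 1 / ((i : ℕ) : ℝ))
      refine h4.trans (le_of_eq ?_)
      have : (0 : ℝ) < ((i : ℕ) : ℝ) := by
        have := two_le_Pz i
        exact_mod_cast (by omega : 0 < (i : ℕ))
      field_simp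
    refine (Finset.sum_le_sum fun i _ => h3 i).trans ?_
    rw [← Finset.mul_sum, Finset.sum_coe_sort (DD.Pz z) (fun p => (((p : ℕ) : ℝ) ^ 2)⁻¹)]
    have h5 : ∑ p ∈ DD.Pz z, (((p : ℕ) : ℝ) ^ 2)⁻¹ ≤ ∑ p ∈ Ioc 1 (z + 1), (((p : ℕ) : ℝ) ^ 2)⁻¹ := by
      refine Finset.sum_le_sum_of_subset_of_nonneg ?_ fun _ _ _ => by positivity
      intro p hp
      rw [DD.mem_Pz] at hp
      rw [mem_Ioc]
      exact ⟨hp.2.one_lt, by omega⟩
    have h6 := sum_Ioc_inv_sq_le_sub (α := ℝ) (k := 1) (n := z + 1) one_ne_zero (by omega)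
    have h7 : (0 : ℝ) ≤ ((z + 1 : ℕ) : ℝ)⁻¹ := by positivity
    rw [Nat.cast_one, inv_one] at h6
    linarith
  have h8 : 4 / η * ∑ s ∈ univ.filter (fun s : (p : DD.Pz z) → St A =>
      4 / η < ∑ p ∈ univ.filter (fun p : DD.Pz z => s p ≠ (0, 0)), 1 / ((p : ℕ) : ℝ)),
      wt z A s ≤ 4 := by
    refine le_trans (le_of_eq ?_) (h1.trans h2)
    rfl
  have h9 : 4 / η * ∑ s ∈ univ.filter (fun s : (p : DD.Pz z) → St A =>
      4 / η < ∑ p ∈ univ.filter (fun p : DD.Pz z => s p ≠ (0, 0)), 1 / ((p : ℕ) : ℝ)),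
      wt z A s ≤ 4 / η * η := by
    refine h8.trans (le_of_eq ?_)
    field_simp
  exact le_of_mul_le_mul_left h9 (by positivity)

end Pool.Agent.H31.TL
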