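import Pool.Agent.H31.TL.Dens
import Pool.Agent.H31.TL.Nu

/-!
# TL PatD: the density of a pattern

For `n ≥ 2` the indicator of `pat z A n = s` is the product over `p ∈ Pz z` of
`(1_(p^i ∣ n) - [i < A] 1_(p^(i+1) ∣ n)) (1_(p^j ∣ w(n)) - [j < A] 1_(p^(j+1) ∣ w(n)))`, `(i, j) = s p`.
Proof by induction over the set of primes `T`: the mean of the indicator of `d ∣ n`, `e ∣ w(n)` times
the local indicators at the primes of `T` is `rho d e * ∏_(p ∈ T) nu p A (s p)` whenever no prime of `T`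
divides `d e`.  One more prime: four terms, `rho (d p^i) (e p^j) = rho d e * rho (p^i) (p^j)`.
(`n = 1` does not matter.)
-/

set_option autoImplicit false

namespace Pool.Agent.H31.TL

open Finset Filter Topology
open Pool.Agent.H97.WIter (wf)

/-- the indicator of `d ∣ n ∧ e ∣ w(n)` -/
private noncomputable def ind (d e n : ℕ) : ℝ := if d ∣ n ∧ e ∣ wf n then 1 else 0

/-- the indicator of the state `t` at the prime `p` -/
private noncomputable def loc (p A : ℕ) (t : St A) (n : ℕ) : ℝ :=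
  if vt A n p = t.1 ∧ vt A (wf n) p = t.2 then 1 else 0

/-- the real mean -/
private noncomputable def mr (f : ℕ → ℝ) (N : ℕ) : ℝ := (∑ n ∈ Icc 1 N, f n) / N

private theorem mr_congr (f g : ℕ → ℝ) (a : ℝ) (h : ∀ n, 2 ≤ n → f n = g n)
    (hf : Tendsto (mr f) atTop (𝓝 a)) : Tendsto (mr g) atTop (𝓝 a) := by
  have h0 : Tendsto (fun N : ℕ => (g 1 - f 1) / (N : ℝ)) atTop (𝓝 0) :=
    tendsto_const_div_atTop_nhds_zero_nat _
  have h1 := hf.add h0
  rw [add_zero] at h1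
  refine h1.congr' ?_
  filter_upwards [eventually_ge_atTop 1] with N hN
  unfold mr
  rw [← add_div]
  congr 1
  have e1 : ∀ q : ℕ → ℝ, ∑ n ∈ Icc 1 N, q n = q 1 + ∑ n ∈ Ioc 1 N, q n := by
    intro q
    rw [← Finset.Ioc_insert_left hN, Finset.sum_insert (by simp)]
  rw [e1, e1, Finset.sum_congr rfl (fun n hn => h n (by rw [Finset.mem_Ioc] at hn; omega))]
  ring

private theorem wf_ne_zero {n : ℕ} (hn : 2 ≤ n) : wf n ≠ 0 := by
  intro h
  unfold wf at h
  rw [Finset.sum_eq_zero_iff] at h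
  obtain ⟨p, hp, hpn⟩ := Nat.exists_prime_and_dvd (show n ≠ 1 by omega)
  have h1 := h p (Nat.mem_primeFactors.mpr ⟨hp, hpn, by omega⟩)
  have h2 : p ^ n.factorization p ∣ n := Nat.ordProj_dvd n p
  have h3 : 0 < n / p ^ n.factorization p := Nat.div_pos (Nat.le_of_dvd (by omega) h2)
    (pow_pos hp.pos _)
  omega

private theorem vt_ind (A k p : ℕ) (hp : p.Prime) (hk : k ≠ 0) (i : Fin (A + 1)) :
    (if vt A k p = i then (1 : ℝ) else 0) = (if p ^ (i : ℕ) ∣ k then (1 : ℝ) else 0)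
      - (if (i : ℕ) < A then (1 : ℝ) else 0) * (if p ^ ((i : ℕ) + 1) ∣ k then (1 : ℝ) else 0) := by
  have hv : vt A k p = i ↔ min (k.factorization p) A = (i : ℕ) := by
    unfold vt
    rw [Fin.ext_iff]
  have hi : (i : ℕ) ≤ A := Nat.lt_succ_iff.mp i.isLt
  have h1 : p ^ (i : ℕ) ∣ k ↔ (i : ℕ) ≤ k.factorization p := hp.pow_dvd_iff_le_factorization hk
  have h2 : p ^ ((i : ℕ) + 1) ∣ k ↔ (i : ℕ) + 1 ≤ k.factorization p :=
    hp.pow_dvd_iff_le_factorization hk
  simp only [hv, h1, h2]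
  generalize (i : ℕ) = a at *
  generalize k.factorization p = b at *
  rcases Nat.lt_or_ge a A with ha | ha
  · rcases lt_trichotomy a b with hb | hb | hb
    · rw [if_neg (by omega), if_pos (by omega), if_pos ha, if_pos (by omega)]; ring
    · rw [if_pos (by omega), if_pos (by omega), if_pos ha, if_neg (by omega)]; ring
    · rw [if_neg (by omega), if_neg (by omega), if_pos ha, if_neg (by omega)]; ring
  · rw [if_neg (show ¬ a < A by omega)]
    rcases Nat.lt_or_ge b a with hb | hb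
    · rw [if_neg (by omega), if_neg (by omega)]; ring
    · rw [if_pos (by omega), if_pos (by omega)]; ring

private theorem mul_dvd_iff' (p d k n : ℕ) (hp : p.Prime) (hd : ¬ p ∣ d) :
    d * p ^ k ∣ n ↔ d ∣ n ∧ p ^ k ∣ n := by
  have hc : Nat.Coprime d (p ^ k) := ((Nat.Prime.coprime_iff_not_dvd hp).mpr hd).symm.pow_right k
  constructor
  · intro h
    exact ⟨(Dvd.intro _ rfl).trans h, (Dvd.intro_left _ rfl).trans h⟩
  · rintro ⟨h1, h2⟩
    exact hc.mul_dvd_of_dvd_of_dvd h1 h2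

private theorem ind_mul (p d e i j n : ℕ) (hp : p.Prime) (hd : ¬ p ∣ d) (he : ¬ p ∣ e) :
    ind (d * p ^ i) (e * p ^ j) n = ind d e n * ((if p ^ i ∣ n then (1 : ℝ) else 0)
      * (if p ^ j ∣ wf n then (1 : ℝ) else 0)) := by
  unfold ind
  simp only [mul_dvd_iff' p d i n hp hd, mul_dvd_iff' p e j (wf n) hp he]
  by_cases h1 : d ∣ n <;> by_cases h2 : e ∣ wf n <;> by_cases h3 : p ^ i ∣ n <;>
    by_cases h4 : p ^ j ∣ wf n <;> simp [h1, h2, h3, h4]

private theorem four (p A d e n : ℕ) (hp : p.Prime) (hd : ¬ p ∣ d) (he : ¬ p ∣ e) (t : St A)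
    (hn : 2 ≤ n) : ind d e n * loc p A t n
      = ind (d * p ^ (t.1 : ℕ)) (e * p ^ (t.2 : ℕ)) n
        - (if (t.1 : ℕ) < A then (1 : ℝ) else 0) * ind (d * p ^ ((t.1 : ℕ) + 1)) (e * p ^ (t.2 : ℕ)) n
        - (if (t.2 : ℕ) < A then (1 : ℝ) else 0) * ind (d * p ^ (t.1 : ℕ)) (e * p ^ ((t.2 : ℕ) + 1)) n
        + (if (t.1 : ℕ) < A then (1 : ℝ) else 0) * (if (t.2 : ℕ) < A then (1 : ℝ) else 0)
          * ind (d * p ^ ((t.1 : ℕ) + 1)) (e * p ^ ((t.2 : ℕ) + 1)) n := by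
  have hl : loc p A t n = (if vt A n p = t.1 then (1 : ℝ) else 0)
      * (if vt A (wf n) p = t.2 then (1 : ℝ) else 0) := by
    unfold loc
    by_cases h1 : vt A n p = t.1 <;> by_cases h2 : vt A (wf n) p = t.2 <;> simp [h1, h2]
  rw [hl, vt_ind A n p hp (by omega), vt_ind A (wf n) p hp (wf_ne_zero hn),
    ind_mul p d e _ _ n hp hd he, ind_mul p d e _ _ n hp hd he, ind_mul p d e _ _ n hp hd he,
    ind_mul p d e _ _ n hp hd he]
  ring

private theorem rho_mul (p d e i j : ℕ) (hp : p.Prime) (hd : ¬ p ∣ d) (he : ¬ p ∣ e) :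
    rho (d * p ^ i) (e * p ^ j) = rho d e * rho (p ^ i) (p ^ j) := by
  have hdp : Nat.Coprime p d := (Nat.Prime.coprime_iff_not_dvd hp).mpr hd
  have hep : Nat.Coprime p e := (Nat.Prime.coprime_iff_not_dvd hp).mpr he
  have hc : Nat.Coprime (d * p ^ i) (e * p ^ j)
      ↔ Nat.Coprime d e ∧ Nat.Coprime (p ^ i) (p ^ j) := by
    rw [Nat.coprime_mul_iff_left, Nat.coprime_mul_iff_right, Nat.coprime_mul_iff_right]
    constructor
    · rintro ⟨⟨h1, -⟩, -, h4⟩
      exact ⟨h1, h4⟩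
    · rintro ⟨h1, h4⟩
      exact ⟨⟨h1, hdp.symm.pow_right j⟩, hep.pow_left i, h4⟩
  unfold rho
  rw [Nat.totient_mul (hep.symm.pow_right j)]
  by_cases h1 : Nat.Coprime d e
  · by_cases h2 : Nat.Coprime (p ^ i) (p ^ j)
    · rw [if_pos (hc.mpr ⟨h1, h2⟩), if_pos h1, if_pos h2]
      push_cast
      rw [div_mul_div_comm]
      congr 1
      ring
    · rw [if_neg (fun h => h2 (hc.mp h).2), if_neg h2, mul_zero]
  · rw [if_neg (fun h => h1 (hc.mp h).1), if_neg h1, zero_mul]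

private theorem rho_pow_pos (p i j : ℕ) (hp : p.Prime) :
    rho (p ^ (i + 1)) (p ^ (j + 1)) = 0 := by
  unfold rho
  rw [if_neg]
  intro h
  have h1 : p ∣ Nat.gcd (p ^ (i + 1)) (p ^ (j + 1)) :=
    Nat.dvd_gcd (dvd_pow_self p (by omega)) (dvd_pow_self p (by omega))
  rw [Nat.Coprime] at h
  rw [h] at h1
  exact hp.one_lt.ne' (Nat.dvd_one.mp h1)

private theorem rho_pow_right (p j : ℕ) (hp : p.Prime) :
    rho (p ^ 0) (p ^ (j + 1)) = (1 - 1 / (p : ℝ)) / (p : ℝ) ^ (j + 1) := by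
  have hp0 : (p : ℝ) ≠ 0 := by exact_mod_cast hp.ne_zero
  unfold rho
  rw [pow_zero, if_pos (Nat.coprime_one_left _), Nat.totient_prime_pow_succ hp]
  have h1 : ((p - 1 : ℕ) : ℝ) = (p : ℝ) - 1 := by
    rw [Nat.cast_sub hp.one_lt.le]
    norm_num
  push_cast
  rw [h1]
  field_simp
  ring

private theorem rho_pow_left (p i : ℕ) :
    rho (p ^ i) (p ^ 0) = 1 / (p : ℝ) ^ i := by
  unfold rho
  rw [pow_zero, if_pos (Nat.coprime_one_right _)]
  simp

private theorem nu_eq (p A : ℕ) (hA : 1 ≤ A) (hp : p.Prime) (t : St A) :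
    rho (p ^ (t.1 : ℕ)) (p ^ (t.2 : ℕ))
        - (if (t.1 : ℕ) < A then (1 : ℝ) else 0) * rho (p ^ ((t.1 : ℕ) + 1)) (p ^ (t.2 : ℕ))
        - (if (t.2 : ℕ) < A then (1 : ℝ) else 0) * rho (p ^ (t.1 : ℕ)) (p ^ ((t.2 : ℕ) + 1))
        + (if (t.1 : ℕ) < A then (1 : ℝ) else 0) * (if (t.2 : ℕ) < A then (1 : ℝ) else 0)
          * rho (p ^ ((t.1 : ℕ) + 1)) (p ^ ((t.2 : ℕ) + 1)) = nu p A t := by
  have hp0 : (p : ℝ) ≠ 0 := by exact_mod_cast hp.ne_zero
  have h1 : (t.1 : ℕ) ≤ A := Nat.lt_succ_iff.mp t.1.isLt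
  have h2 : (t.2 : ℕ) ≤ A := Nat.lt_succ_iff.mp t.2.isLt
  unfold nu al
  generalize (t.1 : ℕ) = i at *
  generalize (t.2 : ℕ) = j at *
  rw [rho_pow_pos p i j hp]
  rcases i with _ | i
  · rw [if_pos (show 0 < A by omega), if_pos (rfl : (0 : ℕ) = 0), rho_pow_right p j hp]
    rcases j with _ | j
    · have h0A : 0 < A := by omega
      rw [rho_pow_left, rho_pow_left]
      simp only [h0A, if_true, pow_zero, zero_add, pow_one]
      ring
    · rw [rho_pow_pos p 0 j hp, rho_pow_right p j hp]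
      rcases Nat.lt_or_ge (j + 1) A with hj | hj
      · simp only [hj, if_true]
        field_simp
        ring
      · have hjA : j + 1 = A := by omega
        have hj' : ¬ j + 1 < A := by omega
        simp only [hj', if_false]
        rw [← hjA]
        ring
  · rw [rho_pow_pos p i j hp, if_neg (show i + 1 ≠ 0 by omega)]
    rcases j with _ | j
    · rw [rho_pow_left, rho_pow_left, if_pos (rfl : (0 : ℕ) = 0)]
      rcases Nat.lt_or_ge (i + 1) A with hi | hi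
      · simp only [hi, if_true]
        field_simp
        ring
      · have hiA : i + 1 = A := by omega
        have hi' : ¬ i + 1 < A := by omega
        simp only [hi', if_false]
        rw [← hiA]
        ring
    · rw [rho_pow_pos p i j hp, rho_pow_pos p (i + 1) j hp, if_neg (show j + 1 ≠ 0 by omega)]
      ring

private theorem pat_main (z A : ℕ) (hA : 1 ≤ A) (s : (p : DD.Pz z) → St A)
    (T : Finset (DD.Pz z)) : ∀ d e : ℕ, 1 ≤ d → 1 ≤ e →
      (∀ p ∈ T, ¬ (p : ℕ) ∣ d) → (∀ p ∈ T, ¬ (p : ℕ) ∣ e) →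
      Tendsto (mr (fun n => ind d e n * ∏ p ∈ T, loc (p : ℕ) A (s p) n)) atTop
        (𝓝 (rho d e * ∏ p ∈ T, nu (p : ℕ) A (s p))) := by
  induction T using Finset.induction_on with
  | empty =>
    intro d e hd he _ _
    simp only [Finset.prod_empty, mul_one]
    refine (dens d e hd he).congr (fun N => ?_)
    unfold mr ind
    rw [Finset.sum_boole]
  | insert q T hq ih =>
    intro d e hd he h1 h2
    have hqp : (q : ℕ).Prime := (DD.mem_Pz.mp q.2).2
    have hqd : ¬ (q : ℕ) ∣ d := h1 q (Finset.mem_insert_self _ _)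
    have hqe : ¬ (q : ℕ) ∣ e := h2 q (Finset.mem_insert_self _ _)
    have hT : ∀ (a k : ℕ), (∀ p ∈ insert q T, ¬ (p : ℕ) ∣ a) →
        ∀ p ∈ T, ¬ (p : ℕ) ∣ a * (q : ℕ) ^ k := by
      intro a k ha p hp hpa
      have hpp : (p : ℕ).Prime := (DD.mem_Pz.mp p.2).2
      rcases (Nat.Prime.dvd_mul hpp).mp hpa with h3 | h3
      · exact ha p (Finset.mem_insert_of_mem hp) h3
      · have h4 := (Nat.prime_dvd_prime_iff_eq hpp hqp).mp (hpp.dvd_of_dvd_pow h3)
        exact hq (by rw [← Subtype.ext h4]; exact hp)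
    have hpos : ∀ (a k : ℕ), 1 ≤ a → 1 ≤ a * (q : ℕ) ^ k := fun a k ha =>
      Nat.mul_pos ha (pow_pos hqp.pos k)
    have key : ∀ i j : ℕ, Tendsto (mr (fun n => ind (d * (q : ℕ) ^ i) (e * (q : ℕ) ^ j) n
        * ∏ p ∈ T, loc (p : ℕ) A (s p) n)) atTop
        (𝓝 (rho d e * rho ((q : ℕ) ^ i) ((q : ℕ) ^ j) * ∏ p ∈ T, nu (p : ℕ) A (s p))) := by
      intro i j
      rw [← rho_mul (q : ℕ) d e i j hqp hqd hqe]
      exact ih _ _ (hpos d i hd) (hpos e j he) (hT d i h1) (hT e j h2)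
    have hsum := (((key ((s q).1 : ℕ) ((s q).2 : ℕ)).sub
      ((key (((s q).1 : ℕ) + 1) ((s q).2 : ℕ)).const_mul
        (if ((s q).1 : ℕ) < A then (1 : ℝ) else 0))).sub
      ((key ((s q).1 : ℕ) (((s q).2 : ℕ) + 1)).const_mul
        (if ((s q).2 : ℕ) < A then (1 : ℝ) else 0))).add
      ((key (((s q).1 : ℕ) + 1) (((s q).2 : ℕ) + 1)).const_mul
        ((if ((s q).1 : ℕ) < A then (1 : ℝ) else 0) * (if ((s q).2 : ℕ) < A then (1 : ℝ) else 0)))
    refine mr_congr (fun n =>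
      (ind (d * (q : ℕ) ^ ((s q).1 : ℕ)) (e * (q : ℕ) ^ ((s q).2 : ℕ)) n
        - (if ((s q).1 : ℕ) < A then (1 : ℝ) else 0)
          * ind (d * (q : ℕ) ^ (((s q).1 : ℕ) + 1)) (e * (q : ℕ) ^ ((s q).2 : ℕ)) n
        - (if ((s q).2 : ℕ) < A then (1 : ℝ) else 0)
          * ind (d * (q : ℕ) ^ ((s q).1 : ℕ)) (e * (q : ℕ) ^ (((s q).2 : ℕ) + 1)) n
        + (if ((s q).1 : ℕ) < A then (1 : ℝ) else 0) * (if ((s q).2 : ℕ) < A then (1 : ℝ) else 0)
          * ind (d * (q : ℕ) ^ (((s q).1 : ℕ) + 1)) (e * (q : ℕ) ^ (((s q).2 : ℕ) + 1)) n)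
      * ∏ p ∈ T, loc (p : ℕ) A (s p) n) _ _ ?_ ?_
    · intro n hn
      rw [← four (q : ℕ) A d e n hqp hqd hqe (s q) hn, Finset.prod_insert hq]
      ring
    · have hval : rho d e * ∏ p ∈ insert q T, nu (p : ℕ) A (s p)
          = rho d e * rho ((q : ℕ) ^ ((s q).1 : ℕ)) ((q : ℕ) ^ ((s q).2 : ℕ))
              * ∏ p ∈ T, nu (p : ℕ) A (s p)
            - (if ((s q).1 : ℕ) < A then (1 : ℝ) else 0)
              * (rho d e * rho ((q : ℕ) ^ (((s q).1 : ℕ) + 1)) ((q : ℕ) ^ ((s q).2 : ℕ))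
                * ∏ p ∈ T, nu (p : ℕ) A (s p))
            - (if ((s q).2 : ℕ) < A then (1 : ℝ) else 0)
              * (rho d e * rho ((q : ℕ) ^ ((s q).1 : ℕ)) ((q : ℕ) ^ (((s q).2 : ℕ) + 1))
                * ∏ p ∈ T, nu (p : ℕ) A (s p))
            + ((if ((s q).1 : ℕ) < A then (1 : ℝ) else 0)
                * (if ((s q).2 : ℕ) < A then (1 : ℝ) else 0))
              * (rho d e * rho ((q : ℕ) ^ (((s q).1 : ℕ) + 1)) ((q : ℕ) ^ (((s q).2 : ℕ) + 1))
                * ∏ p ∈ T, nu (p : ℕ) A (s p)) := by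
        rw [Finset.prod_insert hq, ← nu_eq (q : ℕ) A hA hqp (s q)]
        ring
      rw [hval]
      refine hsum.congr (fun N => ?_)
      unfold mr
      rw [← mul_div_assoc, ← mul_div_assoc, ← mul_div_assoc, ← sub_div, ← sub_div, ← add_div]
      congr 1
      rw [Finset.mul_sum, Finset.mul_sum, Finset.mul_sum, ← Finset.sum_sub_distrib,
        ← Finset.sum_sub_distrib, ← Finset.sum_add_distrib]
      refine Finset.sum_congr rfl (fun n _ => ?_)
      ring

theorem pat_dens (z A : ℕ) (hA : 1 ≤ A) (s : (p : DD.Pz z) → St A) :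
    Tendsto (fun N : ℕ => (((Icc 1 N).filter (fun n => pat z A n = s)).card : ℝ) / N) atTop
      (𝓝 (wt z A s)) := by
  have h := pat_main z A hA s Finset.univ 1 1 le_rfl le_rfl
    (fun p _ h => (DD.mem_Pz.mp p.2).2.one_lt.ne' (Nat.dvd_one.mp h))
    (fun p _ h => (DD.mem_Pz.mp p.2).2.one_lt.ne' (Nat.dvd_one.mp h))
  have hr : rho 1 1 = 1 := by
    unfold rho
    simp
  rw [hr, one_mul] at h
  unfold wt
  refine h.congr (fun N => ?_)
  unfold mr
  rw [← Finset.sum_boole]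
  congr 1
  refine Finset.sum_congr rfl (fun n _ => ?_)
  have hi : ind 1 1 n = 1 := by
    unfold ind
    rw [if_pos (And.intro (one_dvd n) (one_dvd (wf n)))]
  show ind 1 1 n * ∏ p : DD.Pz z, loc (p : ℕ) A (s p) n = if pat z A n = s then (1 : ℝ) else 0
  rw [hi, one_mul]
  by_cases hs : pat z A n = s
  · rw [if_pos hs]
    refine Finset.prod_eq_one (fun p _ => ?_)
    unfold loc
    rw [← hs]
    simp [pat]
  · rw [if_neg hs]
    have hex : ∃ p, pat z A n p ≠ s p := by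
      by_contra hcon
      push Not at hcon
      exact hs (funext hcon)
    obtain ⟨p, hp⟩ := hex
    refine Finset.prod_eq_zero (Finset.mem_univ p) ?_
    unfold loc
    rw [if_neg]
    rintro ⟨h1, h2⟩
    exact hp (Prod.ext h1 h2)

end Pool.Agent.H31.TL
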