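import Pool.Agent.H31.TL.Abel

/-!
# TL Taub: from `mn - lam lm → 0` to `mn → 0`

Let `G(N) = ∑_(n ≤ N) mn(n) / n`; by `abel_bound` `lm(N) - G(N) / log N → 0`, so
`mn(N) - lam G(N) / log N → 0`. With `‖G(n)‖ ≤ κ log n` for large `n`
`G(n+1) log (n+1) - G(n) log n = G(n+1) (log (n+1) - log n) + mn(n+1) log n / (n+1)` has norm at most
`((1 + lam) κ + o(1)) log (n+1) / (n+1)`, so `‖G(N)‖ ≤ ((1 + lam) κ / 2 + o(1)) log N` (`contr`). As
`(1 + lam) / 2 < 1`, `G(N) / log N → 0` and `mn(N) → 0` (one case instead of two: helper52).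
-/

set_option autoImplicit false

namespace Pool.Agent.H31.TL

open Finset Filter Topology

private theorem log_step (n : ℕ) (hn : 1 ≤ n) :
    1 / ((n : ℝ) + 1) ≤ Real.log ((n : ℝ) + 1) - Real.log n ∧
      Real.log ((n : ℝ) + 1) - Real.log n ≤ 1 / n := by
  have h0 : (0 : ℝ) < n := by exact_mod_cast hn
  have h1 : (0 : ℝ) < (n : ℝ) + 1 := by positivity
  rw [← Real.log_div h1.ne' h0.ne']
  have h2 : (0 : ℝ) < ((n : ℝ) + 1) / n := by positivity
  constructor
  · refine le_trans (le_of_eq ?_) (Real.one_sub_inv_le_log_of_pos h2)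
    field_simp
    ring
  · refine (Real.log_le_sub_one_of_pos h2).trans (le_of_eq ?_)
    field_simp
    ring

/-- a first bound -/
private theorem first_bound {G M : ℕ → ℂ} (hG0 : G 0 = 0) (hM : ∀ n, ‖M n‖ ≤ 1)
    (hG : ∀ n, G (n + 1) = G n + M (n + 1) / ((n : ℂ) + 1)) (n : ℕ) :
    ‖G (n + 1)‖ ≤ 1 + Real.log ((n : ℝ) + 1) := by
  induction n with
  | zero =>
    rw [hG 0, hG0]
    simpa using hM 1
  | succ n ih =>
    rw [hG (n + 1)]
    have h1 := (log_step (n + 1) (by omega)).1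
    have h2 : ‖M (n + 1 + 1) / (((n + 1 : ℕ) : ℂ) + 1)‖ ≤ 1 / (((n + 1 : ℕ) : ℝ) + 1) := by
      rw [norm_div]
      have h3 : ‖(((n + 1 : ℕ) : ℂ) + 1)‖ = ((n + 1 : ℕ) : ℝ) + 1 := by
        have : (((n + 1 : ℕ) : ℂ) + 1) = ((n + 1 + 1 : ℕ) : ℂ) := by push_cast; ring
        rw [this, Complex.norm_natCast]
        push_cast
        ring
      rw [h3]
      exact div_le_div_of_nonneg_right (hM _) (by positivity)
    have h4 := norm_add_le (G (n + 1)) (M (n + 1 + 1) / (((n + 1 : ℕ) : ℂ) + 1))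
    push_cast at h1 h2 h4 ⊢
    linarith

/-- telescoping a bound on the steps of `G(n) log n` -/
private theorem tele {H : ℕ → ℂ} {al : ℝ} (hal : 0 ≤ al) {n0 : ℕ} (hn0 : 1 ≤ n0)
    (hH : ∀ n, n0 ≤ n → ‖H (n + 1) - H n‖ ≤ al * Real.log ((n : ℝ) + 1) / ((n : ℝ) + 1)) (n : ℕ)
    (hn : n0 ≤ n) :
    ‖H n‖ ≤ ‖H n0‖ + al * (Real.log n ^ 2 / 2 - 1 / n) + al := by
  induction n, hn using Nat.le_induction with
  | base =>
    have h0 : (1 : ℝ) ≤ n0 := by exact_mod_cast hn0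
    have h1 : 1 / (n0 : ℝ) ≤ 1 := by
      rw [div_le_one (by linarith)]
      exact h0
    have h2 : 0 ≤ Real.log n0 ^ 2 / 2 := by positivity
    have h3 : 0 ≤ al * (Real.log n0 ^ 2 / 2 - 1 / n0 + 1) := mul_nonneg hal (by linarith)
    nlinarith
  | succ n hn ih =>
    have hn1 : 1 ≤ n := hn0.trans hn
    have h0 : (1 : ℝ) ≤ n := by exact_mod_cast hn1
    have h1 := hH n hn
    have h2 : ‖H (n + 1)‖ ≤ ‖H n‖ + ‖H (n + 1) - H n‖ := by
      have := norm_add_le (H n) (H (n + 1) - H n)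
      rwa [add_sub_cancel] at this
    obtain ⟨hs1, hs2⟩ := log_step n hn1
    push_cast
    set L := Real.log ((n : ℝ) + 1) with hL
    set L0 := Real.log (n : ℝ) with hL0
    have hL00 : 0 ≤ L0 := Real.log_nonneg h0
    have hL0' : 0 ≤ L := Real.log_nonneg (by linarith)
    -- L / (n + 1) ≤ (L ^ 2 - L0 ^ 2) / 2 + (1 / n - 1 / (n + 1))
    have h5 : 1 / ((n : ℝ) + 1) ≤ L - L0 := hs1
    have h6 : L - L0 ≤ 1 / n := hs2
    have h7 : (0 : ℝ) < 1 / ((n : ℝ) + 1) := by positivity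
    have h8 : L / ((n : ℝ) + 1) ≤ (L ^ 2 - L0 ^ 2) / 2 + (1 / (n : ℝ) - 1 / ((n : ℝ) + 1)) := by
      have e1 : 1 / (n : ℝ) - 1 / ((n : ℝ) + 1) = 1 / (n : ℝ) * (1 / ((n : ℝ) + 1)) := by
        field_simp
        ring
      have e2 : L / ((n : ℝ) + 1) = L * (1 / ((n : ℝ) + 1)) := by ring
      rw [e1, e2]
      have h9 : 1 / ((n : ℝ) + 1) * (L + L0) ≤ (L - L0) * (L + L0) :=
        mul_le_mul_of_nonneg_right h5 (by linarith)
      have h10 : (L - L0) * (1 / ((n : ℝ) + 1)) ≤ 1 / (n : ℝ) * (1 / ((n : ℝ) + 1)) :=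
        mul_le_mul_of_nonneg_right h6 h7.le
      have h11 : 0 ≤ (L - L0) * (1 / ((n : ℝ) + 1)) := mul_nonneg (by linarith) h7.le
      nlinarith
    have h12 := mul_le_mul_of_nonneg_left h8 hal
    have h13 : al * L / ((n : ℝ) + 1) = al * (L / ((n : ℝ) + 1)) := by ring
    rw [h13] at h1
    nlinarith

/-- one step of the contraction -/
private theorem contr {G M : ℕ → ℂ} (hG : ∀ n, G (n + 1) = G n + M (n + 1) / ((n : ℂ) + 1))
    {lam : ℝ} (h1 : |lam| ≤ 1) (h2 : lam < 1)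
    (he : Tendsto (fun N : ℕ => M N - (lam : ℂ) * (G N / (Real.log N : ℂ))) atTop (𝓝 0))
    {κ : ℝ} (hκ : 0 < κ) (hP : ∀ᶠ N : ℕ in atTop, ‖G N‖ ≤ κ * Real.log N) :
    ∀ᶠ N : ℕ in atTop, ‖G N‖ ≤ ((3 + lam) / 4 * κ) * Real.log N := by
  obtain ⟨hl1, hl2⟩ := abs_le.1 h1
  set η : ℝ := (1 - lam) * κ / (4 * (κ + 1)) with hη
  have hη0 : 0 < η := div_pos (mul_pos (by linarith) hκ) (by linarith)
  have hη1 : (κ + 1) * η = (1 - lam) * κ / 4 := by
    rw [hη]
    field_simp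
  have he' : ∀ᶠ N : ℕ in atTop, ‖M N - (lam : ℂ) * (G N / (Real.log N : ℂ))‖ ≤ η := by
    have := (tendsto_zero_iff_norm_tendsto_zero.1 he).eventually (ge_mem_nhds hη0)
    exact this
  have hlog : Tendsto (fun N : ℕ => Real.log N) atTop atTop :=
    Real.tendsto_log_atTop.comp tendsto_natCast_atTop_atTop
  have hL1 : ∀ᶠ N : ℕ in atTop, 1 ≤ Real.log N := hlog.eventually_ge_atTop 1
  have hinv : ∀ᶠ N : ℕ in atTop, 2 / η ≤ (N : ℝ) :=
    tendsto_natCast_atTop_atTop.eventually_ge_atTop _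
  obtain ⟨n0, hn0⟩ := eventually_atTop.1 (hP.and (he'.and (hL1.and hinv)))
  set al : ℝ := κ * (1 + lam + η) + η with hal
  have hal0 : 0 ≤ al := add_nonneg (mul_nonneg hκ.le (by linarith)) hη0.le
  set H : ℕ → ℂ := fun n => G n * (Real.log n : ℂ) with hH
  have hstep : ∀ n, n0 + 1 ≤ n →
      ‖H (n + 1) - H n‖ ≤ al * Real.log ((n : ℝ) + 1) / ((n : ℝ) + 1) := by
    intro n hn
    obtain ⟨hPn, hen, hLn, -⟩ := hn0 (n + 1) (by omega)
    obtain ⟨-, -, hLn', hin⟩ := hn0 n (by omega)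
    have hn1 : 1 ≤ n := by omega
    have hnr : (1 : ℝ) ≤ n := by exact_mod_cast hn1
    obtain ⟨hs1, hs2⟩ := log_step n hn1
    push_cast at hPn hen hLn
    set L := Real.log ((n : ℝ) + 1) with hL
    set L0 := Real.log (n : ℝ) with hL0
    set d := L - L0 with hd
    have hLpos : 0 < L := by linarith
    have hn1c : ((n : ℂ) + 1) ≠ 0 := by exact_mod_cast Nat.succ_ne_zero n
    have hLc : (L : ℂ) ≠ 0 := by exact_mod_cast hLpos.ne'
    set e : ℂ := M (n + 1) - (lam : ℂ) * (G (n + 1) / (L : ℂ)) with hedef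
    have hen' : ‖e‖ ≤ η := hen
    set c : ℝ := d + lam / ((n : ℝ) + 1) * (L0 / L) with hc
    have hdiff : H (n + 1) - H n = G (n + 1) * (c : ℂ) + e * ((L0 / ((n : ℝ) + 1) : ℝ) : ℂ) := by
      have e1 : G n = G (n + 1) - M (n + 1) / ((n : ℂ) + 1) := by rw [hG n]; ring
      have e2 : M (n + 1) = e + (lam : ℂ) * (G (n + 1) / (L : ℂ)) := by rw [hedef]; ring
      have e3 : H (n + 1) = G (n + 1) * (L : ℂ) := by
        simp only [hH]
        push_cast
        rw [hL]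
      have e4 : H n = G n * (L0 : ℂ) := rfl
      rw [e3, e4, e1, hc, hd]
      conv_lhs => rw [e2]
      push_cast
      field_simp
      ring
    have hcb : |c| ≤ (1 + lam + η) / ((n : ℝ) + 1) := by
      have hm : (0 : ℝ) < (n : ℝ) + 1 := by positivity
      have hn0' : (0 : ℝ) < n := by linarith
      have hL0e : L0 = L - d := by rw [hd]; ring
      have e1 : c = (d - 1 / ((n : ℝ) + 1)) + (1 + lam) / ((n : ℝ) + 1) -
          lam / ((n : ℝ) + 1) * (d / L) := by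
        rw [hc, hL0e]
        field_simp
        ring
      have h3 : 0 ≤ d - 1 / ((n : ℝ) + 1) := by linarith
      have h4 : 0 ≤ (1 + lam) / ((n : ℝ) + 1) := div_nonneg (by linarith) hm.le
      have hd0 : 0 ≤ d := le_trans (by positivity) hs1
      have h5 : |lam / ((n : ℝ) + 1) * (d / L)| ≤ 1 / ((n : ℝ) + 1) * (1 / n) := by
        rw [abs_mul, abs_div, abs_of_pos hm, abs_of_nonneg (div_nonneg hd0 hLpos.le)]
        refine mul_le_mul (div_le_div_of_nonneg_right h1 hm.le) ?_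
          (div_nonneg hd0 hLpos.le) (by positivity)
        exact (div_le_self hd0 hLn).trans hs2
      have h6 : 2 / (n : ℝ) ≤ η := by
        rw [div_le_iff₀ hn0']
        rw [div_le_iff₀ hη0] at hin
        linarith
      have h7 : (d - 1 / ((n : ℝ) + 1)) + 1 / ((n : ℝ) + 1) * (1 / n) ≤ η / ((n : ℝ) + 1) := by
        have h8 : d - 1 / ((n : ℝ) + 1) ≤ 1 / (n : ℝ) - 1 / ((n : ℝ) + 1) := by linarith
        have h9 : (1 / (n : ℝ) - 1 / ((n : ℝ) + 1)) + 1 / ((n : ℝ) + 1) * (1 / n) =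
            (2 / (n : ℝ)) / ((n : ℝ) + 1) := by
          field_simp
          ring
        have h10 : (2 / (n : ℝ)) / ((n : ℝ) + 1) ≤ η / ((n : ℝ) + 1) :=
          div_le_div_of_nonneg_right h6 hm.le
        linarith
      have h11 : |c| ≤ (d - 1 / ((n : ℝ) + 1)) + (1 + lam) / ((n : ℝ) + 1) +
          1 / ((n : ℝ) + 1) * (1 / n) := by
        rw [e1]
        refine (abs_sub _ _).trans ?_
        rw [abs_of_nonneg (add_nonneg h3 h4)]
        linarith
      have h12 : (1 + lam + η) / ((n : ℝ) + 1) = (1 + lam) / ((n : ℝ) + 1) + η / ((n : ℝ) + 1) := by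
        ring
      linarith
    have hm : (0 : ℝ) < (n : ℝ) + 1 := by positivity
    have hL0L : L0 ≤ L := by
      have : 0 ≤ d := le_trans (by positivity) hs1
      linarith
    have hL0p : 0 ≤ L0 := by linarith
    rw [hdiff]
    refine (norm_add_le _ _).trans ?_
    rw [norm_mul, norm_mul, Complex.norm_real, Complex.norm_real, Real.norm_eq_abs, Real.norm_eq_abs,
      abs_of_nonneg (div_nonneg hL0p hm.le)]
    have h3 : ‖G (n + 1)‖ * |c| ≤ (κ * L) * ((1 + lam + η) / ((n : ℝ) + 1)) :=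
      mul_le_mul hPn hcb (abs_nonneg _) (mul_nonneg hκ.le hLpos.le)
    have h4 : ‖e‖ * (L0 / ((n : ℝ) + 1)) ≤ η * (L / ((n : ℝ) + 1)) :=
      mul_le_mul hen' (div_le_div_of_nonneg_right hL0L hm.le) (div_nonneg hL0p hm.le) hη0.le
    have h5 : al * L / ((n : ℝ) + 1) =
        (κ * L) * ((1 + lam + η) / ((n : ℝ) + 1)) + η * (L / ((n : ℝ) + 1)) := by
      rw [hal]; ring
    linarith
  have hT := tele hal0 (by omega : 1 ≤ n0 + 1) hstep
  -- conclusion
  set C : ℝ := ‖H (n0 + 1)‖ + al with hC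
  have hgap : 0 < (3 + lam) / 4 * κ - al / 2 := by
    have e1 : (3 + lam) / 4 * κ - al / 2 = (1 - lam) * κ / 4 - (κ + 1) * η / 2 := by
      rw [hal]; ring
    rw [e1, hη1]
    have : 0 < (1 - lam) * κ := mul_pos (by linarith) hκ
    linarith
  have hCL : ∀ᶠ N : ℕ in atTop, C / ((3 + lam) / 4 * κ - al / 2) ≤ Real.log N :=
    hlog.eventually_ge_atTop _
  filter_upwards [hCL, hL1, eventually_ge_atTop (n0 + 1)] with N h3 h4 h5
  have hLp : 0 < Real.log (N : ℝ) := by linarith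
  have h6 := hT N h5
  have h7 : ‖H N‖ = ‖G N‖ * Real.log N := by
    simp only [hH]
    rw [norm_mul, Complex.norm_real, Real.norm_of_nonneg hLp.le]
  have h8 : 0 ≤ al * (1 / (N : ℝ)) := mul_nonneg hal0 (by positivity)
  have h9 : C ≤ ((3 + lam) / 4 * κ - al / 2) * Real.log N ^ 2 := by
    rw [div_le_iff₀ hgap] at h3
    have h10 : Real.log N ≤ Real.log N ^ 2 := by nlinarith
    nlinarith
  rw [h7] at h6
  have h11 : ‖G N‖ * Real.log N ≤ ((3 + lam) / 4 * κ * Real.log N) * Real.log N := by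
    nlinarith
  exact le_of_mul_le_mul_right h11 hLp

theorem taub (f : ℕ → ℂ) (hf : ∀ n, ‖f n‖ ≤ 1) (lam : ℝ) (h1 : |lam| ≤ 1) (h2 : lam ≠ 1)
    (h : Tendsto (fun N : ℕ => mn f N - (lam : ℂ) * lm f N) atTop (𝓝 0)) :
    Tendsto (mn f) atTop (𝓝 0) := by
  have h2' : lam < 1 := lt_of_le_of_ne (abs_le.1 h1).2 h2
  have hl1 := (abs_le.1 h1).1
  set G : ℕ → ℂ := fun N => ∑ n ∈ Icc 1 N, mn f n / n with hGdef
  have hG : ∀ n, G (n + 1) = G n + mn f (n + 1) / ((n : ℂ) + 1) := by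
    intro n
    simp only [hGdef]
    rw [Finset.sum_Icc_succ_top (by omega)]
    push_cast
    rfl
  have hlog : Tendsto (fun N : ℕ => Real.log N) atTop atTop :=
    Real.tendsto_log_atTop.comp tendsto_natCast_atTop_atTop
  -- replace the logarithmic mean of `f` by the one of its means
  have hd : Tendsto (fun N : ℕ => lm f N - G N / (Real.log N : ℂ)) atTop (𝓝 0) := by
    have h3 : Tendsto (fun N : ℕ => 3 / Real.log N) atTop (𝓝 0) := hlog.const_div_atTop 3
    refine squeeze_zero_norm' ?_ h3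
    filter_upwards [hlog.eventually_gt_atTop 0] with N hN
    have h4 := abel_bound f hf N
    have h5 : lm f N - G N / (Real.log N : ℂ) =
        (∑ n ∈ Icc 1 N, f n / n - ∑ n ∈ Icc 1 N, mn f n / n) / (Real.log N : ℂ) := by
      simp only [lm, hGdef]
      ring
    rw [h5, norm_div, Complex.norm_real, Real.norm_of_nonneg hN.le]
    exact div_le_div_of_nonneg_right h4 hN.le
  have he : Tendsto (fun N : ℕ => mn f N - (lam : ℂ) * (G N / (Real.log N : ℂ))) atTop
      (𝓝 0) := by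
    have h3 := h.add (hd.const_mul (lam : ℂ))
    rw [mul_zero, add_zero] at h3
    refine h3.congr fun N => ?_
    ring
  have hP0 : ∀ᶠ N : ℕ in atTop, ‖G N‖ ≤ 2 * Real.log N := by
    filter_upwards [hlog.eventually_ge_atTop 1, eventually_ge_atTop 1] with N h3 h4
    obtain ⟨n, rfl⟩ := Nat.exists_eq_succ_of_ne_zero (by omega : N ≠ 0)
    have h5 := first_bound (G := G) (M := mn f) (by simp [hGdef]) (mn_norm_le f hf) hG n
    rw [Nat.succ_eq_add_one] at h3 ⊢
    push_cast at h3 ⊢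
    linarith
  have hPk : ∀ k : ℕ, ∀ᶠ N : ℕ in atTop, ‖G N‖ ≤ (((3 + lam) / 4) ^ k * 2) * Real.log N := by
    intro k
    induction k with
    | zero => simpa using hP0
    | succ k ih =>
      have h3 : (0 : ℝ) < ((3 + lam) / 4) ^ k * 2 :=
        mul_pos (pow_pos (by linarith) k) two_pos
      have h4 := contr hG h1 h2' he h3 ih
      refine h4.mono fun N hN => hN.trans (le_of_eq ?_)
      rw [pow_succ]
      ring
  have hGL : Tendsto (fun N : ℕ => G N / (Real.log N : ℂ)) atTop (𝓝 0) := by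
    rw [Metric.tendsto_nhds]
    intro δ hδ
    have h3 : Tendsto (fun k : ℕ => ((3 + lam) / 4) ^ k * 2) atTop (𝓝 0) := by
      have := (tendsto_pow_atTop_nhds_zero_of_lt_one (r := (3 + lam) / 4) (by linarith)
        (by linarith)).mul_const 2
      rwa [zero_mul] at this
    obtain ⟨k, hk⟩ := (h3.eventually (gt_mem_nhds hδ)).exists
    filter_upwards [hPk k, hlog.eventually_gt_atTop 0] with N h4 h5
    rw [dist_zero_right, norm_div, Complex.norm_real, Real.norm_of_nonneg h5.le,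
      div_lt_iff₀ h5]
    exact lt_of_le_of_lt h4 (mul_lt_mul_of_pos_right hk h5)
  have h3 := he.add (hGL.const_mul (lam : ℂ))
  rw [mul_zero, add_zero] at h3
  refine h3.congr fun N => ?_
  ring

end Pool.Agent.H31.TL
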