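import Pool.Agent.H31.TL.Defs
import Pool.Agent.H31.DD.Bad
import Pool.Agent.H31.DD.Wt
import Pool.Agent.H3.LC.Mertens

/-!
# TL Weight: from a sum over `n` to a sum over `n = m P`

The double sum is `∑_(n ≤ N) f(n) b(n)`, `b(n)` the sum of `log P` over the primes `P > y` with
`P ∣ n`, `P² ∤ n` (bijection as in `DD/Wt.lean`). `0 ≤ log N - b(n) ≤ (log N - log n) + 2 T(n)`, `T(n)`
the sum of `Λ(d)` over the divisors `d` of `n` which are not primes `> y` (`log n = T(n) + big y n`,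
`big y n - b(n)` is the sum of `Λ(P²)` over `P > y`, `P² ∣ n`; all this is in `DD/Bad.lean`, private
lemmas `Bad_T`, `Bad_log`, `Bad_sum`: copy them). `∑ (log N - log n) ≤ N`,
`∑ T(n) ≤ N (log y + C) ≤ N (δ log N + C)`. Total `≤ 2 δ N log N + C' N ≤ 4 δ N log N`.
-/

set_option autoImplicit false

namespace Pool.Agent.H31.TL

open Finset
open Pool.Agent.H31.DD (yy big)

open scoped ArithmeticFunction.vonMangoldt

/-- the sum of `Λ d` over the divisors `d` of `n` which are not primes `> y` -/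
private noncomputable def Wg_T (y n : ℕ) : ℝ :=
  ∑ d ∈ n.divisors.filter (fun d => ¬ (d.Prime ∧ y < d)), Λ d

private theorem Wg_log (y n : ℕ) : Real.log n = Wg_T y n + big y n := by
  have h1 := ArithmeticFunction.vonMangoldt_sum (n := n)
  have h2 : n.primeFactors.filter (fun p => y < p) =
      n.divisors.filter (fun d => d.Prime ∧ y < d) := by
    ext p
    rcases Nat.eq_zero_or_pos n with h0 | h0
    · simp [h0]
    · simp only [mem_filter, Nat.mem_primeFactors, Nat.mem_divisors]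
      tauto
  have h3 : big y n = ∑ d ∈ n.divisors.filter (fun d => d.Prime ∧ y < d), Λ d := by
    unfold big
    rw [h2]
    refine sum_congr rfl fun p hp => ?_
    rw [mem_filter] at hp
    exact (ArithmeticFunction.vonMangoldt_apply_prime hp.2.1).symm
  rw [← h1, h3, Wg_T, add_comm]
  exact (sum_filter_add_sum_filter_not n.divisors (fun d => d.Prime ∧ y < d) (fun d => Λ d)).symm

private theorem Wg_T_nonneg (y n : ℕ) : 0 ≤ Wg_T y n :=
  sum_nonneg fun _ _ => ArithmeticFunction.vonMangoldt_nonneg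

private theorem Wg_np : ∃ D : ℝ, 0 ≤ D ∧ ∀ n : ℕ,
    ∑ d ∈ (Icc 1 n).filter (fun d => ¬ d.Prime), Λ d / d ≤ D := by
  have hs := ArithmeticFunction.vonMangoldt.summable_residueClass_non_primes_div (q := 1) 0
  have hr : ∀ n : ℕ, ArithmeticFunction.vonMangoldt.residueClass (0 : ZMod 1) n = Λ n := by
    intro n
    unfold ArithmeticFunction.vonMangoldt.residueClass
    rw [Set.indicator_of_mem]
    exact Subsingleton.elim _ _
  simp only [hr] at hs
  have hnn : ∀ n : ℕ, 0 ≤ (if n.Prime then 0 else Λ n) / (n : ℝ) := by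
    intro n
    split_ifs
    · simp
    · exact div_nonneg ArithmeticFunction.vonMangoldt_nonneg (Nat.cast_nonneg n)
  refine ⟨∑' n : ℕ, (if n.Prime then 0 else Λ n) / (n : ℝ), tsum_nonneg hnn, fun n => ?_⟩
  have h1 := hs.sum_le_tsum (Icc 1 n) fun i _ => hnn i
  refine le_trans (le_of_eq ?_) h1
  rw [sum_filter]
  refine sum_congr rfl fun d _ => ?_
  by_cases hd : d.Prime <;> simp [hd]

private theorem Wg_sum (y N : ℕ) (hy : 1 ≤ y) {D : ℝ}
    (hD : ∀ n : ℕ, ∑ d ∈ (Icc 1 n).filter (fun d => ¬ d.Prime), Λ d / d ≤ D) :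
    ∑ n ∈ Icc 1 N, Wg_T y n ≤ N * (Real.log y + (Real.log 4 + 4) + D) := by
  classical
  have h1 : ∀ n ∈ Icc 1 N, Wg_T y n =
      ∑ d ∈ Icc 1 N, if d ∣ n ∧ ¬ (d.Prime ∧ y < d) then Λ d else 0 := by
    intro n hn
    rw [mem_Icc] at hn
    rw [Wg_T, ← sum_filter]
    refine sum_congr ?_ fun _ _ => rfl
    ext d
    simp only [mem_filter, Nat.mem_divisors, mem_Icc]
    constructor
    · rintro ⟨⟨h2, h3⟩, h4⟩
      exact ⟨⟨Nat.pos_of_dvd_of_pos h2 hn.1, (Nat.le_of_dvd hn.1 h2).trans hn.2⟩, h2, h4⟩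
    · rintro ⟨_, h2, h4⟩
      exact ⟨⟨h2, by omega⟩, h4⟩
  rw [sum_congr rfl h1, sum_comm]
  have h2 : ∀ d ∈ Icc 1 N, (∑ n ∈ Icc 1 N, if d ∣ n ∧ ¬ (d.Prime ∧ y < d) then Λ d else 0) ≤
      N * ((if d ≤ y then Λ d / d else 0) + (if ¬ d.Prime then Λ d / d else 0)) := by
    intro d hd
    rw [mem_Icc] at hd
    have hd0 : (0 : ℝ) < d := by exact_mod_cast hd.1
    have hL : 0 ≤ Λ d := ArithmeticFunction.vonMangoldt_nonneg
    have hL2 : 0 ≤ Λ d / d := div_nonneg hL hd0.le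
    by_cases hP : d.Prime ∧ y < d
    · have e : (∑ n ∈ Icc 1 N, if d ∣ n ∧ ¬ (d.Prime ∧ y < d) then Λ d else 0) = 0 := by
        refine sum_eq_zero fun n _ => ?_
        rw [if_neg]
        tauto
      rw [e]
      refine mul_nonneg (Nat.cast_nonneg N) (add_nonneg ?_ ?_)
      · split_ifs <;> first | exact hL2 | exact le_rfl
      · split_ifs <;> first | exact hL2 | exact le_rfl
    · have e : (∑ n ∈ Icc 1 N, if d ∣ n ∧ ¬ (d.Prime ∧ y < d) then Λ d else 0) =
          ((N / d : ℕ) : ℝ) * Λ d := by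
        rw [← sum_filter, sum_const, nsmul_eq_mul]
        congr 2
        have e2 : (Icc 1 N).filter (fun n => d ∣ n ∧ ¬ (d.Prime ∧ y < d)) =
            (Ioc 0 N).filter (fun n => d ∣ n) := by
          ext n
          simp only [mem_filter, mem_Icc, mem_Ioc]
          constructor
          · rintro ⟨h3, h4, _⟩
            exact ⟨⟨by omega, h3.2⟩, h4⟩
          · rintro ⟨h3, h4⟩
            exact ⟨⟨by omega, h3.2⟩, h4, hP⟩
        rw [e2, Nat.Ioc_filter_dvd_card_eq_div]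
      rw [e]
      have h3 : ((N / d : ℕ) : ℝ) * Λ d ≤ N * (Λ d / d) := by
        have := @Nat.cast_div_le ℝ _ _ _ N d
        calc ((N / d : ℕ) : ℝ) * Λ d ≤ ((N : ℝ) / d) * Λ d := mul_le_mul_of_nonneg_right this hL
          _ = N * (Λ d / d) := by ring
      refine h3.trans (mul_le_mul_of_nonneg_left ?_ (Nat.cast_nonneg N))
      by_cases h4 : d ≤ y
      · rw [if_pos h4]
        have h5 : 0 ≤ (if ¬ d.Prime then Λ d / d else 0) := by
          split_ifs <;> first | exact hL2 | exact le_rfl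
        linarith
      · have h5 : ¬ d.Prime := fun h => hP ⟨h, by omega⟩
        rw [if_neg h4, if_pos h5, zero_add]
  refine (sum_le_sum h2).trans ?_
  rw [← mul_sum, sum_add_distrib]
  refine mul_le_mul_of_nonneg_left ?_ (Nat.cast_nonneg N)
  refine add_le_add ?_ ?_
  · refine le_trans ?_ (Pool.Agent.H3.LC.mertensM_le y hy)
    rw [← sum_filter, Pool.Agent.H3.LC.mertensM]
    refine sum_le_sum_of_subset_of_nonneg ?_ fun d _ _ => div_nonneg
      ArithmeticFunction.vonMangoldt_nonneg (Nat.cast_nonneg d)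
    intro d hd
    rw [mem_filter, mem_Icc] at hd
    rw [mem_Ioc]
    omega
  · rw [← sum_filter]
    exact hD N


/-- the weight `b` -/
private noncomputable def bb (y n : ℕ) : ℝ :=
  ∑ p ∈ n.primeFactors.filter (fun p => y < p ∧ ¬ p ^ 2 ∣ n), Real.log p

private theorem bb_le (y n : ℕ) : bb y n ≤ big y n := by
  unfold bb big
  refine sum_le_sum_of_subset_of_nonneg ?_ fun _ _ _ => Real.log_natCast_nonneg _
  intro p hp
  rw [mem_filter] at hp ⊢
  exact ⟨hp.1, hp.2.1⟩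

private theorem big_sub (y n : ℕ) : big y n - bb y n ≤ Wg_T y n := by
  have h1 : big y n = bb y n +
      ∑ p ∈ (n.primeFactors.filter (fun p => y < p)).filter (fun p => ¬ ¬ p ^ 2 ∣ n), Real.log p := by
    have h2 := sum_filter_add_sum_filter_not (n.primeFactors.filter (fun p => y < p))
      (fun p => ¬ p ^ 2 ∣ n) (fun p : ℕ => Real.log p)
    unfold big bb
    rw [← h2, filter_filter]
  rw [h1, add_sub_cancel_left]
  have hinj : Set.InjOn (fun p : ℕ => p ^ 2)
      ((n.primeFactors.filter (fun p => y < p)).filter (fun p => ¬ ¬ p ^ 2 ∣ n) : Finset ℕ) := by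
    intro a _ b _ hab
    exact Nat.pow_left_injective (n := 2) (by norm_num) hab
  have h2 : ∑ p ∈ (n.primeFactors.filter (fun p => y < p)).filter (fun p => ¬ ¬ p ^ 2 ∣ n), Real.log p =
      ∑ d ∈ ((n.primeFactors.filter (fun p => y < p)).filter (fun p => ¬ ¬ p ^ 2 ∣ n)).image
        (fun p : ℕ => p ^ 2), Λ d := by
    rw [sum_image hinj]
    refine sum_congr rfl fun p hp => ?_
    rw [mem_filter, mem_filter, Nat.mem_primeFactors] at hp
    have hp1 := hp.1.1.1
    rw [ArithmeticFunction.vonMangoldt_apply_pow (by norm_num), ArithmeticFunction.vonMangoldt_apply_prime hp1]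
  rw [h2]
  unfold Wg_T
  refine sum_le_sum_of_subset_of_nonneg ?_ fun _ _ _ => ArithmeticFunction.vonMangoldt_nonneg
  intro d hd
  obtain ⟨p, hp, rfl⟩ := mem_image.1 hd
  rw [mem_filter, mem_filter, Nat.mem_primeFactors, not_not] at hp
  rw [mem_filter, Nat.mem_divisors]
  refine ⟨⟨hp.2, hp.1.1.2.2⟩, fun h => ?_⟩
  exact Nat.Prime.not_prime_pow (le_refl 2) h.1

private theorem sum_log (N : ℕ) : ∑ n ∈ Icc 1 N, (Real.log N - Real.log n) ≤ N := by
  rcases Nat.eq_zero_or_pos N with h0 | h0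
  · subst h0
    simp
  have hN : (0 : ℝ) < N := by exact_mod_cast h0
  have h1 : ∑ n ∈ Icc 1 N, Real.log n = Real.log (N.factorial : ℝ) := by
    clear h0 hN
    induction N with
    | zero => simp
    | succ N ih =>
      rw [Finset.sum_Icc_succ_top (by omega), ih, Nat.factorial_succ, Nat.cast_mul, Real.log_mul]
      · ring
      · exact_mod_cast Nat.succ_ne_zero N
      · exact_mod_cast Nat.factorial_ne_zero N
  rw [sum_sub_distrib, sum_const, Nat.card_Icc, Nat.add_sub_cancel, nsmul_eq_mul, h1]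
  have h2 := Real.pow_div_factorial_le_exp (N : ℝ) hN.le N
  have hf : (0 : ℝ) < N.factorial := by exact_mod_cast Nat.factorial_pos N
  have h3 := Real.log_le_log (by positivity) h2
  rw [Real.log_exp, Real.log_div (by positivity) hf.ne', Real.log_pow] at h3
  linarith

private theorem reindex (N y : ℕ) (f : ℕ → ℂ) :
    ∑ m ∈ Icc 1 N, ∑ P ∈ (Ioc y (N / m)).filter (fun P => P.Prime ∧ ¬ P ∣ m),
      f (m * P) * (Real.log P : ℂ) = ∑ n ∈ Icc 1 N, f n * (bb y n : ℂ) := by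
  have h1 : ∀ n ∈ Icc 1 N, f n * (bb y n : ℂ) =
      ∑ p ∈ n.primeFactors.filter (fun p => y < p ∧ ¬ p ^ 2 ∣ n), f n * (Real.log p : ℂ) := by
    intro n _
    unfold bb
    rw [Complex.ofReal_sum, mul_sum]
  rw [sum_congr rfl h1, sum_sigma', sum_sigma']
  refine sum_bij' (fun x _ => ⟨x.1 * x.2, x.2⟩) (fun x _ => ⟨x.1 / x.2, x.2⟩) ?_ ?_ ?_ ?_ ?_
  · rintro ⟨m, P⟩ hx
    rw [mem_sigma, mem_Icc, mem_filter, mem_Ioc] at hx
    obtain ⟨⟨h2, h3⟩, ⟨h4, h5⟩, h6, h7⟩ := hx
    simp only at h2 h3 h4 h5 h6 h7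
    rw [Nat.le_div_iff_mul_le (by omega)] at h5
    have hP := h6.pos
    have hmP : 0 < m * P := Nat.mul_pos (by omega) hP
    rw [mem_sigma, mem_Icc, mem_filter, Nat.mem_primeFactors]
    refine ⟨⟨hmP, ?_⟩, ⟨h6, dvd_mul_left _ _, hmP.ne'⟩, h4, ?_⟩
    · show m * P ≤ N
      rw [mul_comm]
      exact h5
    · show ¬ P ^ 2 ∣ m * P
      intro h
      rw [sq] at h
      exact h7 (Nat.dvd_of_mul_dvd_mul_right hP h)
  · rintro ⟨n, p⟩ hx
    rw [mem_sigma, mem_Icc, mem_filter, Nat.mem_primeFactors] at hx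
    obtain ⟨⟨h2, h3⟩, ⟨h4, ⟨m, hm⟩, h6⟩, h7, h8⟩ := hx
    simp only at h2 h3 h4 hm h6 h7 h8
    have hp := h4.pos
    have hm' : n / p = m := by rw [hm]; exact Nat.mul_div_cancel_left m hp
    have hm0 : 0 < m := by
      rcases Nat.eq_zero_or_pos m with h | h
      · rw [h, mul_zero] at hm; omega
      · exact h
    rw [mem_sigma, mem_Icc, mem_filter, mem_Ioc]
    simp only
    rw [hm']
    have hmN : m ≤ n := by rw [hm]; exact Nat.le_mul_of_pos_left m hp
    refine ⟨⟨hm0, hmN.trans h3⟩, ⟨h7, ?_⟩, h4, ?_⟩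
    · rw [Nat.le_div_iff_mul_le hm0, ← hm]
      exact h3
    · rintro ⟨k, hk⟩
      exact h8 ⟨k, by rw [hm, hk]; ring⟩
  · rintro ⟨m, P⟩ hx
    rw [mem_sigma, mem_Icc, mem_filter, mem_Ioc] at hx
    have hP := hx.2.2.1.pos
    simp only at hP ⊢
    rw [Nat.mul_div_cancel _ hP]
  · rintro ⟨n, p⟩ hx
    rw [mem_sigma, mem_Icc, mem_filter, Nat.mem_primeFactors] at hx
    have hd := hx.2.1.2.1
    simp only at hd ⊢
    rw [Nat.div_mul_cancel hd]
  · rintro ⟨m, P⟩ _
    rfl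

theorem weight (δ : ℝ) (hδ : 0 < δ) (hδ1 : δ ≤ 1) : ∃ N0 : ℕ, ∀ N : ℕ, N0 ≤ N →
    ∀ f : ℕ → ℂ, (∀ n, ‖f n‖ ≤ 1) →
      ‖(Real.log N : ℂ) * ∑ n ∈ Icc 1 N, f n -
        ∑ m ∈ Icc 1 N, ∑ P ∈ (Ioc (yy δ N) (N / m)).filter (fun P => P.Prime ∧ ¬ P ∣ m),
          f (m * P) * (Real.log P : ℂ)‖ ≤ 4 * δ * N * Real.log N := by
  obtain ⟨D, hD0, hD⟩ := Wg_np
  have hl4 : 0 ≤ Real.log 4 := Real.log_nonneg (by norm_num)
  have t1 : Filter.Tendsto (fun N : ℕ => Real.log (N : ℝ)) Filter.atTop Filter.atTop :=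
    Real.tendsto_log_atTop.comp tendsto_natCast_atTop_atTop
  obtain ⟨N0, hN0⟩ := ((t1.eventually_ge_atTop ((1 + 2 * (Real.log 4 + 4 + D)) / (2 * δ))).and
    (Filter.eventually_ge_atTop 2)).exists_forall_of_atTop
  refine ⟨N0, fun N hN f hf => ?_⟩
  obtain ⟨e1, e4⟩ := hN0 N hN
  have hN1 : (1 : ℝ) < N := by exact_mod_cast e4
  have hNpos : (0 : ℝ) < N := by linarith
  have hlog : 0 < Real.log N := Real.log_pos hN1
  obtain ⟨y, hy⟩ : ∃ y, y = yy δ N := ⟨_, rfl⟩
  rw [← hy]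
  have hy1 : 1 ≤ y := by
    rw [hy, yy]
    refine Nat.le_floor ?_
    rw [Nat.cast_one]
    exact Real.one_le_rpow hN1.le hδ.le
  have hy0 : (0 : ℝ) < y := by exact_mod_cast hy1
  have hylog : Real.log y ≤ δ * Real.log N := by
    rw [← Real.log_rpow hNpos]
    refine Real.log_le_log hy0 ?_
    rw [hy, yy]
    exact Nat.floor_le (by positivity)
  rw [reindex, mul_sum, ← sum_sub_distrib]
  have key : ∀ n ∈ Icc 1 N, ‖(Real.log N : ℂ) * f n - f n * (bb y n : ℂ)‖ ≤
      (Real.log N - Real.log n) + 2 * Wg_T y n := by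
    intro n hn
    rw [mem_Icc] at hn
    have hn0 : (0 : ℝ) < n := by exact_mod_cast hn.1
    have h1 : (Real.log N : ℂ) * f n - f n * (bb y n : ℂ) = f n * ((Real.log N - bb y n : ℝ) : ℂ) := by
      push_cast
      ring
    have h2 := Wg_log y n
    have h3 := bb_le y n
    have h4 := big_sub y n
    have h5 := Wg_T_nonneg y n
    have h6 : Real.log n ≤ Real.log N := Real.log_le_log hn0 (by exact_mod_cast hn.2)
    have h7 : 0 ≤ Real.log N - bb y n := by linarith
    rw [h1, norm_mul, Complex.norm_real, Real.norm_of_nonneg h7]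
    calc ‖f n‖ * (Real.log N - bb y n) ≤ 1 * (Real.log N - bb y n) :=
          mul_le_mul_of_nonneg_right (hf n) h7
      _ ≤ (Real.log N - Real.log n) + 2 * Wg_T y n := by linarith
  refine (norm_sum_le _ _).trans ((sum_le_sum key).trans ?_)
  rw [sum_add_distrib, ← mul_sum]
  have h1 := sum_log N
  have h2 := Wg_sum y N hy1 hD
  rw [div_le_iff₀ (by positivity)] at e1
  have h3 : (N : ℝ) * (Real.log y + (Real.log 4 + 4) + D) ≤ N * (δ * Real.log N + (Real.log 4 + 4 + D)) :=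
    mul_le_mul_of_nonneg_left (by linarith) hNpos.le
  have h4 : (N : ℝ) * (1 + 2 * (Real.log 4 + 4 + D)) ≤ N * (Real.log N * (2 * δ)) :=
    mul_le_mul_of_nonneg_left e1 hNpos.le
  have h5 : (N : ℝ) * (1 + 2 * (Real.log 4 + 4 + D)) = N + 2 * (N * (Real.log 4 + 4 + D)) := by ring
  have h6 : (N : ℝ) * (δ * Real.log N + (Real.log 4 + 4 + D)) =
      δ * N * Real.log N + N * (Real.log 4 + 4 + D) := by ring
  have h7 : (N : ℝ) * (Real.log N * (2 * δ)) = 2 * (δ * N * Real.log N) := by ring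
  have h8 : 4 * δ * N * Real.log N = 4 * (δ * N * Real.log N) := by ring
  rw [h8]
  linarith

end Pool.Agent.H31.TL
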